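import Mathlib

set_option autoImplicit false

open Set Cardinal

namespace Pool.Agent.H79.WC

section general

variable (F : Type) {E : Type} [Field F] [Field E] [Algebra F E]

/-- the algebraic closure in `E` of the field generated by `T` over `F` -/
noncomputable def acl (T : Set E) : IntermediateField F E :=
  (algebraicClosure (IntermediateField.adjoin F T) E).restrictScalars F

variable {F}

theorem mem_acl {T : Set E} {x : E} : x ∈ acl F T ↔ IsAlgebraic (Algebra.adjoin F T) x := by
  rw [← IntermediateField.isAlgebraic_adjoin_iff]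
  exact mem_algebraicClosure_iff

theorem subset_acl (T : Set E) : T ⊆ acl F T := by
  intro x hx
  have hx' : x ∈ Algebra.adjoin F T := Algebra.subset_adjoin hx
  exact mem_acl.2 (isAlgebraic_algebraMap (⟨x, hx'⟩ : Algebra.adjoin F T))

theorem adjoin_le_acl (T : Set E) : IntermediateField.adjoin F T ≤ acl F T :=
  IntermediateField.adjoin_le_iff.2 (subset_acl T)

theorem acl_le {S T : Set E} (h : S ⊆ acl F T) : acl F S ≤ acl F T := by
  intro x hx
  rw [mem_acl] at hx ⊢
  exact IsAlgebraic.adjoin_of_forall_isAlgebraic (fun y hy => mem_acl.1 (h hy.1)) hx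

theorem acl_sq {T : Set E} {z : E} (h : z ^ 2 ∈ acl F T) : z ∈ acl F T := by
  rw [mem_acl] at h ⊢
  exact h.of_pow two_pos

/-- a finite family `P` with `acl P = acl S` of size at most the transcendence degree of `acl S`
is algebraically independent -/
theorem indep_of_acl' {ι : Type} [Fintype ι] {P : ι → E} {S : Set E} (hP : ∀ i, P i ∈ acl F S)
    (hS : S ⊆ acl F (range P))
    (hcard : (Fintype.card ι : Cardinal) ≤ Algebra.trdeg F (acl F S)) :
    AlgebraicIndependent F P := by
  let P' : ι → acl F S := fun i => ⟨P i, hP i⟩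
  have hrange : (acl F S).val '' (range P') = range P := by
    ext x
    simp [P']
  have halg : Algebra.IsAlgebraic (Algebra.adjoin F (range P')) (acl F S) := by
    refine ⟨fun x => ?_⟩
    have h1 : IsAlgebraic (Algebra.adjoin F (range P)) (x : E) := mem_acl.1 (acl_le hS x.2)
    have hmap : (Algebra.adjoin F (range P')).map (acl F S).val = Algebra.adjoin F (range P) := by
      rw [AlgHom.map_adjoin, hrange]
    let e : Algebra.adjoin F (range P') ≃ₐ[F] Algebra.adjoin F (range P) :=
      ((Algebra.adjoin F (range P')).equivMapOfInjective (acl F S).val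
        (acl F S).val.injective).trans (Subalgebra.equivOfEq _ _ hmap)
    refine (isAlgebraic_ringHom_iff_of_comp_eq e (acl F S).val (acl F S).val.injective ?_).1 h1
    ext a
    rfl
  have hle : #ι ≤ Algebra.trdeg F (acl F S) := by
    rw [Cardinal.mk_fintype]
    exact hcard
  have h1 : IsTranscendenceBasis F P' :=
    Algebra.IsAlgebraic.isTranscendenceBasis_of_le_trdeg_of_finite F P' hle
  exact h1.1.map' (f := (acl F S).val) (acl F S).val.injective

/-- the same with the field generated by `S` -/
theorem indep_of_acl {ι : Type} [Fintype ι] {P : ι → E} {S : Set E} (hP : ∀ i, P i ∈ acl F S)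
    (hS : S ⊆ acl F (range P))
    (hcard : (Fintype.card ι : Cardinal) ≤ Algebra.trdeg F (IntermediateField.adjoin F S)) :
    AlgebraicIndependent F P := by
  refine indep_of_acl' hP hS (hcard.trans ?_)
  exact trdeg_le_of_injective (IntermediateField.inclusion (adjoin_le_acl S))
    (IntermediateField.inclusion_injective (adjoin_le_acl S))

theorem card_le_trdeg {ι : Type} [Fintype ι] {P : ι → E} (hP : AlgebraicIndependent F P) :
    (Fintype.card ι : Cardinal) ≤ Algebra.trdeg F (IntermediateField.adjoin F (range P)) := by
  have h5 : AlgebraicIndependent F (fun i => (⟨P i,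
      IntermediateField.subset_adjoin _ _ (mem_range_self i)⟩ :
      IntermediateField.adjoin F (range P))) :=
    AlgebraicIndependent.of_comp (IntermediateField.adjoin F (range P)).val hP
  have h6 := h5.cardinalMk_le_trdeg
  rwa [Cardinal.mk_fintype] at h6

variable {M : Type} [Field M] [IsAlgClosed M] [Algebra F M]

/-- specialisation of the generic point `P` to the generic point `b` -/
theorem exists_spec {ι : Type} {P : ι → E} {b : ι → M} (hP : AlgebraicIndependent F P)
    (hb : AlgebraicIndependent F b) :
    ∃ σ : acl F (range P) →+* M, ∀ i (h : P i ∈ acl F (range P)), σ ⟨P i, h⟩ = b i := by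
  let K₀ := IntermediateField.adjoin F (range P)
  have hPmem : ∀ i, P i ∈ K₀ := fun i => IntermediateField.subset_adjoin _ _ (mem_range_self i)
  let f : K₀ →+* M := ((IntermediateField.adjoin F (range b)).val.toRingHom).comp
    ((hb.aevalEquivField.toRingEquiv.toRingHom).comp hP.aevalEquivField.symm.toRingEquiv.toRingHom)
  have hf : ∀ i, f ⟨P i, hPmem i⟩ = b i := by
    intro i
    have h1 : hP.aevalEquivField (algebraMap (MvPolynomial ι F) (FractionRing (MvPolynomial ι F))
        (MvPolynomial.X i)) = (⟨P i, hPmem i⟩ : K₀) := by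
      apply Subtype.ext
      rw [AlgebraicIndependent.aevalEquivField_algebraMap_apply_coe, MvPolynomial.aeval_X]
    have h2 : hP.aevalEquivField.symm (⟨P i, hPmem i⟩ : K₀) =
        algebraMap (MvPolynomial ι F) (FractionRing (MvPolynomial ι F)) (MvPolynomial.X i) := by
      rw [← h1, AlgEquiv.symm_apply_apply]
    change ((hb.aevalEquivField (hP.aevalEquivField.symm (⟨P i, hPmem i⟩ : K₀)) :
      IntermediateField.adjoin F (range b)) : M) = b i
    rw [h2, AlgebraicIndependent.aevalEquivField_algebraMap_apply_coe, MvPolynomial.aeval_X]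
  let L := algebraicClosure K₀ E
  let _ : Algebra K₀ M := f.toAlgebra
  have h3 : ∃ τ : L →+* M, ∀ a : K₀, τ (algebraMap K₀ L a) = f a := by
    have _ : Algebra.IsAlgebraic K₀ L := algebraicClosure.isAlgebraic K₀ E
    let g : L →ₐ[K₀] M := IsAlgClosed.lift
    exact ⟨g.toRingHom, fun a => g.commutes a⟩
  obtain ⟨τ, hτ⟩ := h3
  refine ⟨τ, ?_⟩
  intro i h
  rw [← hf i, ← hτ]
  rfl

end general

end Pool.Agent.H79.WC
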