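import Mathlib

set_option autoImplicit false

open Polynomial Matrix

namespace Pool.Agent.H79.WC

/-- The group generated by the eigenvalues of an invertible complex matrix `g`.  For a linear
algebraic group `G ≤ GL_m` over `ℝ` or `ℂ` and a semisimple `g ∈ G(F)` it is the set of all
values `χ(g)`, where `χ` runs over the characters of the maximal tori of `G` containing `g`. -/
def charValues {m : ℕ} (g : GL (Fin m) ℂ) : Subgroup ℂˣ :=
  Subgroup.closure {z : ℂˣ | (z : ℂ) ∈ spectrum ℂ (g : Matrix (Fin m) (Fin m) ℂ)}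

/-- a semisimple element of infinite order -/
def SSInf {m : ℕ} (g : GL (Fin m) ℂ) : Prop :=
  Module.End.IsSemisimple (Matrix.toLin' (g : Matrix (Fin m) (Fin m) ℂ)) ∧ ¬ IsOfFinOrder g

/-- weak commensurability of two elements: a common character value different from `1` -/
def WCElem {m n : ℕ} (g : GL (Fin m) ℂ) (h : GL (Fin n) ℂ) : Prop :=
  ∃ x : ℂˣ, x ≠ 1 ∧ x ∈ charValues g ∧ x ∈ charValues h

/-- every semisimple element of infinite order of `Γ` is weakly commensurable to some semisimple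
element of infinite order of `Δ` -/
def WCInto {m n : ℕ} (Γ : Subgroup (GL (Fin m) ℂ)) (Δ : Subgroup (GL (Fin n) ℂ)) : Prop :=
  ∀ g ∈ Γ, SSInf g → ∃ h ∈ Δ, SSInf h ∧ WCElem g h

/-- weakly commensurable subgroups -/
def WCom {m n : ℕ} (Γ : Subgroup (GL (Fin m) ℂ)) (Δ : Subgroup (GL (Fin n) ℂ)) : Prop :=
  WCInto Γ Δ ∧ WCInto Δ Γ

theorem exists_ext {E : Type*} [Field E] [IsAlgClosed E] (K : Subfield ℂ) (σ : K →+* E) :
    ∃ τ : algebraicClosure K ℂ →+* E, ∀ a : K, τ (algebraMap K (algebraicClosure K ℂ) a) = σ a := by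
  let _ := σ.toAlgebra
  have _ : Algebra.IsAlgebraic K (algebraicClosure K ℂ) := algebraicClosure.isAlgebraic K ℂ
  let f : algebraicClosure K ℂ →ₐ[K] E := IsAlgClosed.lift
  exact ⟨f.toRingHom, fun a => f.commutes a⟩

/-- the coefficients of the characteristic polynomials of `Γ` lie in `K` and have `σ`-images
bounded by `C` -/
def BoundedTwist {m : ℕ} (Γ : Subgroup (GL (Fin m) ℂ)) (K : Subfield ℂ) (σ : K →+* ℂ)
    (C : ℝ) : Prop :=
  ∀ g ∈ Γ, ∀ i : ℕ, ∃ a : K,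
    (a : ℂ) = (g : Matrix (Fin m) (Fin m) ℂ).charpoly.coeff i ∧ ‖σ a‖ ≤ C

theorem BoundedTwist.exists_poly {m : ℕ} {Γ : Subgroup (GL (Fin m) ℂ)} {K : Subfield ℂ}
    {σ : K →+* ℂ} {C : ℝ} (h : BoundedTwist Γ K σ C) {g : GL (Fin m) ℂ} (hg : g ∈ Γ) :
    ∃ p : K[X], p.Monic ∧ p.map (algebraMap K ℂ) = (g : Matrix (Fin m) (Fin m) ℂ).charpoly ∧
      ∀ i, ‖σ (p.coeff i)‖ ≤ C := by
  have h1 : (g : Matrix (Fin m) (Fin m) ℂ).charpoly ∈ Polynomial.lifts (algebraMap K ℂ) := by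
    rw [Polynomial.lifts_iff_coeff_lifts]
    intro i
    obtain ⟨a, ha, _⟩ := h g hg i
    exact ⟨a, ha⟩
  obtain ⟨p, hp, hdeg, hmon⟩ :=
    Polynomial.lifts_and_degree_eq_and_monic h1 (Matrix.charpoly_monic _)
  refine ⟨p, hmon, hp, ?_⟩
  intro i
  obtain ⟨a, ha, hC⟩ := h g hg i
  have h2 : p.coeff i = a := by
    have h3 : algebraMap K ℂ (p.coeff i) = algebraMap K ℂ a := by
      rw [← Polynomial.coeff_map, hp, ← ha]
      rfl
    exact (algebraMap K ℂ).injective h3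
  rw [h2]
  exact hC

theorem eig_mem_closure {m : ℕ} {K : Subfield ℂ} {g : GL (Fin m) ℂ} {p : K[X]} (hp : p.Monic)
    (hpg : p.map (algebraMap K ℂ) = (g : Matrix (Fin m) (Fin m) ℂ).charpoly) {z : ℂ}
    (hz : z ∈ spectrum ℂ (g : Matrix (Fin m) (Fin m) ℂ)) : z ∈ algebraicClosure K ℂ := by
  rw [mem_algebraicClosure_iff]
  rw [Matrix.mem_spectrum_iff_isRoot_charpoly, ← hpg] at hz
  refine ⟨p, hp.ne_zero, ?_⟩
  rw [Polynomial.IsRoot.def, Polynomial.eval_map] at hz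
  exact hz

theorem norm_le_of_root {p : ℂ[X]} (hp : p.Monic) {C : ℝ} (hC0 : 0 ≤ C)
    (hC : ∀ i, ‖p.coeff i‖ ≤ C) {w : ℂ} (hw : p.IsRoot w) : ‖w‖ ≤ C + 1 := by
  have h1 := Polynomial.IsRoot.norm_lt_cauchyBound hp.ne_zero hw
  have h2 : (Polynomial.cauchyBound p : ℝ) ≤ C + 1 := by
    rw [Polynomial.cauchyBound, hp.leadingCoeff]
    simp only [nnnorm_one, div_one, NNReal.coe_add, NNReal.coe_one]
    gcongr
    have h3 : Finset.sup (Finset.range p.natDegree) (fun i => ‖p.coeff i‖₊) ≤ ⟨C, hC0⟩ := by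
      apply Finset.sup_le
      intro i _
      exact hC i
    exact_mod_cast h3
  have h4 : (‖w‖₊ : ℝ) < (Polynomial.cauchyBound p : ℝ) := by exact_mod_cast h1
  simp only [coe_nnnorm] at h4
  linarith

theorem norm_twist_pow_le {m : ℕ} {Γ : Subgroup (GL (Fin m) ℂ)} {K : Subfield ℂ}
    {σ : K →+* ℂ} {C : ℝ} (h : BoundedTwist Γ K σ C)
    (τ : algebraicClosure K ℂ →+* ℂ)
    (hτ : ∀ a : K, τ (algebraMap K (algebraicClosure K ℂ) a) = σ a)
    {g : GL (Fin m) ℂ} (hg : g ∈ Γ) (z : algebraicClosure K ℂ)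
    (hz : (z : ℂ) ∈ spectrum ℂ (g : Matrix (Fin m) (Fin m) ℂ)) : ‖τ z‖ ≤ |C| + 1 := by
  obtain ⟨p, hp, hpg, hC⟩ := h.exists_poly hg
  have h1 : (p.map σ).IsRoot (τ z) := by
    rw [Matrix.mem_spectrum_iff_isRoot_charpoly, ← hpg, Polynomial.IsRoot.def,
      Polynomial.eval_map] at hz
    have h2 : Polynomial.eval₂ (algebraMap K (algebraicClosure K ℂ)) z p = 0 := by
      have h3 : (algebraMap (algebraicClosure K ℂ) ℂ)
          (Polynomial.eval₂ (algebraMap K (algebraicClosure K ℂ)) z p) = 0 := by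
        rw [Polynomial.hom_eval₂]
        exact hz
      exact (map_eq_zero _).1 h3
    rw [Polynomial.IsRoot.def, Polynomial.eval_map]
    have h4 : τ (Polynomial.eval₂ (algebraMap K (algebraicClosure K ℂ)) z p) = 0 := by
      rw [h2, map_zero]
    rw [Polynomial.hom_eval₂] at h4
    have h5 : τ.comp (algebraMap K (algebraicClosure K ℂ)) = σ := by
      ext a
      exact hτ a
    rwa [h5] at h4
  refine norm_le_of_root (hp.map σ) (abs_nonneg C) ?_ h1
  intro i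
  rw [Polynomial.coeff_map]
  exact (hC i).trans (le_abs_self C)

theorem norm_le_one_of_pow_le {x B : ℝ} (hx : 0 ≤ x) (h : ∀ n : ℕ, x ^ n ≤ B) : x ≤ 1 := by
  by_contra hcon
  push Not at hcon
  have h1 := tendsto_pow_atTop_atTop_of_one_lt hcon
  obtain ⟨n, hn⟩ := (h1.eventually (Filter.eventually_gt_atTop B)).exists
  exact absurd (h n) (not_le.2 hn)

theorem norm_twist_le_one {m : ℕ} {Γ : Subgroup (GL (Fin m) ℂ)} {K : Subfield ℂ}
    {σ : K →+* ℂ} {C : ℝ} (h : BoundedTwist Γ K σ C)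
    (τ : algebraicClosure K ℂ →+* ℂ)
    (hτ : ∀ a : K, τ (algebraMap K (algebraicClosure K ℂ) a) = σ a)
    {g : GL (Fin m) ℂ} (hg : g ∈ Γ) (z : algebraicClosure K ℂ)
    (hz : (z : ℂ) ∈ spectrum ℂ (g : Matrix (Fin m) (Fin m) ℂ)) : ‖τ z‖ ≤ 1 := by
  refine norm_le_one_of_pow_le (norm_nonneg _) (B := |C| + 1) ?_
  intro n
  rw [← norm_pow, ← map_pow]
  refine norm_twist_pow_le h τ hτ (Γ.pow_mem hg n) (z ^ n) ?_
  have h1 := spectrum.pow_mem_pow (g : Matrix (Fin m) (Fin m) ℂ) n hz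
  simpa using h1

/-- every character value at an element of `Γ` lies in the algebraic closure of `K` and becomes
unimodular under every extension of the bounded twist -/
theorem charValues_unimodular {m : ℕ} {Γ : Subgroup (GL (Fin m) ℂ)} {K : Subfield ℂ}
    {σ : K →+* ℂ} {C : ℝ} (h : BoundedTwist Γ K σ C)
    (τ : algebraicClosure K ℂ →+* ℂ)
    (hτ : ∀ a : K, τ (algebraMap K (algebraicClosure K ℂ) a) = σ a)
    {g : GL (Fin m) ℂ} (hg : g ∈ Γ) {x : ℂˣ} (hx : x ∈ charValues g) :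
    ∃ y : algebraicClosure K ℂ, (y : ℂ) = x ∧ ‖τ y‖ = 1 := by
  induction hx using Subgroup.closure_induction with
  | mem z hz =>
    obtain ⟨p, hp, hpg, hC⟩ := h.exists_poly hg
    have hzL := eig_mem_closure hp hpg hz
    refine ⟨⟨z, hzL⟩, rfl, ?_⟩
    have h1 := norm_twist_le_one h τ hτ hg ⟨z, hzL⟩ hz
    have h2 : ((z⁻¹ : ℂˣ) : ℂ) ∈ spectrum ℂ ((g⁻¹ : GL (Fin m) ℂ) : Matrix (Fin m) (Fin m) ℂ) :=
      spectrum.inv_mem_iff.1 hz
    have h3 : (((⟨z, hzL⟩ : algebraicClosure K ℂ)⁻¹ : algebraicClosure K ℂ) : ℂ) ∈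
        spectrum ℂ ((g⁻¹ : GL (Fin m) ℂ) : Matrix (Fin m) (Fin m) ℂ) := by
      simpa using h2
    have h4 := norm_twist_le_one h τ hτ (Γ.inv_mem hg) _ h3
    rw [map_inv₀, norm_inv] at h4
    have h5 : 0 < ‖τ ⟨z, hzL⟩‖ := by
      rw [norm_pos_iff, ne_eq, map_eq_zero]
      intro h0
      have : (z : ℂ) = 0 := by
        have := congrArg (Subtype.val) h0
        simpa using this
      exact z.ne_zero this
    have h6 : 1 ≤ ‖τ ⟨z, hzL⟩‖ := by
      rw [inv_le_one₀ h5] at h4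
      exact h4
    linarith
  | one => exact ⟨1, by simp, by simp⟩
  | mul x y _ _ ihx ihy =>
    obtain ⟨a, ha, ha'⟩ := ihx
    obtain ⟨b, hb, hb'⟩ := ihy
    exact ⟨a * b, by simp [ha, hb], by simp [ha', hb']⟩
  | inv x _ ih =>
    obtain ⟨a, ha, ha'⟩ := ih
    exact ⟨a⁻¹, by simp [ha], by simp [ha']⟩

end Pool.Agent.H79.WC
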