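import Pool.Agent.H79.WC.Words

set_option autoImplicit false

open Polynomial Matrix

namespace Pool.Agent.H79.WC

theorem one_add_pow_of_sq_zero {R : Type*} [Ring R] [Algebra ℂ R] {A : R} (hA : A * A = 0)
    (N : ℕ) : (1 + A) ^ N = 1 + (N : ℂ) • A := by
  induction N with
  | zero => simp
  | succ k ih =>
    rw [pow_succ, ih, mul_add, mul_one, add_mul, one_mul, smul_mul_assoc, hA, smul_zero,
      add_zero, Nat.cast_succ]
    module

theorem word_ne_one {R : Type*} [Ring R] [Algebra ℂ R] {A B : R} {c : ℂ} (hA : A * A = 0)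
    (hABA : A * B * A = c • A) (hc : c ≠ 0) (hA0 : A ≠ 0) (N : ℂ) :
    (1 + N • A) * (1 + B) ≠ 1 := by
  intro h
  have h1 : A * ((1 + N • A) * (1 + B)) = A + A * B := by
    have h3 : A * (1 + N • A) = A := by
      rw [mul_add, mul_one, mul_smul_comm, hA, smul_zero, add_zero]
    rw [← mul_assoc, h3, mul_add, mul_one]
  rw [h, mul_one] at h1
  have h2 : A * B = 0 := by simpa using h1
  rw [h2, zero_mul] at hABA
  exact (smul_ne_zero hc hA0) hABA.symm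

theorem mem_algClosure_of_zpow {K : Subfield ℂ} {z : ℂˣ} {k : ℤ} (hk : k ≠ 0)
    (h : ((z ^ k : ℂˣ) : ℂ) ∈ algebraicClosure K ℂ) : (z : ℂ) ∈ algebraicClosure K ℂ := by
  have key : ∀ n : ℕ, 0 < n → (z : ℂ) ^ n ∈ algebraicClosure K ℂ →
      (z : ℂ) ∈ algebraicClosure K ℂ := by
    intro n hn h1
    rw [mem_algebraicClosure_iff] at h1 ⊢
    exact h1.of_pow hn
  obtain ⟨n, rfl | rfl⟩ := k.eq_nat_or_neg
  · refine key n ?_ ?_
    · rcases Nat.eq_zero_or_pos n with h0 | h0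
      · simp [h0] at hk
      · exact h0
    · simpa using h
  · refine key n ?_ ?_
    · rcases Nat.eq_zero_or_pos n with h0 | h0
      · simp [h0] at hk
      · exact h0
    · have h2 := (algebraicClosure K ℂ).inv_mem h
      simpa using h2

theorem norm_eq_one_of_zpow {x : ℝ} (hx : 0 ≤ x) {k : ℤ} (hk : k ≠ 0) (h : x ^ k = 1) : x = 1 := by
  obtain ⟨n, rfl | rfl⟩ := k.eq_nat_or_neg
  · have hn : n ≠ 0 := by rintro rfl; simp at hk
    rw [zpow_natCast] at h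
    exact (pow_eq_one_iff_of_nonneg hx hn).1 h
  · have hn : n ≠ 0 := by rintro rfl; simp at hk
    rw [_root_.zpow_neg, zpow_natCast, inv_eq_one] at h
    exact (pow_eq_one_iff_of_nonneg hx hn).1 h

/-- the core of the bounded twist criterion -/
theorem core_bounded {m n : ℕ} {Γ₁ : Subgroup (GL (Fin m) ℂ)} {Γ₂ : Subgroup (GL (Fin n) ℂ)}
    {K : Subfield ℂ} {σ : K →+* ℂ} {C : ℝ} (h : BoundedTwist Γ₁ K σ C) (hWC : WCInto Γ₂ Γ₁)
    {u v : GL (Fin n) ℂ} (hu : u ∈ Γ₂) (hv : v ∈ Γ₂) {A B : Matrix (Fin n) (Fin n) ℂ}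
    (huA : (u : Matrix (Fin n) (Fin n) ℂ) = 1 + A) (hvB : (v : Matrix (Fin n) (Fin n) ℂ) = 1 + B)
    (hA : A * A = 0) (hB : B * B = 0) (hA0 : A ≠ 0) {c : ℂ} (hABA : A * B * A = c • A)
    (hBAB : B * A * B = c • B) : c = 0 := by
  by_contra hc
  obtain ⟨τ, hτ⟩ := exists_ext K σ
  have key : ∀ N : ℕ, 2 < ‖2 + (N : ℂ) * c‖ →
      ∃ t : algebraicClosure K ℂ, (t : ℂ) = 2 + (N : ℂ) * c ∧ ‖τ t‖ ≤ 2 := by
    intro N hN
    obtain ⟨z, hz, hz1⟩ := exists_eig hN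
    set w : GL (Fin n) ℂ := u ^ N * v with hw
    have hwM : (w : Matrix (Fin n) (Fin n) ℂ) = (1 + (N : ℂ) • A) * (1 + B) := by
      rw [hw, Units.val_mul, Units.val_pow_eq_pow_val, huA, hvB, one_add_pow_of_sq_zero hA]
    have hw1 : w ≠ 1 := by
      intro h1
      apply word_ne_one hA hABA hc hA0 (N : ℂ) (B := B)
      rw [← hwM, h1, Units.val_one]
    have hcub := word_cubic hA hB hABA hBAB (N : ℂ) _ hwM
    obtain ⟨hss, hcv⟩ := cubic_facts hz1 hz hcub hw1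
    obtain ⟨g, hg, -, x, hx1, hxw, hxg⟩ := hWC w (Γ₂.mul_mem (Γ₂.pow_mem hu N) hv) hss
    obtain ⟨k, rfl⟩ := Subgroup.mem_zpowers_iff.1 (hcv hxw)
    have hk : k ≠ 0 := by
      rintro rfl
      exact hx1 (zpow_zero z)
    obtain ⟨y, hy, hy1⟩ := charValues_unimodular h τ hτ hg hxg
    have hzL : (z : ℂ) ∈ algebraicClosure K ℂ := by
      apply mem_algClosure_of_zpow hk
      rw [← hy]
      exact y.2
    set zL : algebraicClosure K ℂ := ⟨z, hzL⟩ with hzLdef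
    have hyz : y = zL ^ k := by
      apply Subtype.ext
      rw [hy, Units.val_zpow_eq_zpow_val]
      exact (map_zpow₀ (algebraMap (algebraicClosure K ℂ) ℂ) zL k).symm
    have hnz : ‖τ zL‖ = 1 := by
      apply norm_eq_one_of_zpow (norm_nonneg _) hk
      rw [← norm_zpow, ← map_zpow₀, ← hyz, hy1]
    refine ⟨zL + zL⁻¹, ?_, ?_⟩
    · rw [hz]
      simp [hzLdef]
    · rw [map_add, map_inv₀]
      refine (norm_add_le _ _).trans ?_
      rw [norm_inv, hnz]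
      norm_num
  have hcn : 0 < ‖c‖ := norm_pos_iff.2 hc
  -- all large N are admissible
  obtain ⟨N₀, hN₀⟩ := exists_nat_gt (4 / ‖c‖)
  have hadm : ∀ N : ℕ, N₀ ≤ N → 2 < ‖2 + (N : ℂ) * c‖ := by
    intro N hN
    have h1 : (4 : ℝ) < N * ‖c‖ := by
      have h2 : 4 / ‖c‖ < N := hN₀.trans_le (by exact_mod_cast hN)
      rwa [div_lt_iff₀ hcn] at h2
    have h3 : ‖(N : ℂ) * c‖ ≤ ‖2 + (N : ℂ) * c‖ + ‖(2 : ℂ)‖ := by
      have := norm_sub_le (2 + (N : ℂ) * c) 2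
      simpa using this
    rw [norm_mul, Complex.norm_natCast, Complex.norm_two] at h3
    linarith
  obtain ⟨t₀, ht₀, -⟩ := key N₀ (hadm N₀ le_rfl)
  have hN₀pos : (N₀ : ℂ) ≠ 0 := by
    intro h0
    rw [h0, zero_mul, add_zero] at ht₀
    have h1 := hadm N₀ le_rfl
    rw [h0, zero_mul, add_zero, Complex.norm_two] at h1
    exact lt_irrefl _ h1
  have hcL : c ∈ algebraicClosure K ℂ := by
    have h1 : c = ((N₀ : ℂ))⁻¹ * ((t₀ : ℂ) - 2) := by
      rw [ht₀]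
      field_simp
      ring
    rw [h1]
    refine mul_mem (inv_mem (natCast_mem _ _)) (sub_mem t₀.2 (ofNat_mem _ _))
  set cL : algebraicClosure K ℂ := ⟨c, hcL⟩ with hcLdef
  have hbound : ∀ N : ℕ, N₀ ≤ N → ‖2 + (N : ℂ) * τ cL‖ ≤ 2 := by
    intro N hN
    obtain ⟨t, ht, ht2⟩ := key N (hadm N hN)
    have h1 : t = 2 + (N : algebraicClosure K ℂ) * cL := by
      apply Subtype.ext
      rw [ht]
      simp only [hcLdef]
      rfl
    rw [h1, map_add, map_mul, map_natCast, map_ofNat] at ht2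
    exact ht2
  have hτc : τ cL ≠ 0 := by
    rw [ne_eq, map_eq_zero]
    intro h0
    apply hc
    have := congrArg Subtype.val h0
    simpa [hcLdef] using this
  have hτcn : 0 < ‖τ cL‖ := norm_pos_iff.2 hτc
  obtain ⟨N₁, hN₁⟩ := exists_nat_gt (4 / ‖τ cL‖)
  have h1 := hbound (N₀ + N₁) (Nat.le_add_right _ _)
  have h2 : ‖((N₀ + N₁ : ℕ) : ℂ) * τ cL‖ ≤ ‖2 + ((N₀ + N₁ : ℕ) : ℂ) * τ cL‖ + ‖(2 : ℂ)‖ := by
    have := norm_sub_le (2 + ((N₀ + N₁ : ℕ) : ℂ) * τ cL) 2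
    simpa using this
  rw [norm_mul, Complex.norm_natCast, Complex.norm_two] at h2
  have h3 : (4 : ℝ) < ((N₀ + N₁ : ℕ) : ℝ) * ‖τ cL‖ := by
    have h4 : 4 / ‖τ cL‖ < ((N₀ + N₁ : ℕ) : ℝ) := hN₁.trans_le (by push_cast; linarith [Nat.cast_nonneg (α := ℝ) N₀])
    rwa [div_lt_iff₀ hτcn] at h4
  linarith

end Pool.Agent.H79.WC
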