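import Pool.Agent.H79.WC.Form

set_option autoImplicit false

open Polynomial Matrix

namespace Pool.Agent.H79.WC

/-- `max(|z|, 1/|z|)` -/
noncomputable def MM (z : ℂ) : ℝ := max ‖z‖ ‖z‖⁻¹

theorem one_le_MM {z : ℂ} (hz : z ≠ 0) : 1 ≤ MM z := by
  have h : 0 < ‖z‖ := norm_pos_iff.2 hz
  rcases le_total 1 ‖z‖ with h1 | h1
  · exact h1.trans (le_max_left _ _)
  · exact ((one_le_inv₀ h).2 h1).trans (le_max_right _ _)

theorem MM_pow (z : ℂ) (n : ℕ) : MM (z ^ n) = MM z ^ n := by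
  unfold MM
  rw [norm_pow]
  rcases le_total ‖z‖ ‖z‖⁻¹ with h | h
  · rw [max_eq_right h, max_eq_right, inv_pow]
    rw [← inv_pow]
    exact pow_le_pow_left₀ (norm_nonneg _) h n
  · rw [max_eq_left h, max_eq_left]
    rw [← inv_pow]
    exact pow_le_pow_left₀ (inv_nonneg.2 (norm_nonneg _)) h n

theorem MM_inv (z : ℂ) : MM z⁻¹ = MM z := by
  unfold MM
  rw [norm_inv, inv_inv, max_comm]

theorem MM_zpow (z : ℂ) (k : ℤ) : MM (z ^ k) = MM z ^ k.natAbs := by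
  obtain ⟨n, rfl | rfl⟩ := k.eq_nat_or_neg
  · rw [zpow_natCast, MM_pow, Int.natAbs_natCast]
  · rw [_root_.zpow_neg, MM_inv, zpow_natCast, MM_pow, Int.natAbs_neg, Int.natAbs_natCast]

theorem norm_add_inv_le {z : ℂ} : ‖z + z⁻¹‖ ≤ 2 * MM z := by
  refine (norm_add_le _ _).trans ?_
  rw [norm_inv]
  have h1 : ‖z‖ ≤ MM z := le_max_left _ _
  have h2 : ‖z‖⁻¹ ≤ MM z := le_max_right _ _
  linarith

theorem MM_le {z : ℂ} (hz : z ≠ 0) : MM z ≤ ‖z + z⁻¹‖ + 1 := by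
  have h : 0 < ‖z‖ := norm_pos_iff.2 hz
  have h1 : ‖z‖ ≤ ‖z + z⁻¹‖ + ‖z‖⁻¹ := by
    have := norm_sub_le (z + z⁻¹) z⁻¹
    simpa using this
  have h2 : ‖z‖⁻¹ ≤ ‖z + z⁻¹‖ + ‖z‖ := by
    have := norm_sub_le (z + z⁻¹) z
    simpa using this
  unfold MM
  rcases le_total 1 ‖z‖ with h3 | h3
  · have h4 : ‖z‖⁻¹ ≤ 1 := inv_le_one_of_one_le₀ h3
    exact max_le (by linarith) (by linarith [norm_nonneg (z + z⁻¹)])
  · exact max_le (by linarith [norm_nonneg (z + z⁻¹)]) (by linarith)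

/-- `τ` contracts the character values of `Γ` with exponent `k` -/
def Contracts {m : ℕ} (Γ : Subgroup (GL (Fin m) ℂ)) (K : Subfield ℂ)
    (τ : algebraicClosure K ℂ →+* ℂ) (k : ℝ) : Prop :=
  ∀ g ∈ Γ, ∀ x ∈ charValues g, ∃ y : algebraicClosure K ℂ, (y : ℂ) = x ∧ MM (τ y) ≤ MM x ^ k

/-- growth: a linear function is not bounded by a smaller power -/
theorem not_le_rpow {a b k : ℝ} (ha : 0 < a) (hb : 0 ≤ b) (hk0 : 0 ≤ k) (hk : k < 1) (N₀ : ℕ) :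
    ∃ N : ℕ, N₀ ≤ N ∧ 2 * (3 + N * b) ^ k + 2 < N * a := by
  have h1 : Filter.Tendsto (fun N : ℕ => (N : ℝ) ^ (1 - k)) Filter.atTop Filter.atTop :=
    (tendsto_rpow_atTop (by linarith)).comp tendsto_natCast_atTop_atTop
  obtain ⟨N, hN, hN0⟩ := ((h1.eventually (Filter.eventually_gt_atTop
    ((2 * (3 + b) ^ k + 2) / a))).and (Filter.eventually_ge_atTop (max N₀ 1))).exists
  refine ⟨N, (le_max_left _ _).trans hN0, ?_⟩
  have hN1 : (1 : ℝ) ≤ N := by exact_mod_cast (le_max_right _ _).trans hN0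
  have hNpos : (0 : ℝ) < N := by linarith
  have h2 : (3 + N * b) ^ k ≤ (N * (3 + b)) ^ k := by
    apply Real.rpow_le_rpow (by positivity) _ hk0
    nlinarith
  rw [Real.mul_rpow hNpos.le (by positivity)] at h2
  have h3 : (N : ℝ) ^ k * (N : ℝ) ^ (1 - k) = N := by
    rw [← Real.rpow_add hNpos]
    simp
  have h4 : 1 ≤ (N : ℝ) ^ k := Real.one_le_rpow hN1 hk0
  rw [div_lt_iff₀ ha] at hN
  have h5 : (N : ℝ) ^ k * (2 * (3 + b) ^ k + 2) < (N : ℝ) ^ k * ((N : ℝ) ^ (1 - k) * a) :=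
    mul_lt_mul_of_pos_left hN (by linarith)
  rw [← mul_assoc, h3] at h5
  nlinarith

/-- the core of the contraction criterion -/
theorem core_contract {m n : ℕ} {Γ₁ : Subgroup (GL (Fin m) ℂ)} {Γ₂ : Subgroup (GL (Fin n) ℂ)}
    {K : Subfield ℂ} {τ : algebraicClosure K ℂ →+* ℂ} {k : ℝ} (hk0 : 0 ≤ k) (hk1 : k < 1)
    (h : Contracts Γ₁ K τ k) (hWC : WCInto Γ₂ Γ₁)
    {u v : GL (Fin n) ℂ} (hu : u ∈ Γ₂) (hv : v ∈ Γ₂) {A B : Matrix (Fin n) (Fin n) ℂ}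
    (huA : (u : Matrix (Fin n) (Fin n) ℂ) = 1 + A) (hvB : (v : Matrix (Fin n) (Fin n) ℂ) = 1 + B)
    (hA : A * A = 0) (hB : B * B = 0) (hA0 : A ≠ 0) {c : ℂ} (hABA : A * B * A = c • A)
    (hBAB : B * A * B = c • B) : c = 0 := by
  by_contra hc
  have key : ∀ N : ℕ, 2 < ‖2 + (N : ℂ) * c‖ →
      ∃ t : algebraicClosure K ℂ, (t : ℂ) = 2 + (N : ℂ) * c ∧
        ‖τ t‖ ≤ 2 * (‖2 + (N : ℂ) * c‖ + 1) ^ k := by
    intro N hN
    obtain ⟨z, hz, hz1⟩ := exists_eig hN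
    set w : GL (Fin n) ℂ := u ^ N * v with hw
    have hwM : (w : Matrix (Fin n) (Fin n) ℂ) = (1 + (N : ℂ) • A) * (1 + B) := by
      rw [hw, Units.val_mul, Units.val_pow_eq_pow_val, huA, hvB, one_add_pow_of_sq_zero hA]
    have hw1 : w ≠ 1 := by
      intro h1
      apply word_ne_one hA hABA hc hA0 (N : ℂ) (B := B)
      rw [← hwM, h1, Units.val_one]
    have hcub := word_cubic hA hB hABA hBAB (N : ℂ) _ hwM
    obtain ⟨hss, hcv⟩ := cubic_facts hz1 hz hcub hw1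
    obtain ⟨g, hg, -, x, hx1, hxw, hxg⟩ := hWC w (Γ₂.mul_mem (Γ₂.pow_mem hu N) hv) hss
    obtain ⟨j, rfl⟩ := Subgroup.mem_zpowers_iff.1 (hcv hxw)
    have hj : j ≠ 0 := by
      rintro rfl
      exact hx1 (zpow_zero z)
    obtain ⟨y, hy, hy1⟩ := h g hg _ hxg
    have hzL : (z : ℂ) ∈ algebraicClosure K ℂ := by
      apply mem_algClosure_of_zpow hj
      rw [← hy]
      exact y.2
    set zL : algebraicClosure K ℂ := ⟨z, hzL⟩ with hzLdef
    have hyz : y = zL ^ j := by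
      apply Subtype.ext
      rw [hy, Units.val_zpow_eq_zpow_val]
      exact (map_zpow₀ (algebraMap (algebraicClosure K ℂ) ℂ) zL j).symm
    have hzL0 : τ zL ≠ 0 := by
      rw [ne_eq, map_eq_zero]
      intro h0
      exact z.ne_zero (congrArg Subtype.val h0)
    have hMz : MM (τ zL) ≤ MM (z : ℂ) ^ k := by
      rw [hyz, map_zpow₀, MM_zpow, Units.val_zpow_eq_zpow_val, MM_zpow, ← Real.rpow_natCast,
        ← Real.rpow_natCast, ← Real.rpow_mul (zero_le_one.trans (one_le_MM z.ne_zero)),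
        mul_comm, Real.rpow_mul (zero_le_one.trans (one_le_MM z.ne_zero))] at hy1
      have hjpos : (0 : ℝ) < (j.natAbs : ℝ) := by
        exact_mod_cast Int.natAbs_pos.2 hj
      exact (Real.rpow_le_rpow_iff (zero_le_one.trans (one_le_MM hzL0))
        (Real.rpow_nonneg (zero_le_one.trans (one_le_MM z.ne_zero)) _) hjpos).1 hy1
    refine ⟨zL + zL⁻¹, ?_, ?_⟩
    · rw [hz]
      simp [hzLdef]
    · rw [map_add, map_inv₀]
      refine norm_add_inv_le.trans ?_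
      have h2 : MM (z : ℂ) ^ k ≤ (‖2 + (N : ℂ) * c‖ + 1) ^ k := by
        apply Real.rpow_le_rpow (zero_le_one.trans (one_le_MM z.ne_zero)) _ hk0
        rw [hz]
        exact MM_le z.ne_zero
      linarith
  have hcn : 0 < ‖c‖ := norm_pos_iff.2 hc
  obtain ⟨N₀, hN₀⟩ := exists_nat_gt (4 / ‖c‖)
  have hadm : ∀ N : ℕ, N₀ ≤ N → 2 < ‖2 + (N : ℂ) * c‖ := by
    intro N hN
    have h1 : (4 : ℝ) < N * ‖c‖ := by
      have h2 : 4 / ‖c‖ < N := hN₀.trans_le (by exact_mod_cast hN)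
      rwa [div_lt_iff₀ hcn] at h2
    have h3 : ‖(N : ℂ) * c‖ ≤ ‖2 + (N : ℂ) * c‖ + ‖(2 : ℂ)‖ := by
      have := norm_sub_le (2 + (N : ℂ) * c) 2
      simpa using this
    rw [norm_mul, Complex.norm_natCast, Complex.norm_two] at h3
    linarith
  obtain ⟨t₀, ht₀, -⟩ := key N₀ (hadm N₀ le_rfl)
  have hN₀pos : (N₀ : ℂ) ≠ 0 := by
    intro h0
    have h1 := hadm N₀ le_rfl
    rw [h0, zero_mul, add_zero, Complex.norm_two] at h1
    exact lt_irrefl _ h1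
  have hcL : c ∈ algebraicClosure K ℂ := by
    have h1 : c = ((N₀ : ℂ))⁻¹ * ((t₀ : ℂ) - 2) := by
      rw [ht₀]
      field_simp
      ring
    rw [h1]
    refine mul_mem (inv_mem (natCast_mem _ _)) (sub_mem t₀.2 (ofNat_mem _ _))
  set cL : algebraicClosure K ℂ := ⟨c, hcL⟩ with hcLdef
  have hbound : ∀ N : ℕ, N₀ ≤ N → ‖2 + (N : ℂ) * τ cL‖ ≤ 2 * (3 + N * ‖c‖) ^ k := by
    intro N hN
    obtain ⟨t, ht, ht2⟩ := key N (hadm N hN)
    have h1 : t = 2 + (N : algebraicClosure K ℂ) * cL := by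
      apply Subtype.ext
      rw [ht]
      simp only [hcLdef]
      rfl
    rw [h1, map_add, map_mul, map_natCast, map_ofNat] at ht2
    refine ht2.trans ?_
    have h2 : (‖2 + (N : ℂ) * c‖ + 1) ^ k ≤ (3 + N * ‖c‖) ^ k := by
      apply Real.rpow_le_rpow (by positivity) _ hk0
      have := norm_add_le (2 : ℂ) ((N : ℂ) * c)
      rw [norm_mul, Complex.norm_natCast, Complex.norm_two] at this
      linarith
    linarith
  have hτc : τ cL ≠ 0 := by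
    rw [ne_eq, map_eq_zero]
    intro h0
    apply hc
    exact congrArg Subtype.val h0
  have hτcn : 0 < ‖τ cL‖ := norm_pos_iff.2 hτc
  obtain ⟨N, hN, hlt⟩ := not_le_rpow hτcn hcn.le hk0 hk1 N₀
  have h1 := hbound N hN
  have h2 : ‖(N : ℂ) * τ cL‖ ≤ ‖2 + (N : ℂ) * τ cL‖ + ‖(2 : ℂ)‖ := by
    have := norm_sub_le (2 + (N : ℂ) * τ cL) 2
    simpa using this
  rw [norm_mul, Complex.norm_natCast, Complex.norm_two] at h2
  linarith

/-- trace form of the contraction hypothesis for a subgroup of `SL(2, ℂ)`: all traces lie in `K`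
and `|σ(tr g)| ≤ C (1 + |tr g|)^k` -/
def TraceContracts (Γ : Subgroup (GL (Fin 2) ℂ)) (K : Subfield ℂ) (σ : K →+* ℂ) (C k : ℝ) :
    Prop :=
  ∀ g ∈ Γ, (g : Matrix (Fin 2) (Fin 2) ℂ).det = 1 ∧ ∃ a : K,
    (a : ℂ) = (g : Matrix (Fin 2) (Fin 2) ℂ).trace ∧
      ‖σ a‖ ≤ C * (1 + ‖(g : Matrix (Fin 2) (Fin 2) ℂ).trace‖) ^ k

theorem eig_eq {g : GL (Fin 2) ℂ} (hdet : (g : Matrix (Fin 2) (Fin 2) ℂ).det = 1) {z : ℂ}
    (hz : z ∈ spectrum ℂ (g : Matrix (Fin 2) (Fin 2) ℂ)) :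
    z ≠ 0 ∧ (g : Matrix (Fin 2) (Fin 2) ℂ).trace = z + z⁻¹ := by
  rw [Matrix.mem_spectrum_iff_isRoot_charpoly, Matrix.charpoly_fin_two, hdet] at hz
  simp only [Polynomial.IsRoot.def, eval_add, eval_sub, eval_pow, eval_X, eval_mul, eval_C] at hz
  have hz0 : z ≠ 0 := by
    rintro rfl
    simp at hz
  refine ⟨hz0, ?_⟩
  field_simp
  linear_combination -hz

/-- the base-growth comparison: `x^n ≤ C y^n + 1` for all `n` with `y ≥ 1` implies `x ≤ y` -/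
theorem le_of_pow_le {x y C : ℝ} (hx : 0 ≤ x) (hy : 1 ≤ y) (_ : 0 ≤ C)
    (h : ∀ n : ℕ, x ^ n ≤ C * y ^ n + 1) : x ≤ y := by
  have hy0 : 0 < y := by linarith
  have h1 : x / y ≤ 1 := by
    refine norm_le_one_of_pow_le (B := C + 1) (by positivity) ?_
    intro n
    rw [div_pow, div_le_iff₀ (by positivity)]
    have := h n
    have h2 : 1 ≤ y ^ n := one_le_pow₀ hy
    nlinarith
  rwa [div_le_one hy0] at h1

theorem TraceContracts.eig {Γ : Subgroup (GL (Fin 2) ℂ)} {K : Subfield ℂ} {σ : K →+* ℂ}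
    {C k : ℝ} (hk0 : 0 ≤ k) (h : TraceContracts Γ K σ C k) (τ : algebraicClosure K ℂ →+* ℂ)
    (hτ : ∀ a : K, τ (algebraMap K (algebraicClosure K ℂ) a) = σ a)
    {g : GL (Fin 2) ℂ} (hg : g ∈ Γ) {z : ℂ}
    (hz : z ∈ spectrum ℂ (g : Matrix (Fin 2) (Fin 2) ℂ)) :
    ∃ y : algebraicClosure K ℂ, (y : ℂ) = z ∧ MM (τ y) ≤ MM z ^ k := by
  obtain ⟨hdet, a, ha, hC⟩ := h g hg
  obtain ⟨hz0, htr⟩ := eig_eq hdet hz
  have hzL : z ∈ algebraicClosure K ℂ := by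
    rw [mem_algebraicClosure_iff]
    refine ⟨X ^ 2 - Polynomial.C a * X + 1, ?_, ?_⟩
    · intro h0
      have := congrArg (fun p : K[X] => p.coeff 0) h0
      simp at this
    · have h1 : (z : ℂ) ^ 2 - a * z + 1 = 0 := by
        rw [ha, htr]
        field_simp
        ring
      rw [map_add, map_sub, map_mul, map_pow, aeval_X, aeval_C, map_one]
      exact h1
  refine ⟨⟨z, hzL⟩, rfl, ?_⟩
  set zL : algebraicClosure K ℂ := ⟨z, hzL⟩ with hzLdef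
  have hzL0 : zL ≠ 0 := by
    intro h0
    exact hz0 (congrArg Subtype.val h0)
  have hτz0 : τ zL ≠ 0 := by
    rwa [ne_eq, map_eq_zero]
  have hM1 : 1 ≤ MM z ^ k := Real.one_le_rpow (one_le_MM hz0) hk0
  refine le_of_pow_le (zero_le_one.trans (one_le_MM hτz0)) hM1 (C := |C| * 3 ^ k) (by positivity) ?_
  intro n
  -- apply the hypothesis to g ^ n
  obtain ⟨hdetn, b, hb, hCn⟩ := h (g ^ n) (Γ.pow_mem hg n)
  have hzn : z ^ n ∈ spectrum ℂ ((g ^ n : GL (Fin 2) ℂ) : Matrix (Fin 2) (Fin 2) ℂ) := by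
    rw [Units.val_pow_eq_pow_val]
    exact spectrum.pow_mem_pow _ n hz
  obtain ⟨hzn0, htrn⟩ := eig_eq hdetn hzn
  rw [htrn] at hb hCn
  have hσb : σ b = τ zL ^ n + (τ zL ^ n)⁻¹ := by
    rw [← hτ b, ← map_pow, ← map_inv₀, ← map_add]
    congr 1
    apply Subtype.ext
    change (b : ℂ) = _
    rw [hb]
    simp [hzLdef]
  have h1 : MM (τ zL) ^ n ≤ ‖σ b‖ + 1 := by
    rw [← MM_pow, hσb]
    exact MM_le (pow_ne_zero n hτz0)
  have h2 : (1 + ‖z ^ n + (z ^ n)⁻¹‖) ^ k ≤ 3 ^ k * (MM z ^ k) ^ n := by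
    have h3 : 1 + ‖z ^ n + (z ^ n)⁻¹‖ ≤ 3 * MM z ^ n := by
      have h4 := norm_add_inv_le (z := z ^ n)
      have h5 := one_le_MM hzn0
      rw [MM_pow] at h4 h5
      linarith
    have h6 : (3 * MM z ^ n) ^ k = 3 ^ k * (MM z ^ k) ^ n := by
      rw [Real.mul_rpow (by norm_num) (pow_nonneg (zero_le_one.trans (one_le_MM hz0)) n),
        ← Real.rpow_natCast, ← Real.rpow_natCast,
        ← Real.rpow_mul (zero_le_one.trans (one_le_MM hz0)),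
        ← Real.rpow_mul (zero_le_one.trans (one_le_MM hz0)), mul_comm (n : ℝ) k]
    rw [← h6]
    exact Real.rpow_le_rpow (by positivity) h3 hk0
  have h7 : 0 ≤ (1 + ‖z ^ n + (z ^ n)⁻¹‖) ^ k := by positivity
  calc MM (τ zL) ^ n ≤ ‖σ b‖ + 1 := h1
    _ ≤ C * (1 + ‖z ^ n + (z ^ n)⁻¹‖) ^ k + 1 := by linarith
    _ ≤ |C| * (1 + ‖z ^ n + (z ^ n)⁻¹‖) ^ k + 1 := by
      have := mul_le_mul_of_nonneg_right (le_abs_self C) h7
      linarith
    _ ≤ |C| * (3 ^ k * (MM z ^ k) ^ n) + 1 := by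
      have := mul_le_mul_of_nonneg_left h2 (abs_nonneg C)
      linarith
    _ = |C| * 3 ^ k * (MM z ^ k) ^ n + 1 := by ring

/-- the character values of `g ∈ SL(2)` are the powers of one eigenvalue -/
theorem charValues_sl2 {g : GL (Fin 2) ℂ} (hdet : (g : Matrix (Fin 2) (Fin 2) ℂ).det = 1) :
    ∃ z : ℂˣ, (z : ℂ) ∈ spectrum ℂ (g : Matrix (Fin 2) (Fin 2) ℂ) ∧
      charValues g ≤ Subgroup.zpowers z := by
  obtain ⟨z, hz⟩ : (spectrum ℂ (g : Matrix (Fin 2) (Fin 2) ℂ)).Nonempty :=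
    spectrum.nonempty_of_isAlgClosed_of_finiteDimensional ℂ _
  obtain ⟨hz0, htr⟩ := eig_eq hdet hz
  refine ⟨Units.mk0 z hz0, hz, ?_⟩
  rw [charValues, Subgroup.closure_le]
  intro x hx
  obtain ⟨hx0, htrx⟩ := eig_eq hdet hx
  have h1 : ((x : ℂ) - z) * ((x : ℂ) - z⁻¹) = 0 := by
    have h2 : z + z⁻¹ = (x : ℂ) + (x : ℂ)⁻¹ := by rw [← htr, htrx]
    have h3 : (x : ℂ) * (x : ℂ)⁻¹ = 1 := mul_inv_cancel₀ hx0
    have h4 : z * z⁻¹ = 1 := mul_inv_cancel₀ hz0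
    linear_combination (-(x : ℂ)) * h2 - h3 + h4
  rcases mul_eq_zero.1 h1 with h2 | h2
  · have : x = Units.mk0 z hz0 := Units.ext (sub_eq_zero.1 h2)
    rw [this]
    exact Subgroup.mem_zpowers _
  · have : x = (Units.mk0 z hz0)⁻¹ := Units.ext (by rw [sub_eq_zero.1 h2]; simp)
    rw [this]
    exact Subgroup.inv_mem _ (Subgroup.mem_zpowers _)

theorem TraceContracts.contracts {Γ : Subgroup (GL (Fin 2) ℂ)} {K : Subfield ℂ} {σ : K →+* ℂ}
    {C k : ℝ} (hk0 : 0 ≤ k) (h : TraceContracts Γ K σ C k) (τ : algebraicClosure K ℂ →+* ℂ)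
    (hτ : ∀ a : K, τ (algebraMap K (algebraicClosure K ℂ) a) = σ a) : Contracts Γ K τ k := by
  intro g hg x hx
  obtain ⟨z, hz, hcv⟩ := charValues_sl2 (h g hg).1
  obtain ⟨j, rfl⟩ := Subgroup.mem_zpowers_iff.1 (hcv hx)
  obtain ⟨y, hy, hy1⟩ := h.eig hk0 τ hτ hg hz
  refine ⟨y ^ j, ?_, ?_⟩
  · rw [Units.val_zpow_eq_zpow_val, ← hy]
    exact map_zpow₀ (algebraMap (algebraicClosure K ℂ) ℂ) y j
  · have hM0 : 0 ≤ MM (z : ℂ) := zero_le_one.trans (one_le_MM z.ne_zero)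
    have hy0 : 0 ≤ MM (τ y) := by
      unfold MM
      exact (norm_nonneg _).trans (le_max_left _ _)
    rw [map_zpow₀, MM_zpow, Units.val_zpow_eq_zpow_val, MM_zpow, ← Real.rpow_natCast (MM (z : ℂ)),
      ← Real.rpow_mul hM0, mul_comm, Real.rpow_mul hM0, Real.rpow_natCast]
    exact pow_le_pow_left₀ hy0 hy1 _

end Pool.Agent.H79.WC
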