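import Pool.Agent.H79.WC.CoreB

set_option autoImplicit false

open Polynomial Matrix

namespace Pool.Agent.H79.WC

/-- `Γ` acts irreducibly on `ℂ^n` -/
def Irr {n : ℕ} (Γ : Subgroup (GL (Fin n) ℂ)) : Prop :=
  ∀ W : Submodule ℂ (Fin n → ℂ),
    (∀ g ∈ Γ, ∀ x ∈ W, (g : Matrix (Fin n) (Fin n) ℂ) *ᵥ x ∈ W) → W = ⊥ ∨ W = ⊤

/-- `Γ` preserves a nondegenerate bilinear form or a nondegenerate sesquilinear form on `ℂ^n` -/
def PreservesForm {n : ℕ} (Γ : Subgroup (GL (Fin n) ℂ)) : Prop :=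
  ∃ J : Matrix (Fin n) (Fin n) ℂ, J.det ≠ 0 ∧
    ((∀ g ∈ Γ, (g : Matrix (Fin n) (Fin n) ℂ)ᵀ * J * (g : Matrix (Fin n) (Fin n) ℂ) = J) ∨
      ∀ g ∈ Γ, (g : Matrix (Fin n) (Fin n) ℂ)ᴴ * J * (g : Matrix (Fin n) (Fin n) ℂ) = J)

/-- `u` is a unipotent matrix with `u - 1` of rank one: `u = 1 + a ⊗ α` with nonzero vectors
`a, α` such that `α(a) = 0` -/
def IsRankOneUnipotent {n : ℕ} (u : GL (Fin n) ℂ) : Prop :=
  ∃ a α : Fin n → ℂ, a ≠ 0 ∧ α ≠ 0 ∧ α ⬝ᵥ a = 0 ∧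
    (u : Matrix (Fin n) (Fin n) ℂ) = 1 + Matrix.vecMulVec a α

theorem conj_facts {n : ℕ} (g : GL (Fin n) ℂ) (a α : Fin n → ℂ) (hαa : α ⬝ᵥ a = 0) :
    let G := (g : Matrix (Fin n) (Fin n) ℂ)
    let G' := ((g⁻¹ : GL (Fin n) ℂ) : Matrix (Fin n) (Fin n) ℂ)
    let A := Matrix.vecMulVec a α
    let B := G * A * G'
    A * A = 0 ∧ B * B = 0 ∧ A * B * A = ((α ⬝ᵥ (G *ᵥ a)) * (α ⬝ᵥ (G' *ᵥ a))) • A ∧
      B * A * B = ((α ⬝ᵥ (G *ᵥ a)) * (α ⬝ᵥ (G' *ᵥ a))) • B := by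
  intro G G' A B
  have hG : G' * G = 1 := by
    change ((g⁻¹ : GL (Fin n) ℂ) : Matrix (Fin n) (Fin n) ℂ) * (g : Matrix (Fin n) (Fin n) ℂ) = 1
    rw [← Units.val_mul, inv_mul_cancel, Units.val_one]
  have hAXA : ∀ X : Matrix (Fin n) (Fin n) ℂ, A * X * A = (α ⬝ᵥ (X *ᵥ a)) • A := by
    intro X
    ext i j
    simp only [A, Matrix.mul_apply, Matrix.vecMulVec_apply, Matrix.smul_apply, smul_eq_mul,
      dotProduct, Matrix.mulVec, Finset.sum_mul, Finset.mul_sum]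
    rw [Finset.sum_comm]
    refine Finset.sum_congr rfl fun k _ => Finset.sum_congr rfl fun l _ => ?_
    ring
  have hA : A * A = 0 := by
    have := hAXA 1
    rwa [mul_one, Matrix.one_mulVec, hαa, zero_smul] at this
  have hAGA := hAXA G
  have hAG'A := hAXA G'
  refine ⟨hA, ?_, ?_, ?_⟩
  · calc B * B = G * A * (G' * G) * A * G' := by simp only [B, mul_assoc]
      _ = G * (A * A) * G' := by rw [hG, mul_one, mul_assoc G A A]
      _ = 0 := by rw [hA, mul_zero, zero_mul]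
  · calc A * B * A = (A * G * A) * G' * A := by simp only [B, mul_assoc]
      _ = (α ⬝ᵥ (G *ᵥ a)) • (A * G' * A) := by rw [hAGA, smul_mul_assoc, smul_mul_assoc]
      _ = _ := by rw [hAG'A, smul_smul]
  · calc B * A * B = G * ((A * G' * A) * G * A) * G' := by simp only [B, mul_assoc]
      _ = G * ((α ⬝ᵥ (G' *ᵥ a)) • (A * G * A)) * G' := by rw [hAG'A, smul_mul_assoc, smul_mul_assoc]
      _ = ((α ⬝ᵥ (G' *ᵥ a)) * (α ⬝ᵥ (G *ᵥ a))) • (G * A * G') := by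
        rw [hAGA, smul_smul, mul_smul_comm, smul_mul_assoc]
      _ = _ := by rw [mul_comm (α ⬝ᵥ (G' *ᵥ a))]

theorem prop_of_entries {n : ℕ} {α α' β β' : Fin n → ℂ} {s : ℂ} (hα' : α' ≠ 0)
    (h : ∀ j k, α' j * β k + β' j * α k + s * (α' j * α k) = 0) : ∃ κ : ℂ, β = κ • α := by
  obtain ⟨i, hi⟩ := Function.ne_iff.1 hα'
  refine ⟨-((β' i + s * α' i) / α' i), ?_⟩
  funext k
  have h1 := h i k
  have hi' : α' i ≠ 0 := hi
  simp only [Pi.smul_apply, smul_eq_mul]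
  field_simp
  linear_combination h1

theorem prop_of_entries' {n : ℕ} {α α' β β' : Fin n → ℂ} {s : ℂ} (hα : α ≠ 0)
    (h : ∀ j k, α' j * β k + β' j * α k + s * (α' j * α k) = 0) : ∃ κ : ℂ, β' = κ • α' := by
  obtain ⟨i, hi⟩ := Function.ne_iff.1 hα
  refine ⟨-((β i + s * α i) / α i), ?_⟩
  funext k
  have h1 := h k i
  have hi' : α i ≠ 0 := hi
  simp only [Pi.smul_apply, smul_eq_mul]
  field_simp
  linear_combination h1

/-- for a rank one unipotent `u = 1 + a ⊗ α` of a group preserving a form,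
`α (g a) = 0` implies `α (g⁻¹ a) = 0` -/
theorem form_symm {n : ℕ} {Γ : Subgroup (GL (Fin n) ℂ)} (hform : PreservesForm Γ)
    {u : GL (Fin n) ℂ} (hu : u ∈ Γ) {a α : Fin n → ℂ} (ha : a ≠ 0) (hα : α ≠ 0)
    (hua : (u : Matrix (Fin n) (Fin n) ℂ) = 1 + Matrix.vecMulVec a α) {g : GL (Fin n) ℂ}
    (hg : g ∈ Γ) (h0 : α ⬝ᵥ ((g : Matrix (Fin n) (Fin n) ℂ) *ᵥ a) = 0) :
    α ⬝ᵥ (((g⁻¹ : GL (Fin n) ℂ) : Matrix (Fin n) (Fin n) ℂ) *ᵥ a) = 0 := by
  obtain ⟨J, hJ, hcase⟩ := hform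
  set G := (g : Matrix (Fin n) (Fin n) ℂ) with hG
  set G' := ((g⁻¹ : GL (Fin n) ℂ) : Matrix (Fin n) (Fin n) ℂ) with hG'
  have hGG : G * G' = 1 := by
    rw [hG, hG', ← Units.val_mul, mul_inv_cancel, Units.val_one]
  have hJu : IsUnit J.det := hJ.isUnit
  rcases hcase with hc | hc
  · have h1 := hc u hu
    rw [hua] at h1
    have h2 : (Matrix.vecMulVec a α)ᵀ * J + J * Matrix.vecMulVec a α +
        (Matrix.vecMulVec a α)ᵀ * J * Matrix.vecMulVec a α = 0 := by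
      rw [Matrix.transpose_add, Matrix.transpose_one, add_mul, one_mul, mul_add, mul_one,
        add_mul] at h1
      rw [← sub_eq_zero] at h1
      rw [← h1]
      abel
    have h3 : ∀ j k, α j * (a ᵥ* J) k + (J *ᵥ a) j * α k + (a ⬝ᵥ (J *ᵥ a)) * (α j * α k) = 0 := by
      intro j k
      have h4 := congrFun (congrFun h2 j) k
      rw [Matrix.transpose_vecMulVec, Matrix.vecMulVec_mul, Matrix.mul_vecMulVec,
        Matrix.vecMulVec_mul_vecMulVec, ← Matrix.dotProduct_mulVec] at h4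
      simp only [Matrix.add_apply, Matrix.vecMulVec_apply, Matrix.smul_apply, Matrix.zero_apply,
        smul_eq_mul, Pi.smul_apply] at h4
      linear_combination h4
    obtain ⟨κ, hκ⟩ := prop_of_entries hα h3
    obtain ⟨κ', hκ'⟩ := prop_of_entries' hα h3
    have hκ0 : κ ≠ 0 := by
      rintro rfl
      rw [zero_smul] at hκ
      have h5 : (a ᵥ* J) ᵥ* J⁻¹ = a := by
        rw [Matrix.vecMul_vecMul, Matrix.mul_nonsing_inv _ hJu, Matrix.vecMul_one]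
      rw [hκ, Matrix.zero_vecMul] at h5
      exact ha h5.symm
    have h6 : κ * (α ⬝ᵥ (G' *ᵥ a)) = κ' * (α ⬝ᵥ (G *ᵥ a)) := by
      have h7 : J * G' = Gᵀ * J := by
        have h8 := hc g hg
        rw [← hG] at h8
        calc J * G' = Gᵀ * J * G * G' := by rw [h8]
          _ = Gᵀ * J := by rw [mul_assoc, hGG, mul_one]
      calc κ * (α ⬝ᵥ (G' *ᵥ a)) = (κ • α) ⬝ᵥ (G' *ᵥ a) := by rw [smul_dotProduct, smul_eq_mul]
        _ = (a ᵥ* J) ⬝ᵥ (G' *ᵥ a) := by rw [hκ]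
        _ = a ⬝ᵥ ((J * G') *ᵥ a) := by rw [← Matrix.dotProduct_mulVec, Matrix.mulVec_mulVec]
        _ = a ⬝ᵥ ((Gᵀ * J) *ᵥ a) := by rw [h7]
        _ = (G *ᵥ a) ⬝ᵥ (J *ᵥ a) := by
          rw [← Matrix.mulVec_mulVec, Matrix.dotProduct_mulVec, Matrix.vecMul_transpose]
        _ = κ' * (α ⬝ᵥ (G *ᵥ a)) := by
          rw [hκ', dotProduct_smul, smul_eq_mul, dotProduct_comm]
    rw [h0, mul_zero] at h6
    exact (mul_eq_zero.1 h6).resolve_left hκ0
  · have h1 := hc u hu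
    rw [hua] at h1
    have h2 : (Matrix.vecMulVec a α)ᴴ * J + J * Matrix.vecMulVec a α +
        (Matrix.vecMulVec a α)ᴴ * J * Matrix.vecMulVec a α = 0 := by
      rw [Matrix.conjTranspose_add, Matrix.conjTranspose_one, add_mul, one_mul, mul_add, mul_one,
        add_mul] at h1
      rw [← sub_eq_zero] at h1
      rw [← h1]
      abel
    have h3 : ∀ j k, (star α) j * (star a ᵥ* J) k + (J *ᵥ a) j * α k +
        (star a ⬝ᵥ (J *ᵥ a)) * ((star α) j * α k) = 0 := by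
      intro j k
      have h4 := congrFun (congrFun h2 j) k
      rw [Matrix.conjTranspose_vecMulVec, Matrix.vecMulVec_mul, Matrix.mul_vecMulVec,
        Matrix.vecMulVec_mul_vecMulVec, ← Matrix.dotProduct_mulVec] at h4
      simp only [Matrix.add_apply, Matrix.vecMulVec_apply, Matrix.smul_apply, Matrix.zero_apply,
        smul_eq_mul, Pi.smul_apply] at h4
      linear_combination h4
    have hα' : star α ≠ 0 := by
      intro h
      exact hα (star_eq_zero.1 h)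
    obtain ⟨κ, hκ⟩ := prop_of_entries hα' h3
    obtain ⟨κ', hκ'⟩ := prop_of_entries' hα h3
    have hκ0 : κ ≠ 0 := by
      rintro rfl
      rw [zero_smul] at hκ
      have h5 : (star a ᵥ* J) ᵥ* J⁻¹ = star a := by
        rw [Matrix.vecMul_vecMul, Matrix.mul_nonsing_inv _ hJu, Matrix.vecMul_one]
      rw [hκ, Matrix.zero_vecMul] at h5
      exact ha (star_eq_zero.1 h5.symm)
    have h6 : κ * (α ⬝ᵥ (G' *ᵥ a)) = κ' * star (α ⬝ᵥ (G *ᵥ a)) := by
      have h7 : J * G' = Gᴴ * J := by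
        have h8 := hc g hg
        rw [← hG] at h8
        calc J * G' = Gᴴ * J * G * G' := by rw [h8]
          _ = Gᴴ * J := by rw [mul_assoc, hGG, mul_one]
      calc κ * (α ⬝ᵥ (G' *ᵥ a)) = (κ • α) ⬝ᵥ (G' *ᵥ a) := by rw [smul_dotProduct, smul_eq_mul]
        _ = (star a ᵥ* J) ⬝ᵥ (G' *ᵥ a) := by rw [hκ]
        _ = star a ⬝ᵥ ((J * G') *ᵥ a) := by rw [← Matrix.dotProduct_mulVec, Matrix.mulVec_mulVec]
        _ = star a ⬝ᵥ ((Gᴴ * J) *ᵥ a) := by rw [h7]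
        _ = (star (G *ᵥ a)) ⬝ᵥ (J *ᵥ a) := by
          rw [← Matrix.mulVec_mulVec, Matrix.dotProduct_mulVec, Matrix.star_mulVec]
        _ = κ' * star (α ⬝ᵥ (G *ᵥ a)) := by
          rw [hκ', dotProduct_smul, smul_eq_mul, Matrix.star_dotProduct_star]
          
    rw [h0, star_zero, mul_zero] at h6
    exact (mul_eq_zero.1 h6).resolve_left hκ0

/-- an irreducible group `Γ` with a form, a rank one unipotent `u = 1 + a ⊗ α ∈ Γ`: some
`g ∈ Γ` has `α(g a) α(g⁻¹ a) ≠ 0` -/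
theorem exists_pair {n : ℕ} {Γ : Subgroup (GL (Fin n) ℂ)} (hform : PreservesForm Γ)
    (hirr : Irr Γ) {u : GL (Fin n) ℂ} (hu : u ∈ Γ) {a α : Fin n → ℂ} (ha : a ≠ 0) (hα : α ≠ 0)
    (hua : (u : Matrix (Fin n) (Fin n) ℂ) = 1 + Matrix.vecMulVec a α) :
    ∃ g ∈ Γ, (α ⬝ᵥ ((g : Matrix (Fin n) (Fin n) ℂ) *ᵥ a)) *
      (α ⬝ᵥ (((g⁻¹ : GL (Fin n) ℂ) : Matrix (Fin n) (Fin n) ℂ) *ᵥ a)) ≠ 0 := by
  by_contra hcon
  push Not at hcon
  have h1 : ∀ g ∈ Γ, α ⬝ᵥ ((g : Matrix (Fin n) (Fin n) ℂ) *ᵥ a) = 0 := by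
    intro g hg
    rcases mul_eq_zero.1 (hcon g hg) with h | h
    · exact h
    · have := form_symm hform hu ha hα hua (Γ.inv_mem hg) h
      rwa [inv_inv] at this
  let W : Submodule ℂ (Fin n → ℂ) :=
    { carrier := {x | ∀ g ∈ Γ, α ⬝ᵥ ((g : Matrix (Fin n) (Fin n) ℂ) *ᵥ x) = 0}
      add_mem' := by
        intro x y hx hy g hg
        rw [Matrix.mulVec_add, dotProduct_add, hx g hg, hy g hg, add_zero]
      zero_mem' := by
        intro g _
        simp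
      smul_mem' := by
        intro c x hx g hg
        rw [Matrix.mulVec_smul, dotProduct_smul, hx g hg, smul_zero] }
  have hW := hirr W (by
    intro g hg x hx h hh
    rw [Matrix.mulVec_mulVec, ← Units.val_mul]
    exact hx (h * g) (Γ.mul_mem hh hg))
  rcases hW with h | h
  · have h2 : a ∈ W := h1
    rw [h] at h2
    exact ha ((Submodule.mem_bot ℂ).1 h2)
  · apply hα
    funext i
    have h2 : (Pi.single i (1 : ℂ) : Fin n → ℂ) ∈ W := by
      rw [h]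
      exact Submodule.mem_top
    have h3 := h2 1 Γ.one_mem
    rw [Units.val_one, Matrix.one_mulVec, dotProduct_single, mul_one] at h3
    exact h3

end Pool.Agent.H79.WC
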