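import Pool.Agent.H79.WC.ParInst

set_option autoImplicit false

open Matrix
open scoped commutatorElement

namespace Pool.Agent.H79.WC

/-- the group `SL₂(ℂ)` -/
abbrev SL2 := Matrix.SpecialLinearGroup (Fin 2) ℂ

/-- the matrix of an element of `SL₂(ℂ)` -/
def mt (g : SL2) : Matrix (Fin 2) (Fin 2) ℂ := g.1

theorem mt_mul (g h : SL2) : mt (g * h) = mt g * mt h := rfl
theorem mt_one : mt 1 = 1 := rfl
theorem mt_inv (g : SL2) : mt g⁻¹ = (mt g).adjugate := Matrix.SpecialLinearGroup.coe_inv g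
theorem mt_det (g : SL2) : (mt g).det = 1 := g.2

/-- the subgroup of Hamiltonian elements -/
def Par.sub (p : Par) : Subgroup SL2 where
  carrier := {g | p.H (mt g)}
  mul_mem' := fun {a b} ha hb => by
    change p.H (mt (a * b))
    rw [mt_mul]
    exact Par.H.mul ha hb
  one_mem' := by
    change p.H (mt 1)
    rw [mt_one]
    exact Par.H.one
  inv_mem' := fun {a} ha => by
    change p.H (mt a⁻¹)
    rw [mt_inv]
    exact Par.H.adj ha

theorem Par.mem_sub {p : Par} {g : SL2} : g ∈ p.sub ↔ p.H (mt g) := Iff.rfl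

section handle

variable (a b : SL2)

noncomputable def cM : Matrix (Fin 2) (Fin 2) ℂ := mt ⁅a, b⁆
noncomputable def pM : Matrix (Fin 2) (Fin 2) ℂ := mt a⁻¹ * (cM a b - 1)
noncomputable def tM : ℂ := (mt a⁻¹).trace / 2
noncomputable def qM : Matrix (Fin 2) (Fin 2) ℂ := mt a⁻¹ - tM a • 1
noncomputable def qM' : Matrix (Fin 2) (Fin 2) ℂ := mt a⁻¹ * cM a b - tM a • 1
noncomputable def sM (X : Matrix (Fin 2) (Fin 2) ℂ) : Matrix (Fin 2) (Fin 2) ℂ :=
  qM' a b * X + X * qM a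
noncomputable def thM (X : Matrix (Fin 2) (Fin 2) ℂ) (κ μ : ℂ) : ℂ :=
  -(mt b * (((sM a b X).det)⁻¹ • (sM a b X).adjugate) * qM' a b).trace /
      (2 * (qM' a b).det) * κ * μ

theorem ac_eq : mt a⁻¹ * cM a b = mt b * mt a⁻¹ * mt b⁻¹ := by
  rw [cM, ← mt_mul, ← mt_mul, ← mt_mul]
  congr 1
  rw [commutatorElement_def]
  group

theorem trace_conj (b : SL2) (M : Matrix (Fin 2) (Fin 2) ℂ) :
    (mt b * M * mt b⁻¹).trace = M.trace := by
  rw [Matrix.trace_mul_comm, ← mul_assoc, ← mt_mul, inv_mul_cancel, mt_one, one_mul]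

theorem trace_pM : (pM a b).trace = 0 := by
  rw [pM, mul_sub, Matrix.trace_sub, mul_one, ac_eq, trace_conj, sub_self]

theorem trace_smul_one (t : ℂ) : (t • (1 : Matrix (Fin 2) (Fin 2) ℂ)).trace = 2 * t := by
  rw [Matrix.trace_smul, Matrix.trace_one, Fintype.card_fin, smul_eq_mul]
  push_cast
  ring

theorem trace_qM : (qM a).trace = 0 := by
  rw [qM, Matrix.trace_sub, trace_smul_one, tM]
  ring

theorem trace_qM' : (qM' a b).trace = 0 := by
  rw [qM', Matrix.trace_sub, trace_smul_one, ac_eq, trace_conj, tM]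
  ring

theorem qM'_eq : qM' a b = mt b * qM a * mt b⁻¹ := by
  rw [qM', ac_eq, qM, mul_sub, sub_mul]
  congr 1
  rw [mul_smul_comm, mul_one, smul_mul_assoc, ← mt_mul, mul_inv_cancel, mt_one]

theorem det_qM' : (qM' a b).det = (qM a).det := by
  rw [qM'_eq, Matrix.det_mul, Matrix.det_mul, mt_det, mt_det, one_mul, mul_one]

theorem comm_q : mt b * qM a = qM' a b * mt b := by
  rw [qM'_eq, mul_assoc _ _ (mt b), ← mt_mul, inv_mul_cancel, mt_one, mul_one]

theorem det_sub_smul (M : Matrix (Fin 2) (Fin 2) ℂ) (t : ℂ) :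
    (M - t • (1 : Matrix (Fin 2) (Fin 2) ℂ)).det = M.det - t * M.trace + t ^ 2 := by
  simp only [Matrix.det_fin_two, Matrix.trace_fin_two, Matrix.sub_apply, Matrix.smul_apply,
    Matrix.one_apply, smul_eq_mul]
  simp
  ring

theorem trace_mt_inv : (mt a⁻¹).trace = (mt a).trace := by
  rw [mt_inv, Matrix.adjugate_fin_two, Matrix.trace_fin_two, Matrix.trace_fin_two]
  simp
  ring

theorem det_qM_ne (h : (mt a).trace ^ 2 ≠ 4) : (qM a).det ≠ 0 := by
  rw [qM, det_sub_smul, mt_det, tM, trace_mt_inv]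
  intro h0
  apply h
  linear_combination -4 * h0

theorem det_cM_ne (h : (mt ⁅a, b⁆).trace ≠ 2) : (cM a b - 1).det ≠ 0 := by
  have h1 : cM a b - 1 = cM a b - (1 : ℂ) • (1 : Matrix (Fin 2) (Fin 2) ℂ) := by rw [one_smul]
  rw [h1, det_sub_smul, cM, mt_det]
  intro h0
  apply h
  linear_combination -h0

theorem exists_X (h : (mt a).trace ^ 2 ≠ 4) : ∃ X, Univ X ∧ (sM a b X).det ≠ 0 := by
  have h1 := det_qM_ne a h
  refine exists_univ (m := (qM a).det) (b := mt b) h1 ?_ (mt_det b) (comm_q a b)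
  rw [← det_qM' a b]
  exact sq_of_traceless (trace_qM' a b)

theorem last_handle {p : Par} (hc : p.H (cM a b)) {ν κ μ : ℂ} {X : Matrix (Fin 2) (Fin 2) ℂ}
    (hν : ν ^ 2 = (cM a b - 1).det) (hν0 : (cM a b - 1).det ≠ 0) (hX : Univ X)
    (hm : (qM a).det ≠ 0) (hs : (sM a b X).det ≠ 0) (hκ : κ ^ 2 = (sM a b X).det)
    (hμ : μ ^ 2 = (qM a).det) (h2 : x2 (pM a b) / ν ∈ p.SmJ) (h3 : x3 (pM a b) / ν ∈ p.SmJ)
    (hθ : thM a b X κ μ ∈ p.SmR) : p.H (mt a) ∧ p.H (mt b) := by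
  have ha' : p.H (mt a⁻¹) :=
    Par.H.of_first hc hν hν0 (mt_det _) (trace_pM a b) h2 h3
  have ha : p.H (mt a) := by
    have := p.sub.inv_mem (Par.mem_sub.2 ha')
    rwa [inv_inv] at this
  have ht : tM a ∈ p.R := by
    rw [tM]
    exact div_mem ha'.trace_mem (ofNat_mem _ 2)
  have hq : p.H (qM a) := ha'.sub (Par.H.one.smul ht)
  have hq' : p.H (qM' a b) := (ha'.mul hc).sub (Par.H.one.smul ht)
  exact ⟨ha, Par.H.of_second hq hq' hX (trace_qM a) (trace_qM' a b) (det_qM' a b) hm (mt_det b)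
    (comm_q a b) hs hκ hμ hθ⟩

/-- converse direction: the parameters are in the field generated by the matrices -/
theorem params_mem {L : IntermediateField ℚ ℂ} (hL : ∀ z : ℂ, z ^ 2 ∈ L → z ∈ L)
    (ha : (parMem L hL).H (mt a)) (hb : (parMem L hL).H (mt b)) {ν κ μ : ℂ}
    {X : Matrix (Fin 2) (Fin 2) ℂ} (hν : ν ^ 2 = (cM a b - 1).det) (hX : Univ X)
    (hκ : κ ^ 2 = (sM a b X).det) (hμ : μ ^ 2 = (qM a).det) :
    x2 (pM a b) / ν ∈ L ∧ x3 (pM a b) / ν ∈ L ∧ thM a b X κ μ ∈ L := by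
  set p := parMem L hL with hp
  have ha1 : a ∈ p.sub := ha
  have hb1 : b ∈ p.sub := hb
  have ha' : p.H (mt a⁻¹) := p.sub.inv_mem ha1
  have hc : p.H (cM a b) := by
    have : ⁅a, b⁆ ∈ p.sub := by
      rw [commutatorElement_def]
      exact p.sub.mul_mem (p.sub.mul_mem (p.sub.mul_mem ha1 hb1) (p.sub.inv_mem ha1))
        (p.sub.inv_mem hb1)
    exact this
  have hc1 : p.H (cM a b - 1) := hc.sub Par.H.one
  have hpM : p.H (pM a b) := ha'.mul hc1
  have ht : tM a ∈ p.R := by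
    rw [tM]
    exact div_mem ha'.trace_mem (ofNat_mem _ 2)
  have hq : p.H (qM a) := ha'.sub (Par.H.one.smul ht)
  have hq' : p.H (qM' a b) := (ha'.mul hc).sub (Par.H.one.smul ht)
  have hs : p.H (sM a b X) := (hq'.mul (hX p)).add ((hX p).mul hq)
  have hν' : ν ∈ L := by
    apply hL
    rw [hν]
    exact hc1.det_memR
  have hκ' : κ ∈ L := by
    apply hL
    rw [hκ]
    exact hs.det_memR
  have hμ' : μ ∈ L := by
    apply hL
    rw [hμ]
    exact hq.det_memR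
  refine ⟨div_mem (show x2 (pM a b) ∈ L from hpM.h2) hν',
    div_mem (show x3 (pM a b) ∈ L from hpM.h3) hν', ?_⟩
  have h1 : (mt b * (((sM a b X).det)⁻¹ • (sM a b X).adjugate) * qM' a b).trace ∈ L :=
    ((hb.mul (hs.adj.smul (inv_mem hs.det_memR))).mul hq').trace_mem
  have h2 : (qM' a b).det ∈ L := hq'.det_memR
  rw [thM]
  exact mul_mem (mul_mem (div_mem (neg_mem h1) (mul_mem (ofNat_mem L 2) h2)) hκ') hμ'

end handle

theorem parMem_H {L : IntermediateField ℚ ℂ} {hL : ∀ z : ℂ, z ^ 2 ∈ L → z ∈ L}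
    {M : Matrix (Fin 2) (Fin 2) ℂ} : (parMem L hL).H M ↔ ∀ i j, M i j ∈ L := by
  constructor
  · rintro ⟨h0, h1, h2, h3⟩
    replace h0 : x0 M ∈ L := h0
    replace h1 : x1 M ∈ L := h1
    replace h2 : x2 M ∈ L := h2
    replace h3 : x3 M ∈ L := h3
    intro i j
    fin_cases i <;> fin_cases j
    · change M 0 0 ∈ L
      rw [entry00 M]; exact add_mem h0 h2
    · change M 0 1 ∈ L
      rw [entry01 M]; exact add_mem h1 h3
    · change M 1 0 ∈ L
      rw [entry10 M]; exact sub_mem h3 h1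
    · change M 1 1 ∈ L
      rw [entry11 M]; exact sub_mem h0 h2
  · intro h
    have h2 : (2 : ℂ) ∈ L := ofNat_mem L 2
    have e0 : x0 M ∈ L := div_mem (add_mem (h 0 0) (h 1 1)) h2
    have e1 : x1 M ∈ L := div_mem (sub_mem (h 0 1) (h 1 0)) h2
    have e2 : x2 M ∈ L := div_mem (sub_mem (h 0 0) (h 1 1)) h2
    have e3 : x3 M ∈ L := div_mem (add_mem (h 0 1) (h 1 0)) h2
    exact ⟨e0, e1, e2, e3⟩

/-- the abstract main step: small parameters make all generators Hamiltonian -/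
theorem all_handles {n : ℕ} (a b : Fin (n + 1) → SL2)
    (hrel : (List.ofFn fun i => ⁅a i, b i⁆).prod = 1) (p : Par)
    (hsa : ∀ i : Fin n, x1 (mt (a i.castSucc)) ∈ p.SmR ∧ x2 (mt (a i.castSucc)) ∈ p.SmJ ∧
      x3 (mt (a i.castSucc)) ∈ p.SmJ)
    (hsb : ∀ i : Fin n, x1 (mt (b i.castSucc)) ∈ p.SmR ∧ x2 (mt (b i.castSucc)) ∈ p.SmJ ∧
      x3 (mt (b i.castSucc)) ∈ p.SmJ) {ν κ μ : ℂ} {X : Matrix (Fin 2) (Fin 2) ℂ}
    (hν : ν ^ 2 = (cM (a (Fin.last n)) (b (Fin.last n)) - 1).det)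
    (hν0 : (cM (a (Fin.last n)) (b (Fin.last n)) - 1).det ≠ 0) (hX : Univ X)
    (hm : (qM (a (Fin.last n))).det ≠ 0) (hs : (sM (a (Fin.last n)) (b (Fin.last n)) X).det ≠ 0)
    (hκ : κ ^ 2 = (sM (a (Fin.last n)) (b (Fin.last n)) X).det)
    (hμ : μ ^ 2 = (qM (a (Fin.last n))).det)
    (h2 : x2 (pM (a (Fin.last n)) (b (Fin.last n))) / ν ∈ p.SmJ)
    (h3 : x3 (pM (a (Fin.last n)) (b (Fin.last n))) / ν ∈ p.SmJ)
    (hθ : thM (a (Fin.last n)) (b (Fin.last n)) X κ μ ∈ p.SmR) :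
    ∀ i, p.H (mt (a i)) ∧ p.H (mt (b i)) := by
  have h1 : ∀ i : Fin n, a i.castSucc ∈ p.sub ∧ b i.castSucc ∈ p.sub := by
    intro i
    obtain ⟨u1, u2, u3⟩ := hsa i
    obtain ⟨v1, v2, v3⟩ := hsb i
    exact ⟨Par.H.of_small (mt_det _) u1 u2 u3, Par.H.of_small (mt_det _) v1 v2 v3⟩
  have hc : ⁅a (Fin.last n), b (Fin.last n)⁆ ∈ p.sub := by
    rw [List.ofFn_succ', List.prod_concat] at hrel
    have h4 : ⁅a (Fin.last n), b (Fin.last n)⁆ =
        ((List.ofFn fun i : Fin n => ⁅a i.castSucc, b i.castSucc⁆).prod)⁻¹ := by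
      rw [eq_inv_iff_mul_eq_one]
      exact mul_eq_one_comm.1 hrel
    rw [h4]
    apply p.sub.inv_mem
    apply Subgroup.list_prod_mem
    intro x hx
    rw [List.mem_ofFn] at hx
    obtain ⟨i, rfl⟩ := hx
    rw [commutatorElement_def]
    exact p.sub.mul_mem (p.sub.mul_mem (p.sub.mul_mem (h1 i).1 (h1 i).2) (p.sub.inv_mem (h1 i).1))
      (p.sub.inv_mem (h1 i).2)
  have hlast := last_handle (a (Fin.last n)) (b (Fin.last n)) hc hν hν0 hX hm hs hκ hμ h2 h3 hθ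
  intro i
  induction i using Fin.lastCases with
  | last => exact hlast
  | cast i => exact h1 i

end Pool.Agent.H79.WC
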