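import Pool.Agent.H79.WC.Handle

set_option autoImplicit false

open Matrix Set Cardinal
open scoped commutatorElement

namespace Pool.Agent.H79.WC


theorem exists_root (t : ℂ) (ht : t ^ 2 ≠ 4) : ∃ l l' : ℂ, l + l' = t ∧ l * l' = 1 ∧ l ≠ l' := by
  obtain ⟨d, hd⟩ := IsAlgClosed.exists_pow_nat_eq (t ^ 2 - 4) two_pos
  refine ⟨(t + d) / 2, (t - d) / 2, by ring, ?_, ?_⟩
  · linear_combination -(1 / 4) * hd
  · intro h
    have h0 : d = 0 := by linear_combination h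
    apply ht
    rw [h0] at hd
    linear_combination -hd

theorem det_sub_eq_zero (a : SL2) {l l' : ℂ} (h1 : l + l' = (mt a).trace) (h2 : l * l' = 1) :
    (mt a - l • (1 : Matrix (Fin 2) (Fin 2) ℂ)).det = 0 := by
  rw [det_sub_smul, mt_det]
  linear_combination (l) * h1 - h2

/-- the matrix of a group element given by its entries -/
def mk2 (p q r s : ℂ) (h : p * s - q * r = 1) : SL2 :=
  ⟨!![p, q; r, s], by rw [Matrix.det_fin_two_of]; exact h⟩

theorem mt_conj (k a : SL2) (i j : Fin 2) : mt (k⁻¹ * a * k) i j =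
    ((mt k).adjugate i 0 * mt a 0 0 + (mt k).adjugate i 1 * mt a 1 0) * mt k 0 j +
    ((mt k).adjugate i 0 * mt a 0 1 + (mt k).adjugate i 1 * mt a 1 1) * mt k 1 j := by
  rw [mt_mul, mt_mul, mt_inv, Matrix.mul_apply, Fin.sum_univ_two, Matrix.mul_apply,
    Matrix.mul_apply, Fin.sum_univ_two, Fin.sum_univ_two]

theorem exists_diag (a : SL2) (ha : (mt a).trace ^ 2 ≠ 4) :
    ∃ k : SL2, mt (k⁻¹ * a * k) 0 1 = 0 ∧ mt (k⁻¹ * a * k) 1 0 = 0 := by
  obtain ⟨l, l', h1, h2, h3⟩ := exists_root _ ha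
  obtain ⟨v, hv0, hv⟩ := Matrix.exists_mulVec_eq_zero_iff.2 (det_sub_eq_zero a h1 h2)
  obtain ⟨w, hw0, hw⟩ := Matrix.exists_mulVec_eq_zero_iff.2
    (det_sub_eq_zero a (l := l') (l' := l) (by rw [add_comm]; exact h1) (by rw [mul_comm]; exact h2))
  have e0 := congrFun hv 0
  have e1 := congrFun hv 1
  have f0 := congrFun hw 0
  have f1 := congrFun hw 1
  simp only [Matrix.mulVec, dotProduct, Fin.sum_univ_two, Matrix.sub_apply, Matrix.smul_apply,
    Matrix.one_apply, smul_eq_mul, Pi.zero_apply] at e0 e1 f0 f1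
  simp at e0 e1 f0 f1
  set p := mt a 0 0 with hp
  set q := mt a 0 1 with hq
  set r := mt a 1 0 with hr
  set s := mt a 1 1 with hs
  have hl : l' - l ≠ 0 := sub_ne_zero.2 (Ne.symm h3)
  have hδ : v 0 * w 1 - w 0 * v 1 ≠ 0 := by
    intro hδ
    have g0 : v 0 * w 0 = 0 := by
      apply (mul_eq_zero.1 (_ : (l' - l) * (v 0 * w 0) = 0)).resolve_left hl
      linear_combination w 0 * e0 - v 0 * f0 + q * hδ
    have g1 : v 1 * w 1 = 0 := by
      apply (mul_eq_zero.1 (_ : (l' - l) * (v 1 * w 1) = 0)).resolve_left hl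
      linear_combination w 1 * e1 - v 1 * f1 - r * hδ
    have g2 : v 0 * w 1 = 0 := by
      apply (mul_eq_zero.1 (_ : (l' - l) * (v 0 * w 1) = 0)).resolve_left hl
      linear_combination w 1 * e0 - v 1 * f0 - (p - l') * hδ
    have g3 : v 1 * w 0 = 0 := by linear_combination g2 - hδ
    by_cases hv1 : v 0 = 0
    · have hv2 : v 1 ≠ 0 := by
        intro h
        apply hv0
        ext i
        fin_cases i
        · exact hv1
        · exact h
      apply hw0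
      ext i
      fin_cases i
      · exact (mul_eq_zero.1 g3).resolve_left hv2
      · exact (mul_eq_zero.1 g1).resolve_left hv2
    · apply hw0
      ext i
      fin_cases i
      · exact (mul_eq_zero.1 g0).resolve_left hv1
      · exact (mul_eq_zero.1 g2).resolve_left hv1
  set δ := v 0 * w 1 - w 0 * v 1 with hδdef
  have hdet : (v 0 / δ) * w 1 - w 0 * (v 1 / δ) = 1 := by
    field_simp
    rw [hδdef]
  refine ⟨mk2 (v 0 / δ) (w 0) (v 1 / δ) (w 1) hdet, ?_, ?_⟩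
  · rw [mt_conj, Matrix.adjugate_fin_two]
    simp only [mt, mk2]
    simp
    change (w 1 * p + -(w 0 * r)) * w 0 + (w 1 * q + -(w 0 * s)) * w 1 = 0
    linear_combination w 1 * f0 - w 0 * f1
  · rw [mt_conj, Matrix.adjugate_fin_two]
    simp only [mt, mk2]
    simp
    change (-(v 1 / δ * p) + v 0 / δ * r) * (v 0 / δ) + (-(v 1 / δ * q) + v 0 / δ * s) * (v 1 / δ) = 0
    field_simp
    linear_combination v 0 * e1 - v 1 * e0

theorem trace_comm (a b : SL2) (h01 : mt a 0 1 = 0) (h10 : mt a 1 0 = 0) :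
    (mt ⁅a, b⁆).trace = 2 - (mt a 0 0 - mt a 1 1) ^ 2 * (mt b 0 1 * mt b 1 0) := by
  have ha := mt_det a
  have hb := mt_det b
  rw [Matrix.det_fin_two, h01, h10] at ha
  rw [Matrix.det_fin_two] at hb
  rw [commutatorElement_def, mt_mul, mt_mul, mt_mul, mt_inv, mt_inv, Matrix.adjugate_fin_two,
    Matrix.adjugate_fin_two, Matrix.trace_fin_two]
  simp only [Matrix.mul_apply, Fin.sum_univ_two, Matrix.cons_val', Matrix.cons_val_zero,
    Matrix.cons_val_one, Matrix.of_apply, h01, h10]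
  simp
  linear_combination (2 * mt b 0 0 * mt b 1 1 - 2 * mt b 0 1 * mt b 1 0) * ha + 2 * hb

theorem exists_normal (a b : SL2) (ha : (mt a).trace ^ 2 ≠ 4) (hc : (mt ⁅a, b⁆).trace ≠ 2) :
    ∃ k : SL2, x1 (mt (k⁻¹ * a * k)) = 0 ∧ x3 (mt (k⁻¹ * a * k)) = 0 ∧
      x1 (mt (k⁻¹ * b * k)) = 0 := by
  obtain ⟨k, h01, h10⟩ := exists_diag a ha
  set a' := k⁻¹ * a * k with ha'
  set b' := k⁻¹ * b * k with hb'
  have hcomm : (mt ⁅a', b'⁆).trace = (mt ⁅a, b⁆).trace := by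
    have h1 : ⁅a', b'⁆ = k⁻¹ * ⁅a, b⁆ * k := by
      rw [ha', hb', commutatorElement_def, commutatorElement_def]
      group
    rw [h1]
    have h2 := trace_conj k⁻¹ (mt ⁅a, b⁆)
    rw [inv_inv] at h2
    exact h2
  rw [← hcomm, trace_comm a' b' h01 h10] at hc
  have hq : mt b' 0 1 ≠ 0 := by
    intro h
    apply hc
    rw [h]
    ring
  have hr : mt b' 1 0 ≠ 0 := by
    intro h
    apply hc
    rw [h]
    ring
  obtain ⟨t, ht⟩ := IsAlgClosed.exists_pow_nat_eq (mt b' 0 1 / mt b' 1 0) (n := 4) (by norm_num)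
  have ht0 : t ≠ 0 := by
    rintro rfl
    have : mt b' 0 1 / mt b' 1 0 ≠ 0 := div_ne_zero hq hr
    apply this
    rw [← ht]
    simp
  have hdet : t * t⁻¹ - 0 * 0 = 1 := by field_simp; ring
  set d := mk2 t 0 0 t⁻¹ hdet with hd
  refine ⟨k * d, ?_, ?_, ?_⟩
  · have h1 : (k * d)⁻¹ * a * (k * d) = d⁻¹ * a' * d := by rw [ha']; group
    rw [h1, x1, mt_conj d a' 0 1, mt_conj d a' 1 0, h01, h10, Matrix.adjugate_fin_two]
    simp [mt, hd, mk2]
  · have h1 : (k * d)⁻¹ * a * (k * d) = d⁻¹ * a' * d := by rw [ha']; group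
    rw [h1, x3, mt_conj d a' 0 1, mt_conj d a' 1 0, h01, h10, Matrix.adjugate_fin_two]
    simp [mt, hd, mk2]
  · have h1 : (k * d)⁻¹ * b * (k * d) = d⁻¹ * b' * d := by rw [hb']; group
    rw [h1, x1, mt_conj d b' 0 1, mt_conj d b' 1 0, Matrix.adjugate_fin_two]
    simp only [mt, hd, mk2]
    simp
    change t⁻¹ * mt b' 0 1 * t⁻¹ - t * mt b' 1 0 * t = 0
    have ht2 : t ^ 4 * mt b' 1 0 = mt b' 0 1 := by
      rw [ht]
      exact div_mul_cancel₀ _ hr
    have e1 : t * t⁻¹ = 1 := mul_inv_cancel₀ ht0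
    linear_combination (-(t⁻¹) ^ 2) * ht2 + (mt b' 1 0 * t ^ 2 * (t * t⁻¹ + 1)) * e1

end Pool.Agent.H79.WC
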