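import Pool.Agent.H79.WC.CoreC

set_option autoImplicit false

open Polynomial Matrix

namespace Pool.Agent.H79.WC

section field

variable (F : Type*) [NontriviallyNormedField F] [CompleteSpace F] [IsUltrametricDist F]

/-- the extension of the absolute value of `F` to the algebraic closure -/
theorem exists_norm : ∃ N : AlgebraicClosure F → ℝ,
    (∀ x y, N (x * y) = N x * N y) ∧ (∀ x y, N (x + y) ≤ max (N x) (N y)) ∧
    (∀ a : F, N (algebraMap F (AlgebraicClosure F) a) = ‖a‖) ∧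
    (∀ (φ : Gal(AlgebraicClosure F/F)) (x), N (φ x) = N x) ∧ (∀ x, x ≠ 0 → 0 < N x) ∧
    ∀ x, 0 ≤ N x := by
  refine ⟨spectralNorm F (AlgebraicClosure F), ?_, ?_, ?_, ?_, ?_, ?_⟩
  · intro x y
    exact spectralAlgNorm_mul x y
  · intro x y
    exact isNonarchimedean_spectralNorm x y
  · intro a
    exact spectralNorm_extends a
  · intro φ x
    exact (spectralNorm_eq_of_equiv φ x).symm
  · intro x hx
    exact spectralNorm_zero_lt hx (Algebra.IsAlgebraic.isAlgebraic x)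
  · intro x
    exact spectralNorm_nonneg x

variable {F}

/-- square roots near `4` -/
theorem exists_sqrt {x : F} (h2 : (2 : F) ≠ 0) (hx : ‖x‖ < ‖(16 : F)‖) : ∃ r : F, r ^ 2 = 4 + x := by
  have h16 : ‖(16 : F)‖ = ‖(2 : F)‖ ^ 4 := by
    rw [← norm_pow]
    norm_num
  have h8 : ‖(8 : F)‖ = ‖(2 : F)‖ ^ 3 := by
    rw [← norm_pow]
    norm_num
  have h2n : 0 < ‖(2 : F)‖ := norm_pos_iff.2 h2
  have h80 : (8 : F) ≠ 0 := by
    rw [← norm_pos_iff, h8]
    positivity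
  set a : F := x / 8 with ha
  set ρ : ℝ := ‖a‖ with hρ
  have hρ2 : ρ < ‖(2 : F)‖ := by
    rw [hρ, ha, norm_div, h8, div_lt_iff₀ (by positivity)]
    calc ‖x‖ < ‖(16 : F)‖ := hx
      _ = ‖(2 : F)‖ * ‖(2 : F)‖ ^ 3 := by rw [h16]; ring
  set q : ℝ := ρ / ‖(2 : F)‖ with hq
  have hq0 : 0 ≤ q := div_nonneg (norm_nonneg _) h2n.le
  have hq1 : q < 1 := (div_lt_one h2n).2 hρ2
  let f : F → F := fun w => a - w ^ 2 / 2
  have hf : ∀ w : F, ‖w‖ ≤ ρ → ‖f w‖ ≤ ρ := by
    intro w hw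
    have h1 : ‖a - w ^ 2 / 2‖ ≤ max ‖a‖ ‖w ^ 2 / 2‖ := by
      rw [sub_eq_add_neg, ← norm_neg (w ^ 2 / 2)]
      exact IsUltrametricDist.norm_add_le_max _ _
    refine h1.trans (max_le le_rfl ?_)
    rw [norm_div, norm_pow, div_le_iff₀ h2n]
    have h3 := norm_nonneg w
    nlinarith
  have hcontr : ∀ w w' : F, ‖w‖ ≤ ρ → ‖w'‖ ≤ ρ → ‖f w - f w'‖ ≤ q * ‖w - w'‖ := by
    intro w w' hw hw'
    have h1 : f w - f w' = (w' + w) * (w' - w) / 2 := by
      simp only [f]
      field_simp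
      ring
    rw [h1, norm_div, norm_mul, norm_sub_rev w' w, hq, div_mul_eq_mul_div]
    apply div_le_div_of_nonneg_right _ h2n.le
    apply mul_le_mul_of_nonneg_right _ (norm_nonneg _)
    exact (IsUltrametricDist.norm_add_le_max _ _).trans (max_le hw' hw)
  let w : ℕ → F := fun n => f^[n] 0
  have hw : ∀ n, ‖w n‖ ≤ ρ := by
    intro n
    induction n with
    | zero => simp [w, hρ]
    | succ k ih =>
      change ‖f^[k + 1] 0‖ ≤ ρ
      rw [Function.iterate_succ_apply']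
      exact hf _ ih
  have hstep : ∀ n, w (n + 1) = f (w n) := by
    intro n
    change f^[n + 1] 0 = f (f^[n] 0)
    rw [Function.iterate_succ_apply']
  have hdist : ∀ n, dist (w n) (w (n + 1)) ≤ ρ * q ^ n := by
    intro n
    induction n with
    | zero =>
      rw [dist_eq_norm, hstep, pow_zero, mul_one]
      have : w 0 = 0 := rfl
      rw [this, zero_sub, norm_neg]
      exact hf 0 (by rw [norm_zero]; exact norm_nonneg _)
    | succ k ih =>
      rw [dist_eq_norm, hstep k, hstep (k + 1)]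
      have h1 := hcontr (w k) (w (k + 1)) (hw _) (hw _)
      rw [hstep k] at h1 ⊢
      rw [dist_eq_norm, hstep k] at ih
      refine h1.trans ?_
      rw [pow_succ]
      nlinarith
  have hc : CauchySeq w := cauchySeq_of_le_geometric q ρ hq1 hdist
  obtain ⟨l, hl⟩ := cauchySeq_tendsto_of_complete hc
  have hl2 : Filter.Tendsto (fun n => w (n + 1)) Filter.atTop (nhds l) :=
    hl.comp (Filter.tendsto_add_atTop_nat 1)
  have hfc : Continuous f := by
    simp only [f]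
    fun_prop
  have hl3 : Filter.Tendsto (fun n => w (n + 1)) Filter.atTop (nhds (f l)) := by
    have h1 : (fun n => w (n + 1)) = fun n => f (w n) := funext hstep
    rw [h1]
    exact (hfc.tendsto l).comp hl
  have hfix : f l = l := tendsto_nhds_unique hl3 hl2
  refine ⟨2 * (1 + l), ?_⟩
  have h3 : a - l ^ 2 / 2 = l := hfix
  have h4 : x = 8 * a := by
    rw [ha]
    field_simp
  have h5 : 2 * a = l ^ 2 + 2 * l := by
    have h6 : a = l + l ^ 2 / 2 := by linear_combination h3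
    rw [h6]
    field_simp
    ring
  rw [h4]
  linear_combination (-4) * h5

end field

/-- roots of unity close to `1` are `1` -/
theorem root_of_unity_close {Ω : Type*} [Field Ω] {N : Ω → ℝ} (hmul : ∀ x y, N (x * y) = N x * N y)
    (hadd : ∀ x y, N (x + y) ≤ max (N x) (N y)) (hpos : ∀ x, x ≠ 0 → 0 < N x) (hN1 : N 1 = 1)
    (hneg : ∀ x, N (-x) = N x) {p : ℕ} (hp : p.Prime) (hp1 : N (p : Ω) < 1)
    {ρ : Ω} {j : ℕ} (hj : 0 < j) (hρ : ρ ^ j = 1) (hclose : N (ρ - 1) < N (p : Ω)) : ρ = 1 := by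
  by_contra hne
  have h0 : ∀ x, 0 ≤ N x := by
    intro x
    by_cases hx : x = 0
    · have h1 := hmul 0 0
      rw [mul_zero] at h1
      have h2 := hadd 0 0
      rw [hx]
      nlinarith [sq_nonneg (N 0), sq_nonneg (N 0 - 1)]
    · exact (hpos x hx).le
  have hN0 : N 0 = 0 := by
    have h1 := hmul 0 (p : Ω)
    rw [zero_mul] at h1
    have h2 := h0 0
    nlinarith
  have hsum : ∀ (s : Finset ℕ) (f : ℕ → Ω) (B : ℝ), 0 ≤ B → (∀ i ∈ s, N (f i) ≤ B) →
      N (∑ i ∈ s, f i) ≤ B := by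
    intro s f B hB hf
    classical
    induction s using Finset.induction_on with
    | empty => simpa [hN0] using hB
    | insert a s ha ih =>
      rw [Finset.sum_insert ha]
      refine (hadd _ _).trans (max_le (hf a (Finset.mem_insert_self _ _)) ?_)
      exact ih fun i hi => hf i (Finset.mem_insert_of_mem hi)
  have hpow : ∀ (x : Ω) (n : ℕ), N (x ^ n) = N x ^ n := by
    intro x n
    induction n with
    | zero => simp [hN1]
    | succ k ih => rw [pow_succ, hmul, ih, pow_succ]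
  have hNρ : N ρ = 1 := by
    have h1 := hpow ρ j
    rw [hρ, hN1] at h1
    exact (pow_eq_one_iff_of_nonneg (h0 ρ) hj.ne').1 h1.symm
  -- `N (ρ^k - 1) ≤ N (ρ - 1)`
  have hk : ∀ k : ℕ, N (ρ ^ k - 1) ≤ N (ρ - 1) := by
    intro k
    rw [← mul_geom_sum ρ k, hmul]
    have h1 : N (∑ i ∈ Finset.range k, ρ ^ i) ≤ 1 := by
      refine hsum _ _ 1 zero_le_one fun i _ => ?_
      rw [hpow, hNρ, one_pow]
    calc N (ρ - 1) * N (∑ i ∈ Finset.range k, ρ ^ i) ≤ N (ρ - 1) * 1 :=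
          mul_le_mul_of_nonneg_left h1 (h0 _)
      _ = N (ρ - 1) := mul_one _
  -- an element of prime order
  have hfin : IsOfFinOrder ρ := isOfFinOrder_iff_pow_eq_one.2 ⟨j, hj, hρ⟩
  have hord : orderOf ρ ≠ 1 := by
    intro h
    exact hne (orderOf_eq_one_iff.1 h)
  obtain ⟨ℓ, hℓ, hdvd⟩ := Nat.exists_prime_and_dvd hord
  obtain ⟨m, hm⟩ := hdvd
  have hordpos : 0 < orderOf ρ := hfin.orderOf_pos
  have hm0 : m ≠ 0 := by
    rintro rfl
    rw [mul_zero] at hm
    omega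
  set θ : Ω := ρ ^ m with hθ
  have hθℓ : θ ^ ℓ = 1 := by
    rw [hθ, ← pow_mul, mul_comm, ← hm, pow_orderOf_eq_one]
  have hθ1 : θ ≠ 1 := by
    intro h
    have h1 : orderOf ρ ∣ m := orderOf_dvd_of_pow_eq_one h
    have h2 := Nat.le_of_dvd (Nat.pos_of_ne_zero hm0) h1
    rw [hm] at h2
    have h3 := hℓ.two_le
    nlinarith [Nat.pos_of_ne_zero hm0]
  have hgeom : ∑ i ∈ Finset.range ℓ, θ ^ i = 0 := by
    have h1 := mul_geom_sum θ ℓ
    rw [hθℓ, sub_self] at h1
    exact (mul_eq_zero.1 h1).resolve_left (sub_ne_zero.2 hθ1)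
  have hℓeq : (ℓ : Ω) = ∑ i ∈ Finset.range ℓ, (1 - θ ^ i) := by
    rw [Finset.sum_sub_distrib, hgeom, sub_zero]
    simp
  have hℓle : N (ℓ : Ω) ≤ N (ρ - 1) := by
    rw [hℓeq]
    refine hsum _ _ _ (h0 _) fun i _ => ?_
    rw [← neg_sub, hneg, hθ, ← pow_mul]
    exact hk _
  have hint : ∀ z : ℤ, N (z : Ω) ≤ 1 := by
    have hnat : ∀ n : ℕ, N (n : Ω) ≤ 1 := by
      intro n
      induction n with
      | zero => simp [hN0]
      | succ k ih =>
        rw [Nat.cast_succ]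
        exact (hadd _ _).trans (max_le ih hN1.le)
    intro z
    obtain ⟨n, rfl | rfl⟩ := z.eq_nat_or_neg
    · rw [Int.cast_natCast]
      exact hnat n
    · rw [Int.cast_neg, hneg, Int.cast_natCast]
      exact hnat n
  by_cases hpℓ : ℓ = p
  · rw [hpℓ] at hℓle
    linarith
  · have hcop : IsCoprime (ℓ : ℤ) (p : ℤ) :=
      Nat.isCoprime_iff_coprime.2 ((Nat.coprime_primes hℓ hp).2 hpℓ)
    obtain ⟨a, b, hab⟩ := hcop
    have h1 : (a : Ω) * (ℓ : Ω) + (b : Ω) * (p : Ω) = 1 := by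
      exact_mod_cast congrArg (Int.cast : ℤ → Ω) hab
    have h2 : (1 : ℝ) ≤ max (N (a * ℓ : Ω)) (N (b * p : Ω)) := by
      rw [← hN1, ← h1]
      exact hadd _ _
    rw [hmul, hmul] at h2
    have ha := hint a
    have hb := hint b
    have h3 : N (a : Ω) * N (ℓ : Ω) < 1 := by
      have h4 : N (ℓ : Ω) < 1 := hℓle.trans_lt (hclose.trans hp1)
      nlinarith [h0 (a : Ω), h0 (ℓ : Ω)]
    have h5 : N (b : Ω) * N (p : Ω) < 1 := by
      nlinarith [h0 (b : Ω), h0 (p : Ω)]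
    exact absurd (max_lt h3 h5) (not_lt.2 h2)

/-- if `ζ + 1/ζ = 2 + e` with `N e < 1` then `N (ζ - 1)^2 = N e` and `N ζ = 1` -/
theorem close_of_trace {Ω : Type*} [Field Ω] {N : Ω → ℝ} (hmul : ∀ x y, N (x * y) = N x * N y)
    (hadd : ∀ x y, N (x + y) ≤ max (N x) (N y)) (h0 : ∀ x, 0 ≤ N x) (hN1 : N 1 = 1)
    (hneg : ∀ x, N (-x) = N x) {ζ e : Ω} (hζ : ζ ≠ 0) (h : ζ + ζ⁻¹ = 2 + e) (he : N e < 1) :
    N ζ = 1 ∧ N (ζ - 1) ^ 2 = N e := by
  have h1 : (ζ - 1) * (ζ - 1) = ζ * e := by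
    have h2 : ζ * (ζ + ζ⁻¹) = ζ * (2 + e) := by rw [h]
    rw [mul_add, mul_inv_cancel₀ hζ] at h2
    linear_combination h2
  have h2 : N (ζ - 1) * N (ζ - 1) = N ζ * N e := by rw [← hmul, h1, hmul]
  have hle1 : N ζ ≤ max (N (ζ - 1)) 1 := by
    have := hadd (ζ - 1) 1
    rwa [sub_add_cancel, hN1] at this
  have hle2 : 1 ≤ max (N (ζ - 1)) (N ζ) := by
    have := hadd (-(ζ - 1)) ζ
    rw [hneg] at this
    have h3 : -(ζ - 1) + ζ = 1 := by ring
    rwa [h3, hN1] at this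
  have hN : N ζ = 1 := by
    rcases lt_trichotomy (N ζ) 1 with h3 | h3 | h3
    · exfalso
      have h4 : 1 ≤ N (ζ - 1) := by
        rcases le_max_iff.1 hle2 with h5 | h5
        · exact h5
        · linarith
      nlinarith [h0 ζ, h0 e]
    · exact h3
    · exfalso
      have h4 : N ζ ≤ N (ζ - 1) := by
        rcases le_max_iff.1 hle1 with h5 | h5
        · exact h5
        · linarith
      nlinarith [h0 ζ, h0 e]
  refine ⟨hN, ?_⟩
  rw [hN, one_mul] at h2
  rw [pow_two, h2]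

end Pool.Agent.H79.WC
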