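import Pool.Agent.H79.WC.PAux

set_option autoImplicit false

open Polynomial Matrix

namespace Pool.Agent.H79.WC

/-- `Γ ≤ SL(2, ℂ)`, its traces lie in `K`, and no element of `Γ` becomes split over `F` through
`σ : K → F`: for no `g ∈ Γ` is `σ(tr g)^2 - 4` a nonzero square in `F` -/
def NonSplit {F : Type*} [Field F] (Γ : Subgroup (GL (Fin 2) ℂ)) (K : Subfield ℂ)
    (σ : K →+* F) : Prop :=
  ∀ g ∈ Γ, (g : Matrix (Fin 2) (Fin 2) ℂ).det = 1 ∧ ∃ a : K,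
    (a : ℂ) = (g : Matrix (Fin 2) (Fin 2) ℂ).trace ∧ ∀ s : F, s ^ 2 = σ a ^ 2 - 4 → s = 0

theorem wc_facts {n : ℕ} {Γ₁ : Subgroup (GL (Fin 2) ℂ)} {Γ₂ : Subgroup (GL (Fin n) ℂ)}
    (hdet : ∀ g ∈ Γ₁, (g : Matrix (Fin 2) (Fin 2) ℂ).det = 1) (hWC : WCInto Γ₂ Γ₁)
    {u v : GL (Fin n) ℂ} (hu : u ∈ Γ₂) (hv : v ∈ Γ₂) {A B : Matrix (Fin n) (Fin n) ℂ}
    (huA : (u : Matrix (Fin n) (Fin n) ℂ) = 1 + A) (hvB : (v : Matrix (Fin n) (Fin n) ℂ) = 1 + B)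
    (hA : A * A = 0) (hB : B * B = 0) (hA0 : A ≠ 0) {c : ℂ} (hc : c ≠ 0)
    (hABA : A * B * A = c • A) (hBAB : B * A * B = c • B) (N : ℕ)
    (hN : 2 < ‖2 + (N : ℂ) * c‖) :
    ∃ z : ℂˣ, ‖(z : ℂ)‖ ≠ 1 ∧ 2 + (N : ℂ) * c = (z : ℂ) + (z : ℂ)⁻¹ ∧ ∃ g ∈ Γ₁, ∃ y : ℂˣ,
      (y : ℂ) ∈ spectrum ℂ (g : Matrix (Fin 2) (Fin 2) ℂ) ∧ ∃ i j : ℤ, j ≠ 0 ∧ z ^ j = y ^ i := by
  obtain ⟨z, hz, hz1⟩ := exists_eig hN
  set w : GL (Fin n) ℂ := u ^ N * v with hw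
  have hwM : (w : Matrix (Fin n) (Fin n) ℂ) = (1 + (N : ℂ) • A) * (1 + B) := by
    rw [hw, Units.val_mul, Units.val_pow_eq_pow_val, huA, hvB, one_add_pow_of_sq_zero hA]
  have hw1 : w ≠ 1 := by
    intro h1
    apply word_ne_one hA hABA hc hA0 (N : ℂ) (B := B)
    rw [← hwM, h1, Units.val_one]
  have hcub := word_cubic hA hB hABA hBAB (N : ℂ) _ hwM
  obtain ⟨hss, hcv⟩ := cubic_facts hz1 hz hcub hw1
  obtain ⟨g, hg, -, x, hx1, hxw, hxg⟩ := hWC w (Γ₂.mul_mem (Γ₂.pow_mem hu N) hv) hss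
  obtain ⟨j, rfl⟩ := Subgroup.mem_zpowers_iff.1 (hcv hxw)
  have hj : j ≠ 0 := by
    rintro rfl
    exact hx1 (zpow_zero z)
  obtain ⟨y, hy, hycv⟩ := charValues_sl2 (hdet g hg)
  obtain ⟨i, hi⟩ := Subgroup.mem_zpowers_iff.1 (hycv hxg)
  exact ⟨z, hz1, hz, g, hg, y, hy, i, j, hj, hi.symm⟩

/-- the image of the relation `z^j = y^i` under an extension of `σ` -/
theorem image_facts {F : Type*} [Field F] {Ω : Type*} [Field Ω] [Algebra F Ω]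
    {Γ₁ : Subgroup (GL (Fin 2) ℂ)} {K : Subfield ℂ} {σ : K →+* F} (h : NonSplit Γ₁ K σ)
    (τ : algebraicClosure K ℂ →+* Ω)
    (hτ : ∀ a : K, τ (algebraMap K (algebraicClosure K ℂ) a) = algebraMap F Ω (σ a))
    {z : ℂˣ} (hz1 : ‖(z : ℂ)‖ ≠ 1) {g : GL (Fin 2) ℂ} (hg : g ∈ Γ₁) {y : ℂˣ}
    (hy : (y : ℂ) ∈ spectrum ℂ (g : Matrix (Fin 2) (Fin 2) ℂ)) {i j : ℤ} (hj : j ≠ 0)
    (hzy : z ^ j = y ^ i) :
    ∃ (zL : algebraicClosure K ℂ) (η : Ω), (zL : ℂ) = z ∧ τ zL ≠ 0 ∧ η ≠ 0 ∧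
      (τ zL) ^ j = η ^ i ∧ ((τ zL) ^ j) ^ 2 ≠ 1 ∧
      ∃ b : F, η + η⁻¹ = algebraMap F Ω b ∧ ∀ s : F, s ^ 2 = b ^ 2 - 4 → s = 0 := by
  obtain ⟨hdet, a, ha, hns⟩ := h g hg
  obtain ⟨hy0, htr⟩ := eig_eq hdet hy
  have hyL : (y : ℂ) ∈ algebraicClosure K ℂ := by
    rw [mem_algebraicClosure_iff]
    refine ⟨X ^ 2 - Polynomial.C a * X + 1, ?_, ?_⟩
    · intro h0
      have := congrArg (fun p : K[X] => p.coeff 0) h0
      simp at this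
    · have h1 : (y : ℂ) ^ 2 - a * y + 1 = 0 := by
        rw [ha, htr]
        field_simp
        ring
      rw [map_add, map_sub, map_mul, map_pow, aeval_X, aeval_C, map_one]
      exact h1
  set yL : algebraicClosure K ℂ := ⟨y, hyL⟩ with hyLdef
  have hzL : (z : ℂ) ∈ algebraicClosure K ℂ := by
    apply mem_algClosure_of_zpow hj
    rw [hzy, Units.val_zpow_eq_zpow_val]
    exact zpow_mem hyL i
  set zL : algebraicClosure K ℂ := ⟨z, hzL⟩ with hzLdef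
  have hzL0 : zL ≠ 0 := by
    intro h0
    exact z.ne_zero (congrArg Subtype.val h0)
  have hyL0 : yL ≠ 0 := by
    intro h0
    exact y.ne_zero (congrArg Subtype.val h0)
  have hrel : zL ^ j = yL ^ i := by
    apply Subtype.ext
    have h1 := congrArg (Units.val) hzy
    rw [Units.val_zpow_eq_zpow_val, Units.val_zpow_eq_zpow_val] at h1
    have h2 := map_zpow₀ (algebraMap (algebraicClosure K ℂ) ℂ) zL j
    have h3 := map_zpow₀ (algebraMap (algebraicClosure K ℂ) ℂ) yL i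
    change (algebraMap (algebraicClosure K ℂ) ℂ) (zL ^ j) =
      (algebraMap (algebraicClosure K ℂ) ℂ) (yL ^ i)
    rw [h2, h3]
    exact h1
  refine ⟨zL, τ yL, rfl, ?_, ?_, ?_, ?_, σ a, ?_, hns⟩
  · rwa [ne_eq, map_eq_zero]
  · rwa [ne_eq, map_eq_zero]
  · rw [← map_zpow₀, hrel, map_zpow₀]
  · rw [← map_zpow₀, ← map_pow]
    intro h1
    have h2 : (zL ^ j) ^ 2 = 1 := by
      apply τ.injective
      rw [h1, map_one]
    have h3 := congrArg (algebraMap (algebraicClosure K ℂ) ℂ) h2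
    rw [map_pow, map_zpow₀, map_one] at h3
    have h4 : ((z : ℂ) ^ j) ^ 2 = 1 := h3
    apply hz1
    apply norm_eq_one_of_zpow (norm_nonneg _) hj
    have h5 := congrArg norm h4
    rw [norm_pow, norm_zpow, norm_one] at h5
    exact (pow_eq_one_iff_of_nonneg (by positivity) two_ne_zero).1 h5
  · rw [← hτ a, ← map_inv₀, ← map_add]
    congr 1
    apply Subtype.ext
    change (y : ℂ) + (y : ℂ)⁻¹ = (a : ℂ)
    rw [ha, htr]

/-- Galois action on `η` with `η + 1/η ∈ F` -/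
theorem gal_eta {F : Type*} [Field F] {Ω : Type*} [Field Ω] [Algebra F Ω] {η : Ω} (hη : η ≠ 0)
    {b : F} (hb : η + η⁻¹ = algebraMap F Ω b) (φ : Gal(Ω/F)) : φ η = η ∨ φ η = η⁻¹ := by
  have hφ0 : φ η ≠ 0 := by rwa [ne_eq, map_eq_zero]
  have h1 : φ η + (φ η)⁻¹ = η + η⁻¹ := by
    rw [← map_inv₀, ← map_add, hb, AlgEquiv.commutes]
  have h2 : (φ η - η) * (φ η - η⁻¹) = 0 := by
    have h3 : φ η * (φ η)⁻¹ = 1 := mul_inv_cancel₀ hφ0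
    have h4 : η * η⁻¹ = 1 := mul_inv_cancel₀ hη
    linear_combination (φ η) * h1 - h3 + h4
  rcases mul_eq_zero.1 h2 with h3 | h3
  · exact Or.inl (sub_eq_zero.1 h3)
  · exact Or.inr (sub_eq_zero.1 h3)

end Pool.Agent.H79.WC
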