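import Pool.Agent.H79.WC.PCore

set_option autoImplicit false

open Polynomial Matrix Filter Topology

namespace Pool.Agent.H79.WC

/-- a pair of unipotents `u = 1 + A`, `v = 1 + B` with constant `c` -/
structure Pair {n : ℕ} (Γ : Subgroup (GL (Fin n) ℂ)) (u v : GL (Fin n) ℂ)
    (A B : Matrix (Fin n) (Fin n) ℂ) (c : ℂ) : Prop where
  hu : u ∈ Γ
  hv : v ∈ Γ
  huA : (u : Matrix (Fin n) (Fin n) ℂ) = 1 + A
  hvB : (v : Matrix (Fin n) (Fin n) ℂ) = 1 + B
  hA : A * A = 0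
  hB : B * B = 0
  hA0 : A ≠ 0
  hABA : A * B * A = c • A
  hBAB : B * A * B = c • B

/-- the pair `(u⁻¹, v u v⁻¹)` has constant `c²` -/
theorem Pair.square {n : ℕ} {Γ : Subgroup (GL (Fin n) ℂ)} {u v : GL (Fin n) ℂ}
    {A B : Matrix (Fin n) (Fin n) ℂ} {c : ℂ} (h : Pair Γ u v A B c) :
    Pair Γ u⁻¹ (v * u * v⁻¹) (-A) ((1 + B) * A * (1 - B)) (c ^ 2) := by
  obtain ⟨hu, hv, huA, hvB, hA, hB, hA0, hABA, hBAB⟩ := h
  have huinv : ((u⁻¹ : GL (Fin n) ℂ) : Matrix (Fin n) (Fin n) ℂ) = 1 - A := by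
    have h1 : (u : Matrix (Fin n) (Fin n) ℂ) * (1 - A) = 1 := by
      rw [huA, add_mul, one_mul, mul_sub, mul_one, hA]
      abel
    calc ((u⁻¹ : GL (Fin n) ℂ) : Matrix (Fin n) (Fin n) ℂ)
        = ((u⁻¹ : GL (Fin n) ℂ) : Matrix (Fin n) (Fin n) ℂ) *
          ((u : Matrix (Fin n) (Fin n) ℂ) * (1 - A)) := by rw [h1, mul_one]
      _ = 1 - A := by rw [← mul_assoc, ← Units.val_mul, inv_mul_cancel, Units.val_one, one_mul]
  have hvinv : ((v⁻¹ : GL (Fin n) ℂ) : Matrix (Fin n) (Fin n) ℂ) = 1 - B := by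
    have h1 : (v : Matrix (Fin n) (Fin n) ℂ) * (1 - B) = 1 := by
      rw [hvB, add_mul, one_mul, mul_sub, mul_one, hB]
      abel
    calc ((v⁻¹ : GL (Fin n) ℂ) : Matrix (Fin n) (Fin n) ℂ)
        = ((v⁻¹ : GL (Fin n) ℂ) : Matrix (Fin n) (Fin n) ℂ) *
          ((v : Matrix (Fin n) (Fin n) ℂ) * (1 - B)) := by rw [h1, mul_one]
      _ = 1 - B := by rw [← mul_assoc, ← Units.val_mul, inv_mul_cancel, Units.val_one, one_mul]
  have hBB : (1 - B) * (1 + B) = 1 := by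
    rw [sub_mul, one_mul, mul_add, mul_one, hB]
    abel
  have hBB' : (1 + B) * (1 - B) = 1 := by
    rw [add_mul, one_mul, mul_sub, mul_one, hB]
    abel
  have e1 : A * (1 + B) * A = c • A := by
    rw [mul_add, mul_one, add_mul, hA, hABA, zero_add]
  have e2 : A * (1 - B) * A = -(c • A) := by
    rw [mul_sub, mul_one, sub_mul, hA, hABA, zero_sub]
  refine ⟨Γ.inv_mem hu, Γ.mul_mem (Γ.mul_mem hv hu) (Γ.inv_mem hv), ?_, ?_, ?_, ?_, ?_, ?_, ?_⟩
  · rw [huinv, sub_eq_add_neg]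
  · rw [Units.val_mul, Units.val_mul, hvinv, hvB, huA, mul_add, add_mul, mul_one, hBB']
  · rw [neg_mul_neg, hA]
  · calc (1 + B) * A * (1 - B) * ((1 + B) * A * (1 - B))
        = (1 + B) * (A * ((1 - B) * (1 + B)) * A) * (1 - B) := by simp only [mul_assoc]
      _ = 0 := by rw [hBB, mul_one, hA, mul_zero, zero_mul]
  · exact neg_ne_zero.2 hA0
  · calc -A * ((1 + B) * A * (1 - B)) * -A = (A * (1 + B) * A) * (1 - B) * A := by
          simp only [neg_mul, mul_neg, neg_neg, mul_assoc]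
      _ = c • (A * (1 - B) * A) := by rw [e1, smul_mul_assoc, smul_mul_assoc]
      _ = c ^ 2 • -A := by rw [e2, smul_neg, smul_smul, smul_neg, pow_two]
  · calc (1 + B) * A * (1 - B) * -A * ((1 + B) * A * (1 - B))
        = -((1 + B) * ((A * (1 - B) * A) * (1 + B) * A) * (1 - B)) := by
          simp only [neg_mul, mul_neg, mul_assoc]
      _ = c • ((1 + B) * (A * (1 + B) * A) * (1 - B)) := by
          rw [e2]
          simp only [neg_mul, mul_neg, neg_neg, smul_mul_assoc, mul_smul_comm, mul_assoc]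
      _ = c ^ 2 • ((1 + B) * A * (1 - B)) := by
          rw [e1, mul_smul_comm, smul_mul_assoc, smul_smul, pow_two]

theorem tendsto_complex {p : ℕ} (hp : 1 < p) {c : ℂ} (hc : c ≠ 0) :
    ∀ᶠ k : ℕ in atTop, 2 < ‖2 + ((p ^ k : ℕ) : ℂ) * c‖ := by
  have hcn : 0 < ‖c‖ := norm_pos_iff.2 hc
  have h1 : Tendsto (fun k : ℕ => (p : ℝ) ^ k) atTop atTop :=
    tendsto_pow_atTop_atTop_of_one_lt (by exact_mod_cast hp)
  filter_upwards [h1.eventually (eventually_gt_atTop (4 / ‖c‖))] with k hk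
  rw [div_lt_iff₀ hcn] at hk
  have h3 : ‖((p ^ k : ℕ) : ℂ) * c‖ ≤ ‖2 + ((p ^ k : ℕ) : ℂ) * c‖ + ‖(2 : ℂ)‖ := by
    have := norm_sub_le (2 + ((p ^ k : ℕ) : ℂ) * c) 2
    simpa using this
  rw [norm_mul, Complex.norm_natCast, Complex.norm_two] at h3
  have h5 : ((p ^ k : ℕ) : ℝ) = (p : ℝ) ^ k := by push_cast; rfl
  rw [h5] at h3
  linarith

theorem tendsto_small {q M ε : ℝ} (hq0 : 0 ≤ q) (hq : q < 1) (hε : 0 < ε) :
    ∀ᶠ k : ℕ in atTop, q ^ k * M < ε := by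
  have h1 : Tendsto (fun k : ℕ => q ^ k * M) atTop (𝓝 (0 * M)) :=
    (tendsto_pow_atTop_nhds_zero_of_lt_one hq0 hq).mul_const M
  rw [zero_mul] at h1
  exact h1.eventually (gt_mem_nhds hε)

theorem pow_natAbs_eq_one {Ω : Type*} [Field Ω] {ρ : Ω} {j : ℤ} (h : ρ ^ j = 1) :
    ρ ^ j.natAbs = 1 := by
  obtain ⟨n, rfl | rfl⟩ := j.eq_nat_or_neg
  · simpa using h
  · rw [_root_.zpow_neg, zpow_natCast, inv_eq_one] at h
    simpa using h

section

variable {F : Type*} [NontriviallyNormedField F] [CompleteSpace F] [IsUltrametricDist F]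
  [CharZero F]

/-- the constant of a pair is mapped into `F` -/
theorem const_in_F {p : ℕ} (hp : p.Prime) (hpF : ‖(p : F)‖ < 1)
    {Γ₁ : Subgroup (GL (Fin 2) ℂ)} {n : ℕ} {Γ₂ : Subgroup (GL (Fin n) ℂ)}
    {K : Subfield ℂ} {σ : K →+* F} (h : NonSplit Γ₁ K σ)
    (τ : algebraicClosure K ℂ →+* AlgebraicClosure F)
    (hτ : ∀ a : K, τ (algebraMap K (algebraicClosure K ℂ) a) = algebraMap F _ (σ a))
    (hWC : WCInto Γ₂ Γ₁) {u v : GL (Fin n) ℂ} {A B : Matrix (Fin n) (Fin n) ℂ} {c : ℂ}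
    (hc : c ≠ 0) (hP : Pair Γ₂ u v A B c) :
    ∃ (cL : algebraicClosure K ℂ) (C : F), (cL : ℂ) = c ∧ τ cL = algebraMap F _ C := by
  obtain ⟨N, hmul, hadd, hext, hinv, hpos, h0⟩ := exists_norm F
  have hN1 : N 1 = 1 := by
    have := hext 1
    rwa [map_one, norm_one] at this
  have hneg1 : N (-1) = 1 := by
    have h1 := hmul (-1) (-1)
    rw [neg_mul_neg, one_mul, hN1] at h1
    nlinarith [h0 (-1)]
  have hneg : ∀ x, N (-x) = N x := by
    intro x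
    rw [← neg_one_mul, hmul, hneg1, one_mul]
  have hNp : N (p : AlgebraicClosure F) = ‖(p : F)‖ := by
    have := hext (p : F)
    rwa [map_natCast] at this
  have hp0 : 0 < ‖(p : F)‖ := by
    rw [norm_pos_iff]
    exact_mod_cast hp.ne_zero
  have hNpow : ∀ (x : AlgebraicClosure F) (m : ℕ), N (x ^ m) = N x ^ m := by
    intro x m
    induction m with
    | zero => simp [hN1]
    | succ k ih => rw [pow_succ, hmul, ih, pow_succ]
  have hdet : ∀ g ∈ Γ₁, (g : Matrix (Fin 2) (Fin 2) ℂ).det = 1 := fun g hg => (h g hg).1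
  have hfacts := fun (k : ℕ) (hk : 2 < ‖2 + ((p ^ k : ℕ) : ℂ) * c‖) =>
    wc_facts hdet hWC hP.hu hP.hv hP.huA hP.hvB hP.hA hP.hB hP.hA0 hc hP.hABA hP.hBAB (p ^ k) hk
  -- first: `c` is algebraic over `K`
  obtain ⟨k₀, hk₀⟩ := (tendsto_complex hp.one_lt hc).exists
  have hcL : c ∈ algebraicClosure K ℂ := by
    obtain ⟨z, hz1, hz, g, hg, y, hy, i, j, hj, hzy⟩ := hfacts k₀ hk₀
    obtain ⟨zL, η, hzL, -⟩ := image_facts h τ hτ hz1 hg hy hj hzy
    have hpk : ((p ^ k₀ : ℕ) : ℂ) ≠ 0 := by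
      exact_mod_cast pow_ne_zero k₀ hp.ne_zero
    have h1 : c = (((p ^ k₀ : ℕ) : ℂ))⁻¹ * ((z : ℂ) + (z : ℂ)⁻¹ - 2) := by
      rw [← hz]
      field_simp
      ring
    rw [h1, ← hzL]
    exact mul_mem (inv_mem (natCast_mem _ _))
      (sub_mem (add_mem zL.2 (inv_mem zL.2)) (ofNat_mem _ _))
  set cL : algebraicClosure K ℂ := ⟨c, hcL⟩ with hcLdef
  obtain ⟨k, hk1, hk2⟩ := ((tendsto_complex hp.one_lt hc).and
    (tendsto_small (M := N (τ cL)) hp0.le hpF (ε := ‖(p : F)‖ ^ 2) (by positivity))).exists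
  obtain ⟨z, hz1, hz, g, hg, y, hy, i, j, hj, hzy⟩ := hfacts k hk1
  obtain ⟨zL, η, hzL, hζ0, hη0, hrel, hne, b, hb, hns⟩ := image_facts h τ hτ hz1 hg hy hj hzy
  set ζ := τ zL with hζdef
  set e : AlgebraicClosure F := (p : AlgebraicClosure F) ^ k * τ cL with he
  have htr : ζ + ζ⁻¹ = 2 + e := by
    rw [hζdef, he, ← map_inv₀, ← map_add]
    have h1 : zL + zL⁻¹ = 2 + (p : algebraicClosure K ℂ) ^ k * cL := by
      apply Subtype.ext
      have h2 : (z : ℂ) + (z : ℂ)⁻¹ = 2 + (p : ℂ) ^ k * c := by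
        rw [← hz]
        push_cast
        ring
      rw [← hzL] at h2
      exact h2
    rw [h1, map_add, map_mul, map_pow, map_natCast, map_ofNat]
  have hNe : N e < ‖(p : F)‖ ^ 2 := by
    rw [he, hmul, hNpow, hNp]
    exact hk2
  have hNe1 : N e < 1 := hNe.trans (pow_lt_one₀ hp0.le hpF two_ne_zero)
  obtain ⟨hNζ, hclose2⟩ := close_of_trace hmul hadd h0 hN1 hneg hζ0 htr hNe1
  have hclose : N (ζ - 1) < N (p : AlgebraicClosure F) := by
    rw [hNp]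
    rw [← hclose2] at hNe
    exact lt_of_pow_lt_pow_left₀ 2 hp0.le hNe
  have hfix : ∀ φ : Gal(AlgebraicClosure F/F), φ (ζ + ζ⁻¹) = ζ + ζ⁻¹ := by
    intro φ
    have hφ0 : φ ζ ≠ 0 := by rwa [ne_eq, map_eq_zero]
    have hφ1 : N (φ ζ - 1) = N (ζ - 1) := by
      rw [← hinv φ (ζ - 1), map_sub, map_one]
    have hNφ : N (φ ζ) = 1 := by rw [hinv, hNζ]
    have hpN : N (p : AlgebraicClosure F) < 1 := by rw [hNp]; exact hpF
    rcases gal_eta hη0 hb φ with h1 | h1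
    · have h2 : (φ ζ * ζ⁻¹) ^ j = 1 := by
        rw [mul_zpow, ← map_zpow₀, hrel, map_zpow₀, h1, _root_.inv_zpow, hrel,
          mul_inv_cancel₀ (zpow_ne_zero _ hη0)]
      have h3 : N (φ ζ * ζ⁻¹ - 1) < N (p : AlgebraicClosure F) := by
        have h4 : φ ζ * ζ⁻¹ - 1 = ((φ ζ - 1) + -(ζ - 1)) * ζ⁻¹ := by
          field_simp
          ring
        have h5 : N ζ⁻¹ = 1 := by
          have h6 := hmul ζ ζ⁻¹
          rw [mul_inv_cancel₀ hζ0, hN1, hNζ, one_mul] at h6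
          exact h6.symm
        rw [h4, hmul, h5, mul_one]
        refine (hadd _ _).trans_lt ?_
        rw [hneg, hφ1, max_self]
        exact hclose
      have h6 := root_of_unity_close hmul hadd hpos hN1 hneg hp hpN
        (Int.natAbs_pos.2 hj) (pow_natAbs_eq_one h2) h3
      have h7 : φ ζ = ζ := by
        have := mul_inv_eq_one₀ hζ0 |>.1 h6
        exact this
      rw [map_add, map_inv₀, h7]
    · have h2 : (φ ζ * ζ) ^ j = 1 := by
        rw [mul_zpow, ← map_zpow₀, hrel, map_zpow₀, h1, _root_.inv_zpow,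
          inv_mul_cancel₀ (zpow_ne_zero _ hη0)]
      have h3 : N (φ ζ * ζ - 1) < N (p : AlgebraicClosure F) := by
        have h4 : φ ζ * ζ - 1 = φ ζ * (ζ - 1) + (φ ζ - 1) := by ring
        rw [h4]
        refine (hadd _ _).trans_lt ?_
        rw [hmul, hNφ, one_mul, hφ1, max_self]
        exact hclose
      have h6 := root_of_unity_close hmul hadd hpos hN1 hneg hp hpN
        (Int.natAbs_pos.2 hj) (pow_natAbs_eq_one h2) h3
      have h7 : φ ζ = ζ⁻¹ := eq_inv_of_mul_eq_one_left h6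
      rw [map_add, map_inv₀, h7, inv_inv, add_comm]
  obtain ⟨x, hx⟩ := IntermediateField.mem_bot.1
    ((InfiniteGalois.mem_bot_iff_fixed (ζ + ζ⁻¹)).2 hfix)
  refine ⟨cL, (x - 2) / (p : F) ^ k, rfl, ?_⟩
  have hpk : (p : AlgebraicClosure F) ^ k ≠ 0 := by
    apply pow_ne_zero
    exact_mod_cast hp.ne_zero
  rw [map_div₀, map_sub, map_pow, map_natCast, map_ofNat, hx, htr, he]
  field_simp
  ring

/-- the core of the `p`-adic criterion -/
theorem core_padic {p : ℕ} (hp : p.Prime) (hpF : ‖(p : F)‖ < 1)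
    {Γ₁ : Subgroup (GL (Fin 2) ℂ)} {n : ℕ} {Γ₂ : Subgroup (GL (Fin n) ℂ)}
    {K : Subfield ℂ} {σ : K →+* F} (h : NonSplit Γ₁ K σ)
    (hWC : WCInto Γ₂ Γ₁) {u v : GL (Fin n) ℂ} {A B : Matrix (Fin n) (Fin n) ℂ} {c : ℂ}
    (hP : Pair Γ₂ u v A B c) : c = 0 := by
  by_contra hc
  obtain ⟨τ, hτ⟩ := exists_ext K ((algebraMap F (AlgebraicClosure F)).comp σ)
  have hτ' : ∀ a : K, τ (algebraMap K (algebraicClosure K ℂ) a) = algebraMap F _ (σ a) := hτ
  obtain ⟨cL, C, hcL, hτc⟩ := const_in_F hp hpF h τ hτ' hWC hc hP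
  have hP2 := hP.square
  have hc2 : c ^ 2 ≠ 0 := pow_ne_zero 2 hc
  have hp0 : 0 < ‖(p : F)‖ := by
    rw [norm_pos_iff]
    exact_mod_cast hp.ne_zero
  have hdet : ∀ g ∈ Γ₁, (g : Matrix (Fin 2) (Fin 2) ℂ).det = 1 := fun g hg => (h g hg).1
  have hev : ∀ᶠ k : ℕ in atTop, 2 < ‖2 + ((p ^ (2 * k) : ℕ) : ℂ) * c ^ 2‖ := by
    have h1 : Tendsto (fun k : ℕ => 2 * k) atTop atTop :=
      tendsto_id.const_mul_atTop' (by norm_num)
    exact h1.eventually (tendsto_complex hp.one_lt hc2)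
  have h16 : (0 : ℝ) < ‖(16 : F)‖ := by
    rw [norm_pos_iff]
    norm_num
  obtain ⟨k, hk1, hk2⟩ := (hev.and (tendsto_small (M := ‖C‖ ^ 2) (q := ‖(p : F)‖ ^ 2)
    (by positivity) (pow_lt_one₀ hp0.le hpF two_ne_zero) h16)).exists
  obtain ⟨z, hz1, hz, g, hg, y, hy, i, j, hj, hzy⟩ :=
    wc_facts hdet hWC hP2.hu hP2.hv hP2.huA hP2.hvB hP2.hA hP2.hB hP2.hA0 hc2 hP2.hABA hP2.hBAB
      (p ^ (2 * k)) hk1
  obtain ⟨zL, η, hzL, hζ0, hη0, hrel, hne, b, hb, hns⟩ := image_facts h τ hτ' hz1 hg hy hj hzy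
  set ζ := τ zL with hζdef
  set e : F := ((p : F) ^ k * C) ^ 2 with he
  have htr : ζ + ζ⁻¹ = algebraMap F _ (2 + e) := by
    rw [hζdef, ← map_inv₀, ← map_add]
    have h1 : zL + zL⁻¹ = 2 + (p : algebraicClosure K ℂ) ^ (2 * k) * cL ^ 2 := by
      apply Subtype.ext
      have h2 : (z : ℂ) + (z : ℂ)⁻¹ = 2 + (p : ℂ) ^ (2 * k) * c ^ 2 := by
        rw [← hz]
        push_cast
        ring
      rw [← hzL, ← hcL] at h2
      exact h2
    rw [h1, map_add, map_mul, map_pow, map_natCast, map_ofNat, map_pow, hτc, he]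
    rw [map_add, map_pow, map_mul, map_pow, map_natCast, map_ofNat]
    ring
  have hne16 : ‖e‖ < ‖(16 : F)‖ := by
    rw [he, norm_pow, norm_mul, norm_pow]
    calc (‖(p : F)‖ ^ k * ‖C‖) ^ 2 = (‖(p : F)‖ ^ 2) ^ k * ‖C‖ ^ 2 := by ring
      _ < ‖(16 : F)‖ := hk2
  obtain ⟨r, hr⟩ := exists_sqrt (two_ne_zero) hne16
  set s : F := (p : F) ^ k * C * r with hs
  have hs2 : s ^ 2 = (2 + e) ^ 2 - 4 := by
    rw [hs, mul_pow, hr, ← he]
    ring
  -- `ζ ∈ F`
  have hζF : ∃ f : F, ζ = algebraMap F _ f := by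
    have h1 : (2 * ζ - algebraMap F _ (2 + e) - algebraMap F _ s) *
        (2 * ζ - algebraMap F _ (2 + e) + algebraMap F _ s) = 0 := by
      have h2 : (algebraMap F (AlgebraicClosure F) s) ^ 2 =
          (algebraMap F (AlgebraicClosure F) (2 + e)) ^ 2 - 4 := by
        rw [← map_pow, hs2, map_sub, map_pow, map_ofNat]
      have h3 : ζ * ζ⁻¹ = 1 := mul_inv_cancel₀ hζ0
      rw [← htr] at h2 ⊢
      linear_combination -h2 - 4 * h3
    have h2' : (2 : AlgebraicClosure F) ≠ 0 := by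
      have : (algebraMap F (AlgebraicClosure F)) 2 ≠ 0 := by
        rw [ne_eq, map_eq_zero]
        exact two_ne_zero
      rwa [map_ofNat] at this
    rcases mul_eq_zero.1 h1 with h4 | h4
    · refine ⟨(2 + e + s) / 2, ?_⟩
      rw [map_div₀, map_add _ (2 + e) s, map_ofNat, eq_div_iff h2']
      linear_combination h4
    · refine ⟨(2 + e - s) / 2, ?_⟩
      rw [map_div₀, map_sub _ (2 + e) s, map_ofNat, eq_div_iff h2']
      linear_combination h4
  obtain ⟨f, hf⟩ := hζF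
  by_cases hall : ∀ φ : Gal(AlgebraicClosure F/F), φ η = η
  · obtain ⟨x, hx⟩ := IntermediateField.mem_bot.1
      ((InfiniteGalois.mem_bot_iff_fixed η).2 hall)
    have hx' : algebraMap F (AlgebraicClosure F) x = η := hx
    have hx0 : x ≠ 0 := by
      rintro rfl
      rw [map_zero] at hx'
      exact hη0 hx'.symm
    have hbx : b = x + x⁻¹ := by
      apply (algebraMap F (AlgebraicClosure F)).injective
      rw [← hb, map_add, map_inv₀, hx']
    have h1 := hns (x - x⁻¹) (by rw [hbx]; field_simp; ring)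
    have h2 : x ^ 2 = 1 := by
      have h3 : x = x⁻¹ := sub_eq_zero.1 h1
      calc x ^ 2 = x * x⁻¹ := by rw [← h3, pow_two]
        _ = 1 := mul_inv_cancel₀ hx0
    apply hne
    rw [hrel, ← hx', ← map_zpow₀, ← map_pow, ← zpow_natCast (x ^ i) 2, ← _root_.zpow_mul, mul_comm i,
      _root_.zpow_mul, zpow_natCast, h2, _root_.one_zpow, map_one]
  · push Not at hall
    obtain ⟨φ, hφ⟩ := hall
    have h1 : φ η = η⁻¹ := (gal_eta hη0 hb φ).resolve_left hφ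
    have h2 : φ ζ = ζ := by rw [hf, AlgEquiv.commutes]
    apply hne
    have h3 : ζ ^ j = (ζ ^ j)⁻¹ := by
      calc ζ ^ j = φ (ζ ^ j) := by rw [map_zpow₀, h2]
        _ = (η⁻¹) ^ i := by rw [hrel, map_zpow₀, h1]
        _ = (ζ ^ j)⁻¹ := by rw [_root_.inv_zpow, hrel]
    calc (ζ ^ j) ^ 2 = ζ ^ j * (ζ ^ j)⁻¹ := by rw [← h3, pow_two]
      _ = 1 := mul_inv_cancel₀ (zpow_ne_zero _ hζ0)

end

end Pool.Agent.H79.WC
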