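import Mathlib

set_option autoImplicit false

open Matrix

namespace Pool.Agent.H79.WC

/-- coordinates of a matrix in the basis `1, I = !![0,1;-1,0], J = !![1,0;0,-1], K = !![0,1;1,0]` -/
noncomputable def x0 (M : Matrix (Fin 2) (Fin 2) ℂ) : ℂ := (M 0 0 + M 1 1) / 2
noncomputable def x1 (M : Matrix (Fin 2) (Fin 2) ℂ) : ℂ := (M 0 1 - M 1 0) / 2
noncomputable def x2 (M : Matrix (Fin 2) (Fin 2) ℂ) : ℂ := (M 0 0 - M 1 1) / 2
noncomputable def x3 (M : Matrix (Fin 2) (Fin 2) ℂ) : ℂ := (M 0 1 + M 1 0) / 2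

variable (M N : Matrix (Fin 2) (Fin 2) ℂ)

theorem x0_mul : x0 (M * N) = x0 M * x0 N - x1 M * x1 N + x2 M * x2 N + x3 M * x3 N := by
  simp only [x0, x1, x2, x3, Matrix.mul_apply, Fin.sum_univ_two]
  ring

theorem x1_mul : x1 (M * N) = x0 M * x1 N + x1 M * x0 N + x2 M * x3 N - x3 M * x2 N := by
  simp only [x0, x1, x2, x3, Matrix.mul_apply, Fin.sum_univ_two]
  ring

theorem x2_mul : x2 (M * N) = x0 M * x2 N + x2 M * x0 N + x1 M * x3 N - x3 M * x1 N := by
  simp only [x0, x1, x2, x3, Matrix.mul_apply, Fin.sum_univ_two]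
  ring

theorem x3_mul : x3 (M * N) = x0 M * x3 N + x3 M * x0 N - x1 M * x2 N + x2 M * x1 N := by
  simp only [x0, x1, x2, x3, Matrix.mul_apply, Fin.sum_univ_two]
  ring

theorem det_coord : M.det = x0 M ^ 2 + x1 M ^ 2 - x2 M ^ 2 - x3 M ^ 2 := by
  rw [Matrix.det_fin_two]
  simp only [x0, x1, x2, x3]
  ring

theorem entry00 : M 0 0 = x0 M + x2 M := by simp only [x0, x2]; ring
theorem entry11 : M 1 1 = x0 M - x2 M := by simp only [x0, x2]; ring
theorem entry01 : M 0 1 = x1 M + x3 M := by simp only [x1, x3]; ring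
theorem entry10 : M 1 0 = x3 M - x1 M := by simp only [x1, x3]; ring

/-- an abstract parity structure: real-like elements `R`, imaginary-like elements `J`, positive
elements, small elements -/
structure Par where
  R : Subfield ℂ
  J : AddSubgroup ℂ
  RJ : ∀ {r j : ℂ}, r ∈ R → j ∈ J → r * j ∈ J
  JJ : ∀ {j k : ℂ}, j ∈ J → k ∈ J → j * k ∈ R
  I_mem : Complex.I ∈ J
  Pos : Set ℂ
  sqrt : ∀ {z : ℂ}, z ^ 2 ∈ Pos → z ∈ R
  norm_pos : ∀ {a b c d : ℂ}, a ∈ R → b ∈ R → c ∈ J → d ∈ J →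
    a ^ 2 + b ^ 2 - c ^ 2 - d ^ 2 ≠ 0 → a ^ 2 + b ^ 2 - c ^ 2 - d ^ 2 ∈ Pos
  SmR : Set ℂ
  SmJ : Set ℂ
  SmR_le : ∀ {r : ℂ}, r ∈ SmR → r ∈ R
  SmJ_le : ∀ {j : ℂ}, j ∈ SmJ → j ∈ J
  sm1 : ∀ {r j k : ℂ}, r ∈ SmR → j ∈ SmJ → k ∈ SmJ → 1 - r ^ 2 + j ^ 2 + k ^ 2 ∈ Pos
  sm2 : ∀ {j k : ℂ}, j ∈ SmJ → k ∈ SmJ → 1 + j ^ 2 + k ^ 2 ∈ Pos
  sm3 : ∀ {r : ℂ}, r ∈ SmR → 1 - r ^ 2 ∈ Pos

/-- Hamiltonian matrices with respect to a parity structure -/
structure Par.H (p : Par) (M : Matrix (Fin 2) (Fin 2) ℂ) : Prop where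
  h0 : x0 M ∈ p.R
  h1 : x1 M ∈ p.R
  h2 : x2 M ∈ p.J
  h3 : x3 M ∈ p.J

namespace Par

variable {p : Par} {M N : Matrix (Fin 2) (Fin 2) ℂ}

theorem JR {r j : ℂ} (hj : j ∈ p.J) (hr : r ∈ p.R) : j * r ∈ p.J := by
  rw [mul_comm]
  exact p.RJ hr hj

theorem H.mul (hM : p.H M) (hN : p.H N) : p.H (M * N) where
  h0 := by
    rw [x0_mul]
    exact add_mem (add_mem (sub_mem (mul_mem hM.h0 hN.h0) (mul_mem hM.h1 hN.h1))
      (p.JJ hM.h2 hN.h2)) (p.JJ hM.h3 hN.h3)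
  h1 := by
    rw [x1_mul]
    exact sub_mem (add_mem (add_mem (mul_mem hM.h0 hN.h1) (mul_mem hM.h1 hN.h0))
      (p.JJ hM.h2 hN.h3)) (p.JJ hM.h3 hN.h2)
  h2 := by
    rw [x2_mul]
    exact sub_mem (add_mem (add_mem (p.RJ hM.h0 hN.h2) (JR hM.h2 hN.h0))
      (p.RJ hM.h1 hN.h3)) (JR hM.h3 hN.h1)
  h3 := by
    rw [x3_mul]
    exact add_mem (sub_mem (add_mem (p.RJ hM.h0 hN.h3) (JR hM.h3 hN.h0))
      (p.RJ hM.h1 hN.h2)) (JR hM.h2 hN.h1)

theorem H.add (hM : p.H M) (hN : p.H N) : p.H (M + N) where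
  h0 := by
    have : x0 (M + N) = x0 M + x0 N := by simp only [x0, Matrix.add_apply]; ring
    rw [this]; exact add_mem hM.h0 hN.h0
  h1 := by
    have : x1 (M + N) = x1 M + x1 N := by simp only [x1, Matrix.add_apply]; ring
    rw [this]; exact add_mem hM.h1 hN.h1
  h2 := by
    have : x2 (M + N) = x2 M + x2 N := by simp only [x2, Matrix.add_apply]; ring
    rw [this]; exact add_mem hM.h2 hN.h2
  h3 := by
    have : x3 (M + N) = x3 M + x3 N := by simp only [x3, Matrix.add_apply]; ring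
    rw [this]; exact add_mem hM.h3 hN.h3

theorem H.smul (hM : p.H M) {r : ℂ} (hr : r ∈ p.R) : p.H (r • M) where
  h0 := by
    have : x0 (r • M) = r * x0 M := by simp only [x0, Matrix.smul_apply, smul_eq_mul]; ring
    rw [this]; exact mul_mem hr hM.h0
  h1 := by
    have : x1 (r • M) = r * x1 M := by simp only [x1, Matrix.smul_apply, smul_eq_mul]; ring
    rw [this]; exact mul_mem hr hM.h1
  h2 := by
    have : x2 (r • M) = r * x2 M := by simp only [x2, Matrix.smul_apply, smul_eq_mul]; ring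
    rw [this]; exact p.RJ hr hM.h2
  h3 := by
    have : x3 (r • M) = r * x3 M := by simp only [x3, Matrix.smul_apply, smul_eq_mul]; ring
    rw [this]; exact p.RJ hr hM.h3

theorem H.one : p.H 1 where
  h0 := by
    have : x0 (1 : Matrix (Fin 2) (Fin 2) ℂ) = 1 := by simp [x0]
    rw [this]; exact one_mem _
  h1 := by
    have : x1 (1 : Matrix (Fin 2) (Fin 2) ℂ) = 0 := by simp [x1]
    rw [this]; exact zero_mem _
  h2 := by
    have : x2 (1 : Matrix (Fin 2) (Fin 2) ℂ) = 0 := by simp [x2]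
    rw [this]; exact zero_mem _
  h3 := by
    have : x3 (1 : Matrix (Fin 2) (Fin 2) ℂ) = 0 := by simp [x3]
    rw [this]; exact zero_mem _

theorem H.neg (hM : p.H M) : p.H (-M) := by
  have := hM.smul (r := -1) (neg_mem (one_mem _))
  rwa [neg_one_smul] at this

theorem H.sub (hM : p.H M) (hN : p.H N) : p.H (M - N) := by
  rw [sub_eq_add_neg]
  exact hM.add hN.neg

theorem H.adj (hM : p.H M) : p.H M.adjugate where
  h0 := by
    have : x0 M.adjugate = x0 M := by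
      rw [Matrix.adjugate_fin_two]; simp [x0]; ring
    rw [this]; exact hM.h0
  h1 := by
    have : x1 M.adjugate = - x1 M := by
      rw [Matrix.adjugate_fin_two]; simp [x1]; ring
    rw [this]; exact neg_mem hM.h1
  h2 := by
    have : x2 M.adjugate = - x2 M := by
      rw [Matrix.adjugate_fin_two]; simp [x2]; ring
    rw [this]; exact neg_mem hM.h2
  h3 := by
    have : x3 M.adjugate = - x3 M := by
      rw [Matrix.adjugate_fin_two]; simp [x3]; ring
    rw [this]; exact neg_mem hM.h3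

theorem H.det_mem (hM : p.H M) (h : M.det ≠ 0) : M.det ∈ p.Pos := by
  rw [det_coord] at h ⊢
  exact p.norm_pos hM.h0 hM.h1 hM.h2 hM.h3 h

theorem H.det_memR (hM : p.H M) : M.det ∈ p.R := by
  rw [det_coord]
  exact sub_mem (sub_mem (add_mem (pow_mem hM.h0 2) (pow_mem hM.h1 2))
    (by rw [pow_two]; exact p.JJ hM.h2 hM.h2)) (by rw [pow_two]; exact p.JJ hM.h3 hM.h3)

theorem H.trace_mem (hM : p.H M) : M.trace ∈ p.R := by
  have : M.trace = 2 * x0 M := by
    rw [Matrix.trace_fin_two, x0]; ring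
  rw [this]
  exact mul_mem (ofNat_mem _ 2) hM.h0

/-- (T1) a matrix of determinant one with small coordinates -/
theorem H.of_small (hdet : M.det = 1) (h1 : x1 M ∈ p.SmR) (h2 : x2 M ∈ p.SmJ)
    (h3 : x3 M ∈ p.SmJ) : p.H M where
  h0 := by
    apply p.sqrt
    have : x0 M ^ 2 = 1 - x1 M ^ 2 + x2 M ^ 2 + x3 M ^ 2 := by
      rw [det_coord] at hdet
      linear_combination hdet
    rw [this]
    exact p.sm1 h1 h2 h3
  h1 := p.SmR_le h1
  h2 := p.SmJ_le h2
  h3 := p.SmJ_le h3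

theorem mul_adj_self (M : Matrix (Fin 2) (Fin 2) ℂ) (h : M.det ≠ 0) :
    M * ((M.det)⁻¹ • M.adjugate) = 1 := by
  rw [mul_smul_comm, Matrix.mul_adjugate, smul_smul, inv_mul_cancel₀ h, one_smul]

theorem adj_mul_self (M : Matrix (Fin 2) (Fin 2) ℂ) (h : M.det ≠ 0) :
    ((M.det)⁻¹ • M.adjugate) * M = 1 := by
  rw [smul_mul_assoc, Matrix.adjugate_mul, smul_smul, inv_mul_cancel₀ h, one_smul]

/-- (T2) first matrix of the last handle: `P = a' (c - 1)` is traceless of determinant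
`ν² = det (c - 1)`; if `x2 P / ν` and `x3 P / ν` are small then `a'` is Hamiltonian -/
theorem H.of_first {a' c : Matrix (Fin 2) (Fin 2) ℂ} (hc : p.H c) {ν : ℂ}
    (hν : ν ^ 2 = (c - 1).det) (hν0 : (c - 1).det ≠ 0) (hdet : a'.det = 1)
    (htr : (a' * (c - 1)).trace = 0) (h2 : x2 (a' * (c - 1)) / ν ∈ p.SmJ)
    (h3 : x3 (a' * (c - 1)) / ν ∈ p.SmJ) : p.H a' := by
  set P := a' * (c - 1) with hP
  have hc1 : p.H (c - 1) := hc.sub H.one
  have hνR : ν ∈ p.R := by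
    apply p.sqrt
    rw [hν]
    exact hc1.det_mem hν0
  have hν' : ν ≠ 0 := by
    rintro rfl
    apply hν0
    rw [← hν]
    simp
  have hdetP : P.det = ν ^ 2 := by rw [hP, Matrix.det_mul, hdet, one_mul, hν]
  have hx0 : x0 P = 0 := by
    rw [x0]
    rw [Matrix.trace_fin_two] at htr
    rw [htr, zero_div]
  have h1 : x1 P / ν ∈ p.R := by
    apply p.sqrt
    have h4 : (x1 P / ν) ^ 2 = 1 + (x2 P / ν) ^ 2 + (x3 P / ν) ^ 2 := by
      rw [det_coord, hx0] at hdetP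
      field_simp
      linear_combination hdetP
    rw [h4]
    exact p.sm2 h2 h3
  have hPH : p.H P := by
    refine ⟨?_, ?_, ?_, ?_⟩
    · rw [hx0]; exact zero_mem _
    · have : x1 P = ν * (x1 P / ν) := by field_simp
      rw [this]; exact mul_mem hνR h1
    · have : x2 P = ν * (x2 P / ν) := by field_simp
      rw [this]; exact p.RJ hνR (p.SmJ_le h2)
    · have : x3 P = ν * (x3 P / ν) := by field_simp
      rw [this]; exact p.RJ hνR (p.SmJ_le h3)
  have h5 : a' = P * (((c - 1).det)⁻¹ • (c - 1).adjugate) := by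
    rw [hP, mul_assoc, mul_adj_self _ hν0, mul_one]
  rw [h5]
  exact hPH.mul (hc1.adj.smul (inv_mem hc1.det_memR))

end Par

end Pool.Agent.H79.WC
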