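import Pool.Agent.H79.WC.Par

set_option autoImplicit false

open Matrix

namespace Pool.Agent.H79.WC

theorem ext_coord {M N : Matrix (Fin 2) (Fin 2) ℂ} (h0 : x0 M = x0 N) (h1 : x1 M = x1 N)
    (h2 : x2 M = x2 N) (h3 : x3 M = x3 N) : M = N := by
  ext i j
  fin_cases i <;> fin_cases j
  · change M 0 0 = N 0 0
    rw [entry00 M, entry00 N, h0, h2]
  · change M 0 1 = N 0 1
    rw [entry01 M, entry01 N, h1, h3]
  · change M 1 0 = N 1 0
    rw [entry10 M, entry10 N, h1, h3]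
  · change M 1 1 = N 1 1
    rw [entry11 M, entry11 N, h0, h2]

theorem x_add (M N : Matrix (Fin 2) (Fin 2) ℂ) : x0 (M + N) = x0 M + x0 N ∧
    x1 (M + N) = x1 M + x1 N ∧ x2 (M + N) = x2 M + x2 N ∧ x3 (M + N) = x3 M + x3 N := by
  simp only [x0, x1, x2, x3, Matrix.add_apply]
  refine ⟨?_, ?_, ?_, ?_⟩ <;> ring

theorem x_smul (r : ℂ) (M : Matrix (Fin 2) (Fin 2) ℂ) : x0 (r • M) = r * x0 M ∧
    x1 (r • M) = r * x1 M ∧ x2 (r • M) = r * x2 M ∧ x3 (r • M) = r * x3 M := by
  simp only [x0, x1, x2, x3, Matrix.smul_apply, smul_eq_mul]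
  refine ⟨?_, ?_, ?_, ?_⟩ <;> ring

theorem x_one : x0 (1 : Matrix (Fin 2) (Fin 2) ℂ) = 1 ∧ x1 (1 : Matrix (Fin 2) (Fin 2) ℂ) = 0 ∧
    x2 (1 : Matrix (Fin 2) (Fin 2) ℂ) = 0 ∧ x3 (1 : Matrix (Fin 2) (Fin 2) ℂ) = 0 := by
  refine ⟨?_, ?_, ?_, ?_⟩ <;> simp [x0, x1, x2, x3]

theorem trace_coord (M : Matrix (Fin 2) (Fin 2) ℂ) : M.trace = 2 * x0 M := by
  rw [Matrix.trace_fin_two, x0]; ring

/-- a matrix commuting with a traceless invertible matrix `q` -/
theorem commute_formula {y q : Matrix (Fin 2) (Fin 2) ℂ} (hq : q.trace = 0) (hm : q.det ≠ 0)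
    (hc : y * q = q * y) :
    y = (y.trace / 2) • (1 : Matrix (Fin 2) (Fin 2) ℂ) + (-(y * q).trace / (2 * q.det)) • q := by
  have hq0 : x0 q = 0 := by
    rw [trace_coord] at hq
    simpa using hq
  have c1 := congrArg x1 hc
  have c2 := congrArg x2 hc
  have c3 := congrArg x3 hc
  rw [x1_mul, x1_mul, hq0] at c1
  rw [x2_mul, x2_mul, hq0] at c2
  rw [x3_mul, x3_mul, hq0] at c3
  have d1 : x2 y * x3 q = x3 y * x2 q := by linear_combination c1 / 2
  have d2 : x1 y * x3 q = x3 y * x1 q := by linear_combination c2 / 2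
  have d3 : x1 y * x2 q = x2 y * x1 q := by linear_combination -c3 / 2
  have ht : (y * q).trace = 2 * (-(x1 y * x1 q) + x2 y * x2 q + x3 y * x3 q) := by
    rw [trace_coord, x0_mul, hq0]
    ring
  have hdet : q.det = x1 q ^ 2 - x2 q ^ 2 - x3 q ^ 2 := by
    rw [det_coord, hq0]
    ring
  set D := q.det with hD
  have hcoef : -(y * q).trace / (2 * D) = -(-(x1 y * x1 q) + x2 y * x2 q + x3 y * x3 q) / D := by
    rw [ht]
    field_simp
  rw [hcoef]
  obtain ⟨a0, a1, a2, a3⟩ := x_add ((y.trace / 2) • (1 : Matrix (Fin 2) (Fin 2) ℂ))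
    ((-(-(x1 y * x1 q) + x2 y * x2 q + x3 y * x3 q) / D) • q)
  obtain ⟨b0, b1, b2, b3⟩ := x_smul (y.trace / 2) (1 : Matrix (Fin 2) (Fin 2) ℂ)
  obtain ⟨e0, e1, e2, e3⟩ := x_smul (-(-(x1 y * x1 q) + x2 y * x2 q + x3 y * x3 q) / D) q
  obtain ⟨o0, o1, o2, o3⟩ := x_one
  apply ext_coord
  · rw [a0, b0, e0, o0, hq0, trace_coord]
    ring
  · rw [a1, b1, e1, o1]
    field_simp
    rw [hdet]
    linear_combination (-2 * x2 q) * d3 - (2 * x3 q) * d2
  · rw [a2, b2, e2, o2]
    field_simp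
    rw [hdet]
    linear_combination (-2 * x1 q) * d3 - (2 * x3 q) * d1
  · rw [a3, b3, e3, o3]
    field_simp
    rw [hdet]
    linear_combination (-2 * x1 q) * d2 + (2 * x2 q) * d1

/-- intertwiner construction -/
theorem inter {q q' X : Matrix (Fin 2) (Fin 2) ℂ} {m : ℂ}
    (hq : q * q = -(m • (1 : Matrix (Fin 2) (Fin 2) ℂ)))
    (hq' : q' * q' = -(m • (1 : Matrix (Fin 2) (Fin 2) ℂ))) :
    (q' * X + X * q) * q = q' * (q' * X + X * q) := by
  rw [add_mul, mul_add, mul_assoc X q q, hq, ← mul_assoc q' q' X, hq']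
  simp only [mul_neg, neg_mul, mul_smul_comm, smul_mul_assoc, mul_one, one_mul, mul_assoc]
  abel

theorem sq_of_traceless {q : Matrix (Fin 2) (Fin 2) ℂ} (h : q.trace = 0) :
    q * q = -(q.det • (1 : Matrix (Fin 2) (Fin 2) ℂ)) := by
  have h11 : q 1 1 = - q 0 0 := by
    rw [Matrix.trace_fin_two] at h
    linear_combination h
  ext i j
  fin_cases i <;> fin_cases j <;>
    simp [Matrix.mul_apply, Fin.sum_univ_two, Matrix.det_fin_two, h11] <;> ring

/-- polarisation of the determinant -/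
def pol (A B : Matrix (Fin 2) (Fin 2) ℂ) : ℂ :=
  A 0 0 * B 1 1 + A 1 1 * B 0 0 - A 0 1 * B 1 0 - A 1 0 * B 0 1

theorem det_add_pol (A B : Matrix (Fin 2) (Fin 2) ℂ) :
    (A + B).det = A.det + B.det + pol A B := by
  simp only [Matrix.det_fin_two, Matrix.add_apply, pol]
  ring

theorem det_comb (A B C D : Matrix (Fin 2) (Fin 2) ℂ) (a b c d : ℂ) :
    (a • A + b • B + c • C + d • D).det = a ^ 2 * A.det + b ^ 2 * B.det + c ^ 2 * C.det +
      d ^ 2 * D.det + a * b * pol A B + a * c * pol A C + a * d * pol A D + b * c * pol B C +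
      b * d * pol B D + c * d * pol C D := by
  simp only [Matrix.det_fin_two, Matrix.add_apply, Matrix.smul_apply, smul_eq_mul, pol]
  ring

/-- matrices which are Hamiltonian for every parity structure -/
def Univ (X : Matrix (Fin 2) (Fin 2) ℂ) : Prop := ∀ p : Par, p.H X

theorem Univ.add {X Y : Matrix (Fin 2) (Fin 2) ℂ} (hX : Univ X) (hY : Univ Y) : Univ (X + Y) :=
  fun p => (hX p).add (hY p)

theorem univ_one : Univ 1 := fun _ => Par.H.one

theorem univ_I : Univ !![0, 1; -1, 0] := by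
  intro p
  refine ⟨?_, ?_, ?_, ?_⟩
  · have : x0 !![0, 1; -1, 0] = 0 := by simp [x0]
    rw [this]; exact zero_mem _
  · have : x1 !![0, 1; -1, 0] = 1 := by simp [x1]
    rw [this]; exact one_mem _
  · have : x2 !![0, 1; -1, 0] = 0 := by simp [x2]
    rw [this]; exact zero_mem _
  · have : x3 !![0, 1; -1, 0] = 0 := by simp [x3]
    rw [this]; exact zero_mem _

theorem univ_J : Univ !![Complex.I, 0; 0, -Complex.I] := by
  intro p
  refine ⟨?_, ?_, ?_, ?_⟩
  · have : x0 !![Complex.I, 0; 0, -Complex.I] = 0 := by simp [x0]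
    rw [this]; exact zero_mem _
  · have : x1 !![Complex.I, 0; 0, -Complex.I] = 0 := by simp [x1]
    rw [this]; exact zero_mem _
  · have : x2 !![Complex.I, 0; 0, -Complex.I] = Complex.I := by simp [x2]
    rw [this]; exact p.I_mem
  · have : x3 !![Complex.I, 0; 0, -Complex.I] = 0 := by simp [x3]
    rw [this]; exact zero_mem _

theorem univ_K : Univ !![0, Complex.I; Complex.I, 0] := by
  intro p
  refine ⟨?_, ?_, ?_, ?_⟩
  · have : x0 !![0, Complex.I; Complex.I, 0] = 0 := by simp [x0]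
    rw [this]; exact zero_mem _
  · have : x1 !![0, Complex.I; Complex.I, 0] = 0 := by simp [x1]
    rw [this]; exact zero_mem _
  · have : x2 !![0, Complex.I; Complex.I, 0] = 0 := by simp [x2]
    rw [this]; exact zero_mem _
  · have : x3 !![0, Complex.I; Complex.I, 0] = Complex.I := by simp [x3]
    rw [this]; exact p.I_mem

/-- there is a universal matrix `X` giving an invertible intertwiner -/
theorem exists_univ {q q' b : Matrix (Fin 2) (Fin 2) ℂ} {m : ℂ} (hm : m ≠ 0)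
    (hq' : q' * q' = -(m • (1 : Matrix (Fin 2) (Fin 2) ℂ))) (hb : b.det = 1)
    (hbq : b * q = q' * b) : ∃ X, Univ X ∧ (q' * X + X * q).det ≠ 0 := by
  by_contra hcon
  push Not at hcon
  set E1 : Matrix (Fin 2) (Fin 2) ℂ := 1
  set E2 : Matrix (Fin 2) (Fin 2) ℂ := !![0, 1; -1, 0]
  set E3 : Matrix (Fin 2) (Fin 2) ℂ := !![Complex.I, 0; 0, -Complex.I]
  set E4 : Matrix (Fin 2) (Fin 2) ℂ := !![0, Complex.I; Complex.I, 0]
  have hS : ∀ X Y, q' * (X + Y) + (X + Y) * q = (q' * X + X * q) + (q' * Y + Y * q) := by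
    intro X Y
    rw [mul_add, add_mul]
    abel
  have hpol : ∀ X Y, Univ X → Univ Y → pol (q' * X + X * q) (q' * Y + Y * q) = 0 := by
    intro X Y hX hY
    have h1 := hcon _ (hX.add hY)
    rw [hS, det_add_pol, hcon X hX, hcon Y hY] at h1
    simpa using h1
  have hall : ∀ X : Matrix (Fin 2) (Fin 2) ℂ, (q' * X + X * q).det = 0 := by
    intro X
    have hX : X = x0 X • E1 + x1 X • E2 + (-(Complex.I) * x2 X) • E3 +
        (-(Complex.I) * x3 X) • E4 := by
      ext i j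
      fin_cases i <;> fin_cases j <;>
        simp [E1, E2, E3, E4, x0, x1, x2, x3] <;> ring_nf <;> simp <;> ring
    have hX2 : q' * X + X * q = x0 X • (q' * E1 + E1 * q) + x1 X • (q' * E2 + E2 * q) +
        (-(Complex.I) * x2 X) • (q' * E3 + E3 * q) +
        (-(Complex.I) * x3 X) • (q' * E4 + E4 * q) := by
      conv_lhs => rw [hX]
      simp only [mul_add, add_mul, mul_smul_comm, smul_mul_assoc, smul_add]
      abel
    rw [hX2, det_comb, hcon E1 univ_one, hcon E2 univ_I, hcon E3 univ_J, hcon E4 univ_K,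
      hpol _ _ univ_one univ_I, hpol _ _ univ_one univ_J, hpol _ _ univ_one univ_K,
      hpol _ _ univ_I univ_J, hpol _ _ univ_I univ_K, hpol _ _ univ_J univ_K]
    ring
  have h1 := hall (q' * b)
  have h2 : q' * (q' * b) + q' * b * q = (-2 * m) • b := by
    rw [mul_assoc q' b q, hbq, ← mul_assoc, hq']
    rw [neg_mul, smul_mul_assoc, one_mul]
    module
  rw [h2, Matrix.det_smul, hb, mul_one, Fintype.card_fin] at h1
  have h3 : (-2 * m) ^ 2 ≠ 0 := by
    apply pow_ne_zero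
    exact mul_ne_zero (by norm_num) hm
  exact h3 h1

namespace Par

variable {p : Par}

/-- (T3) the second matrix of the last handle -/
theorem H.of_second {q q' b X : Matrix (Fin 2) (Fin 2) ℂ} (hqH : p.H q) (hq'H : p.H q')
    (hX : Univ X) (htq : q.trace = 0) (htq' : q'.trace = 0) (hdq : q'.det = q.det)
    (hm : q.det ≠ 0) (hb : b.det = 1) (hbq : b * q = q' * b)
    (hs : (q' * X + X * q).det ≠ 0) {κ μ : ℂ} (hκ : κ ^ 2 = (q' * X + X * q).det)
    (hμ : μ ^ 2 = q.det)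
    (hθ : -(b * (((q' * X + X * q).det)⁻¹ • (q' * X + X * q).adjugate) * q').trace /
      (2 * q'.det) * κ * μ ∈ p.SmR) : p.H b := by
  set s := q' * X + X * q with hsdef
  set y := b * ((s.det)⁻¹ • s.adjugate) with hy
  set β1 := -(y * q').trace / (2 * q'.det) with hβ1
  set β0 := y.trace / 2 with hβ0
  have hsH : p.H s := (hq'H.mul (hX p)).add ((hX p).mul hqH)
  have hsq : s * q = q' * s := by
    apply inter (m := q.det)
    · exact sq_of_traceless htq
    · rw [← hdq]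
      exact sq_of_traceless htq'
  have hinv1 := mul_adj_self s hs
  have hinv2 := adj_mul_self s hs
  have hcomm : y * q' = q' * y := by
    have h1 : ((s.det)⁻¹ • s.adjugate) * q' = q * ((s.det)⁻¹ • s.adjugate) := by
      calc ((s.det)⁻¹ • s.adjugate) * q'
          = ((s.det)⁻¹ • s.adjugate) * (q' * s) * ((s.det)⁻¹ • s.adjugate) := by
            rw [mul_assoc, mul_assoc, hinv1, mul_one]
        _ = ((s.det)⁻¹ • s.adjugate) * (s * q) * ((s.det)⁻¹ • s.adjugate) := by rw [hsq]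
        _ = q * ((s.det)⁻¹ • s.adjugate) := by rw [← mul_assoc _ s q, hinv2, one_mul]
    calc y * q' = b * (((s.det)⁻¹ • s.adjugate) * q') := by rw [hy, mul_assoc]
      _ = (b * q) * ((s.det)⁻¹ • s.adjugate) := by rw [h1, mul_assoc]
      _ = q' * y := by rw [hbq, hy, mul_assoc]
  have hyf : y = β0 • (1 : Matrix (Fin 2) (Fin 2) ℂ) + β1 • q' :=
    commute_formula htq' (by rw [hdq]; exact hm) hcomm
  have hby : b = y * s := by rw [hy, mul_assoc, hinv2, mul_one]
  have hκR : κ ∈ p.R := by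
    apply p.sqrt
    rw [hκ]
    exact hsH.det_mem hs
  have hμR : μ ∈ p.R := by
    apply p.sqrt
    rw [hμ]
    exact hqH.det_mem hm
  have hκ0 : κ ≠ 0 := by
    rintro rfl
    apply hs
    rw [← hκ]
    simp
  have hμ0 : μ ≠ 0 := by
    rintro rfl
    apply hm
    rw [← hμ]
    simp
  have hβ1R : β1 ∈ p.R := by
    have h1 : β1 = (β1 * κ * μ) / (κ * μ) := by field_simp
    rw [h1]
    exact div_mem (p.SmR_le hθ) (mul_mem hκR hμR)
  have hdety : y.det = β0 ^ 2 + β1 ^ 2 * q'.det := by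
    have hq0 : x0 q' = 0 := by
      rw [trace_coord] at htq'
      simpa using htq'
    rw [det_coord, det_coord]
    conv_lhs => rw [hyf]
    obtain ⟨a0, a1, a2, a3⟩ := x_add (β0 • (1 : Matrix (Fin 2) (Fin 2) ℂ)) (β1 • q')
    obtain ⟨b0, b1, b2, b3⟩ := x_smul β0 (1 : Matrix (Fin 2) (Fin 2) ℂ)
    obtain ⟨e0, e1, e2, e3⟩ := x_smul β1 q'
    obtain ⟨o0, o1, o2, o3⟩ := x_one
    rw [a0, a1, a2, a3, b0, b1, b2, b3, e0, e1, e2, e3, o0, o1, o2, o3, hq0]
    ring
  have hprod : y.det * κ ^ 2 = 1 := by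
    rw [hκ, ← Matrix.det_mul, ← hby, hb]
  have hβ0R : β0 ∈ p.R := by
    have h1 : (β0 * κ) ^ 2 = 1 - (β1 * κ * μ) ^ 2 := by
      rw [hdety, hdq, ← hμ] at hprod
      linear_combination hprod
    have h2 : β0 * κ ∈ p.R := by
      apply p.sqrt
      rw [h1]
      exact p.sm3 hθ
    have h3 : β0 = (β0 * κ) / κ := by field_simp
    rw [h3]
    exact div_mem h2 hκR
  rw [hby, hyf]
  exact ((H.one.smul hβ0R).add (hq'H.smul hβ1R)).mul hsH

end Par

end Pool.Agent.H79.WC
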