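import Pool.Agent.H79.WC.Acl

set_option autoImplicit false

open Set Cardinal

namespace Pool.Agent.H79.WC

theorem exists_real_indep (ι : Type) [Fintype ι] : ∃ t : ι → ℝ, AlgebraicIndependent ℚ t := by
  obtain ⟨s, hs⟩ := exists_isTranscendenceBasis ℚ ℝ
  have hinf : Infinite s := by
    by_contra hfin
    rw [not_infinite_iff_finite] at hfin
    have h1 : #ℝ ≤ max #(Algebra.adjoin ℚ (range ((↑) : s → ℝ))) ℵ₀ := by
      have := hs.isAlgebraic
      exact Algebra.IsAlgebraic.cardinalMk_le_max _ _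
    have h2 : #(Algebra.adjoin ℚ (range ((↑) : s → ℝ))) = #(MvPolynomial s ℚ) :=
      (Cardinal.mk_congr hs.1.aevalEquiv.toEquiv).symm
    have h3 : #(MvPolynomial s ℚ) ≤ ℵ₀ := by
      refine MvPolynomial.cardinalMk_le_max.trans ?_
      have h4 : #s ≤ ℵ₀ := (Cardinal.lt_aleph0_of_finite s).le
      simp [h4]
    rw [h2, max_eq_right h3, Cardinal.mk_real] at h1
    exact absurd h1 (not_le.2 Cardinal.aleph0_lt_continuum)
  obtain ⟨e⟩ : Nonempty (ι ↪ s) := by
    obtain ⟨e, -⟩ := Infinite.natEmbedding s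
    exact ⟨(Fintype.equivFin ι).toEmbedding.trans
      ((Fin.valEmbedding).trans (Infinite.natEmbedding s))⟩
  exact ⟨fun i => (e i : ℝ), hs.1.comp e e.injective⟩

theorem I_mem_acl (T : Set ℂ) : Complex.I ∈ acl ℚ T := by
  apply acl_sq
  rw [Complex.I_sq]
  exact neg_mem (one_mem _)

/-- small algebraically independent numbers, real or purely imaginary as prescribed -/
theorem exists_small_indep {ι : Type} [Fintype ι] (ε : ι → ℂ)
    (hε : ∀ i, ε i = 1 ∨ ε i = Complex.I) {δ : ℝ} (hδ : 0 < δ) :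
    ∃ r : ι → ℝ, (∀ i, |r i| < δ) ∧ AlgebraicIndependent ℚ (fun i => ε i * (r i : ℂ)) := by
  obtain ⟨t, ht⟩ := exists_real_indep ι
  have hN : ∀ i, ∃ N : ℕ, |t i| / δ < N := fun i => exists_nat_gt _
  choose N hN using hN
  have hN0 : ∀ i, (0 : ℝ) < N i := fun i =>
    lt_of_le_of_lt (div_nonneg (abs_nonneg _) hδ.le) (hN i)
  refine ⟨fun i => t i / N i, ?_, ?_⟩
  · intro i
    rw [abs_div, Nat.abs_cast, div_lt_iff₀ (hN0 i), mul_comm, ← div_lt_iff₀ hδ]
    exact hN i
  · have ht' : AlgebraicIndependent ℚ (fun i => (t i : ℂ)) :=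
      ht.map' (f := (Algebra.ofId ℝ ℂ).restrictScalars ℚ) (algebraMap ℝ ℂ).injective
    have hεmem : ∀ (T : Set ℂ) i, ε i ∈ acl ℚ T := by
      intro T i
      rcases hε i with h | h
      · rw [h]; exact one_mem _
      · rw [h]; exact I_mem_acl T
    have hε0 : ∀ i, ε i ≠ 0 := by
      intro i
      rcases hε i with h | h
      · rw [h]; exact one_ne_zero
      · rw [h]; exact Complex.I_ne_zero
    refine indep_of_acl (S := range fun i => (t i : ℂ)) ?_ ?_ ?_
    · intro i
      push_cast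
      refine mul_mem (hεmem _ i) (div_mem ?_ (natCast_mem _ _))
      exact subset_acl _ (mem_range_self i)
    · rintro _ ⟨i, rfl⟩
      have h1 : (t i : ℂ) = (N i : ℂ) * ((ε i)⁻¹ * (ε i * ((t i / N i : ℝ) : ℂ))) := by
        have h2 : (N i : ℂ) ≠ 0 := by
          exact_mod_cast (hN0 i).ne'
        have h3 := hε0 i
        push_cast
        field_simp
      have h4 : (ε i * ((t i / N i : ℝ) : ℂ)) ∈
          acl ℚ (range fun i => ε i * ((t i / N i : ℝ) : ℂ)) :=
        subset_acl _ ⟨i, rfl⟩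
      change (t i : ℂ) ∈ acl ℚ (range fun i => ε i * ((t i / N i : ℝ) : ℂ))
      rw [h1]
      exact mul_mem (natCast_mem _ _) (mul_mem (inv_mem (hεmem _ i)) h4)
    · exact card_le_trdeg ht'

end Pool.Agent.H79.WC
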