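import Pool.Agent.H79.WC.Par2
import Pool.Agent.H79.WC.RealInd

set_option autoImplicit false

open Matrix

namespace Pool.Agent.H79.WC

/-- the membership parity structure of a field closed under square roots -/
noncomputable def parMem (L : IntermediateField ℚ ℂ) (hL : ∀ z : ℂ, z ^ 2 ∈ L → z ∈ L) : Par where
  R := L.toSubfield
  J := L.toSubfield.toAddSubgroup
  RJ := by
    intro r j (hr : r ∈ L) (hj : j ∈ L)
    exact (mul_mem hr hj : r * j ∈ L)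
  JJ := by
    intro r j (hr : r ∈ L) (hj : j ∈ L)
    exact (mul_mem hr hj : r * j ∈ L)
  I_mem := by
    have h : Complex.I ∈ L := by
      apply hL
      rw [Complex.I_sq]
      exact neg_mem (one_mem L)
    exact h
  Pos := {x | x ∈ L}
  sqrt := fun h => hL _ h
  norm_pos := by
    intro a b c d (ha : a ∈ L) (hb : b ∈ L) (hc : c ∈ L) (hd : d ∈ L) _
    exact (sub_mem (sub_mem (add_mem (pow_mem ha 2) (pow_mem hb 2)) (pow_mem hc 2))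
      (pow_mem hd 2) : a ^ 2 + b ^ 2 - c ^ 2 - d ^ 2 ∈ L)
  SmR := {x | x ∈ L}
  SmJ := {x | x ∈ L}
  SmR_le := fun h => h
  SmJ_le := fun h => h
  sm1 := by
    intro r j k (hr : r ∈ L) (hj : j ∈ L) (hk : k ∈ L)
    exact (add_mem (add_mem (sub_mem (one_mem L) (pow_mem hr 2)) (pow_mem hj 2))
      (pow_mem hk 2) : 1 - r ^ 2 + j ^ 2 + k ^ 2 ∈ L)
  sm2 := by
    intro j k (hj : j ∈ L) (hk : k ∈ L)
    exact (add_mem (add_mem (one_mem L) (pow_mem hj 2)) (pow_mem hk 2) :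
      1 + j ^ 2 + k ^ 2 ∈ L)
  sm3 := by
    intro r (hr : r ∈ L)
    exact (sub_mem (one_mem L) (pow_mem hr 2) : 1 - r ^ 2 ∈ L)

section

variable (L : IntermediateField ℚ ℂ) (σ : L →+* ℂ)

/-- elements with real image -/
def specR : Subfield ℂ where
  carrier := {x | ∃ h : x ∈ L, (σ ⟨x, h⟩).im = 0}
  mul_mem' := by
    rintro a b ⟨ha, ha'⟩ ⟨hb, hb'⟩
    refine ⟨mul_mem ha hb, ?_⟩
    have : (⟨a * b, mul_mem ha hb⟩ : L) = ⟨a, ha⟩ * ⟨b, hb⟩ := rfl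
    rw [this, map_mul, Complex.mul_im, ha', hb']
    ring
  one_mem' := by
    refine ⟨one_mem L, ?_⟩
    have : (⟨1, one_mem L⟩ : L) = 1 := rfl
    rw [this, map_one, Complex.one_im]
  add_mem' := by
    rintro a b ⟨ha, ha'⟩ ⟨hb, hb'⟩
    refine ⟨add_mem ha hb, ?_⟩
    have : (⟨a + b, add_mem ha hb⟩ : L) = ⟨a, ha⟩ + ⟨b, hb⟩ := rfl
    rw [this, map_add, Complex.add_im, ha', hb', add_zero]
  zero_mem' := by
    refine ⟨zero_mem L, ?_⟩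
    have : (⟨0, zero_mem L⟩ : L) = 0 := rfl
    rw [this, map_zero, Complex.zero_im]
  neg_mem' := by
    rintro a ⟨ha, ha'⟩
    refine ⟨neg_mem ha, ?_⟩
    have : (⟨-a, neg_mem ha⟩ : L) = -⟨a, ha⟩ := rfl
    rw [this, map_neg, Complex.neg_im, ha', neg_zero]
  inv_mem' := by
    rintro a ⟨ha, ha'⟩
    refine ⟨inv_mem ha, ?_⟩
    have : (⟨a⁻¹, inv_mem ha⟩ : L) = (⟨a, ha⟩ : L)⁻¹ := rfl
    rw [this, map_inv₀, Complex.inv_im, ha', neg_zero, zero_div]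

/-- elements with purely imaginary image -/
def specJ : AddSubgroup ℂ where
  carrier := {x | ∃ h : x ∈ L, (σ ⟨x, h⟩).re = 0}
  add_mem' := by
    rintro a b ⟨ha, ha'⟩ ⟨hb, hb'⟩
    refine ⟨add_mem ha hb, ?_⟩
    have : (⟨a + b, add_mem ha hb⟩ : L) = ⟨a, ha⟩ + ⟨b, hb⟩ := rfl
    rw [this, map_add, Complex.add_re, ha', hb', add_zero]
  zero_mem' := by
    refine ⟨zero_mem L, ?_⟩
    have : (⟨0, zero_mem L⟩ : L) = 0 := rfl
    rw [this, map_zero, Complex.zero_re]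
  neg_mem' := by
    rintro a ⟨ha, ha'⟩
    refine ⟨neg_mem ha, ?_⟩
    have : (⟨-a, neg_mem ha⟩ : L) = -⟨a, ha⟩ := rfl
    rw [this, map_neg, Complex.neg_re, ha', neg_zero]

theorem ofReal_im {w : ℂ} (h : w.im = 0) : w = (w.re : ℂ) := by
  apply Complex.ext
  · simp
  · simp [h]

theorem ofReal_re {w : ℂ} (h : w.re = 0) : w = (w.im : ℂ) * Complex.I := by
  apply Complex.ext
  · simp [h]
  · simp

theorem real_of_sq {w : ℂ} {s : ℝ} (hs : 0 < s) (h : w ^ 2 = (s : ℂ)) : w.im = 0 := by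
  have h1 := congrArg Complex.re h
  have h2 := congrArg Complex.im h
  rw [pow_two, Complex.mul_re, Complex.ofReal_re] at h1
  rw [pow_two, Complex.mul_im, Complex.ofReal_im] at h2
  by_contra hne
  have h3 : w.re = 0 := by
    have h4 : w.re * w.im = 0 := by linarith
    exact (mul_eq_zero.1 h4).resolve_right hne
  rw [h3] at h1
  nlinarith [sq_nonneg w.im]

/-- the parity structure of a specialisation -/
noncomputable def parSpec (hL : ∀ z : ℂ, z ^ 2 ∈ L → z ∈ L) : Par where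
  R := specR L σ
  J := specJ L σ
  RJ := by
    rintro a b ⟨ha, ha'⟩ ⟨hb, hb'⟩
    refine ⟨mul_mem ha hb, ?_⟩
    have : (⟨a * b, mul_mem ha hb⟩ : L) = ⟨a, ha⟩ * ⟨b, hb⟩ := rfl
    rw [this, map_mul, Complex.mul_re, ha', hb']
    ring
  JJ := by
    rintro a b ⟨ha, ha'⟩ ⟨hb, hb'⟩
    refine ⟨mul_mem ha hb, ?_⟩
    have : (⟨a * b, mul_mem ha hb⟩ : L) = ⟨a, ha⟩ * ⟨b, hb⟩ := rfl
    rw [this, map_mul, Complex.mul_im, ha', hb']
    ring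
  I_mem := by
    have hI : Complex.I ∈ L := by
      apply hL
      rw [Complex.I_sq]
      exact neg_mem (one_mem L)
    refine ⟨hI, ?_⟩
    have h1 : (⟨Complex.I, hI⟩ : L) * ⟨Complex.I, hI⟩ = -1 := by
      apply Subtype.ext
      exact Complex.I_mul_I
    have h2 := congrArg σ h1
    rw [map_mul, map_neg, map_one] at h2
    have h3 := congrArg Complex.re h2
    have h4 := congrArg Complex.im h2
    rw [Complex.mul_re, Complex.neg_re, Complex.one_re] at h3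
    rw [Complex.mul_im, Complex.neg_im, Complex.one_im] at h4
    by_contra hne
    have h5 : (σ ⟨Complex.I, hI⟩).im = 0 := by
      have h6 : (σ ⟨Complex.I, hI⟩).re * (σ ⟨Complex.I, hI⟩).im = 0 := by linarith
      exact (mul_eq_zero.1 h6).resolve_left hne
    rw [h5] at h3
    nlinarith [sq_nonneg (σ ⟨Complex.I, hI⟩).re]
  Pos := {x | ∃ h : x ∈ L, ∃ s : ℝ, 0 < s ∧ σ ⟨x, h⟩ = (s : ℂ)}
  sqrt := by
    rintro z ⟨h, s, hs, hσ⟩
    have hz : z ∈ L := hL z h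
    refine ⟨hz, ?_⟩
    have h1 : (⟨z ^ 2, h⟩ : L) = ⟨z, hz⟩ ^ 2 := rfl
    rw [h1, map_pow] at hσ
    exact real_of_sq hs hσ
  norm_pos := by
    rintro a b c d ⟨ha, ha'⟩ ⟨hb, hb'⟩ ⟨hc, hc'⟩ ⟨hd, hd'⟩ hne
    have hmem : a ^ 2 + b ^ 2 - c ^ 2 - d ^ 2 ∈ L :=
      sub_mem (sub_mem (add_mem (pow_mem ha 2) (pow_mem hb 2)) (pow_mem hc 2)) (pow_mem hd 2)
    refine ⟨hmem, (σ ⟨a, ha⟩).re ^ 2 + (σ ⟨b, hb⟩).re ^ 2 + (σ ⟨c, hc⟩).im ^ 2 +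
      (σ ⟨d, hd⟩).im ^ 2, ?_, ?_⟩
    · have h1 : (⟨a ^ 2 + b ^ 2 - c ^ 2 - d ^ 2, hmem⟩ : L) ≠ 0 := by
        intro h
        exact hne (congrArg Subtype.val h)
      have h2 : σ ⟨a ^ 2 + b ^ 2 - c ^ 2 - d ^ 2, hmem⟩ ≠ 0 := by
        rwa [ne_eq, map_eq_zero]
      have h3 : σ ⟨a ^ 2 + b ^ 2 - c ^ 2 - d ^ 2, hmem⟩ =
          (((σ ⟨a, ha⟩).re ^ 2 + (σ ⟨b, hb⟩).re ^ 2 + (σ ⟨c, hc⟩).im ^ 2 +
          (σ ⟨d, hd⟩).im ^ 2 : ℝ) : ℂ) := by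
        have h4 : (⟨a ^ 2 + b ^ 2 - c ^ 2 - d ^ 2, hmem⟩ : L) =
            ⟨a, ha⟩ ^ 2 + ⟨b, hb⟩ ^ 2 - ⟨c, hc⟩ ^ 2 - ⟨d, hd⟩ ^ 2 := rfl
        rw [h4, map_sub, map_sub, map_add, map_pow, map_pow, map_pow, map_pow]
        rw [ofReal_im ha', ofReal_im hb', ofReal_re hc', ofReal_re hd']
        push_cast
        simp only [Complex.ofReal_re, Complex.mul_im, Complex.ofReal_im, Complex.I_im, mul_one,
          Complex.I_re, mul_zero, add_zero]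
        rw [mul_pow, mul_pow, Complex.I_sq]
        ring
      rw [h3] at h2
      have h5 : (σ ⟨a, ha⟩).re ^ 2 + (σ ⟨b, hb⟩).re ^ 2 + (σ ⟨c, hc⟩).im ^ 2 +
          (σ ⟨d, hd⟩).im ^ 2 ≠ 0 := by
        intro h
        apply h2
        rw [h, Complex.ofReal_zero]
      exact lt_of_le_of_ne (by positivity) h5.symm
    · have h4 : (⟨a ^ 2 + b ^ 2 - c ^ 2 - d ^ 2, hmem⟩ : L) =
          ⟨a, ha⟩ ^ 2 + ⟨b, hb⟩ ^ 2 - ⟨c, hc⟩ ^ 2 - ⟨d, hd⟩ ^ 2 := rfl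
      rw [h4, map_sub, map_sub, map_add, map_pow, map_pow, map_pow, map_pow]
      rw [ofReal_im ha', ofReal_im hb', ofReal_re hc', ofReal_re hd']
      push_cast
      simp only [Complex.ofReal_re, Complex.mul_im, Complex.ofReal_im, Complex.I_im, mul_one,
        Complex.I_re, mul_zero, add_zero]
      rw [mul_pow, mul_pow, Complex.I_sq]
      ring
  SmR := {x | ∃ h : x ∈ L, (σ ⟨x, h⟩).im = 0 ∧ |(σ ⟨x, h⟩).re| < 1 / 2}
  SmJ := {x | ∃ h : x ∈ L, (σ ⟨x, h⟩).re = 0 ∧ |(σ ⟨x, h⟩).im| < 1 / 2}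
  SmR_le := by
    rintro r ⟨h, h1, -⟩
    exact ⟨h, h1⟩
  SmJ_le := by
    rintro r ⟨h, h1, -⟩
    exact ⟨h, h1⟩
  sm1 := by
    rintro a c d ⟨ha, ha', ha2⟩ ⟨hc, hc', hc2⟩ ⟨hd, hd', hd2⟩
    have hmem : 1 - a ^ 2 + c ^ 2 + d ^ 2 ∈ L :=
      add_mem (add_mem (sub_mem (one_mem L) (pow_mem ha 2)) (pow_mem hc 2)) (pow_mem hd 2)
    refine ⟨hmem, 1 - (σ ⟨a, ha⟩).re ^ 2 - (σ ⟨c, hc⟩).im ^ 2 - (σ ⟨d, hd⟩).im ^ 2, ?_, ?_⟩
    · have e1 := (abs_lt.1 ha2); have e2 := (abs_lt.1 hc2); have e3 := (abs_lt.1 hd2)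
      nlinarith
    · have h4 : (⟨1 - a ^ 2 + c ^ 2 + d ^ 2, hmem⟩ : L) =
          1 - ⟨a, ha⟩ ^ 2 + ⟨c, hc⟩ ^ 2 + ⟨d, hd⟩ ^ 2 := rfl
      rw [h4, map_add, map_add, map_sub, map_one, map_pow, map_pow, map_pow]
      rw [ofReal_im ha', ofReal_re hc', ofReal_re hd']
      push_cast
      simp only [Complex.ofReal_re, Complex.mul_im, Complex.ofReal_im, Complex.I_im, mul_one,
        Complex.I_re, mul_zero, add_zero]
      rw [mul_pow, mul_pow, Complex.I_sq]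
      ring
  sm2 := by
    rintro c d ⟨hc, hc', hc2⟩ ⟨hd, hd', hd2⟩
    have hmem : 1 + c ^ 2 + d ^ 2 ∈ L :=
      add_mem (add_mem (one_mem L) (pow_mem hc 2)) (pow_mem hd 2)
    refine ⟨hmem, 1 - (σ ⟨c, hc⟩).im ^ 2 - (σ ⟨d, hd⟩).im ^ 2, ?_, ?_⟩
    · have e2 := (abs_lt.1 hc2); have e3 := (abs_lt.1 hd2)
      nlinarith
    · have h4 : (⟨1 + c ^ 2 + d ^ 2, hmem⟩ : L) = 1 + ⟨c, hc⟩ ^ 2 + ⟨d, hd⟩ ^ 2 := rfl
      rw [h4, map_add, map_add, map_one, map_pow, map_pow]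
      rw [ofReal_re hc', ofReal_re hd']
      push_cast
      simp only [Complex.ofReal_re, Complex.mul_im, Complex.ofReal_im, Complex.I_im, mul_one,
        Complex.I_re, mul_zero, add_zero]
      rw [mul_pow, mul_pow, Complex.I_sq]
      ring
  sm3 := by
    rintro a ⟨ha, ha', ha2⟩
    have hmem : 1 - a ^ 2 ∈ L := sub_mem (one_mem L) (pow_mem ha 2)
    refine ⟨hmem, 1 - (σ ⟨a, ha⟩).re ^ 2, ?_, ?_⟩
    · have e1 := (abs_lt.1 ha2)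
      nlinarith
    · have h4 : (⟨1 - a ^ 2, hmem⟩ : L) = 1 - ⟨a, ha⟩ ^ 2 := rfl
      rw [h4, map_sub, map_one, map_pow, ofReal_im ha']
      push_cast
      simp only [Complex.ofReal_re]

/-- Hamiltonian matrices of determinant one have bounded trace -/
theorem trace_bound (hL : ∀ z : ℂ, z ^ 2 ∈ L → z ∈ L) {M : Matrix (Fin 2) (Fin 2) ℂ}
    (hM : (parSpec L σ hL).H M) (hdet : M.det = 1) :
    ∃ h : M.trace ∈ L, ‖σ ⟨M.trace, h⟩‖ ≤ 2 := by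
  obtain ⟨⟨h0, h0'⟩, ⟨h1, h1'⟩, ⟨h2, h2'⟩, ⟨h3, h3'⟩⟩ := hM
  have htr : M.trace = 2 * x0 M := trace_coord M
  have hmem : M.trace ∈ L := by
    rw [htr]
    exact mul_mem (ofNat_mem L 2) h0
  refine ⟨hmem, ?_⟩
  have h4 : (⟨M.trace, hmem⟩ : L) = 2 * ⟨x0 M, h0⟩ := Subtype.ext htr
  rw [h4, map_mul, map_ofNat, norm_mul, ofReal_im h0', Complex.norm_real, Complex.norm_two,
    Real.norm_eq_abs]
  have h5 : (1 : L) = ⟨x0 M, h0⟩ ^ 2 + ⟨x1 M, h1⟩ ^ 2 - ⟨x2 M, h2⟩ ^ 2 - ⟨x3 M, h3⟩ ^ 2 := by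
    apply Subtype.ext
    rw [det_coord] at hdet
    exact hdet.symm
  have h6 := congrArg σ h5
  rw [map_one, map_sub, map_sub, map_add, map_pow, map_pow, map_pow, map_pow, ofReal_im h0',
    ofReal_im h1', ofReal_re h2', ofReal_re h3', mul_pow, mul_pow, Complex.I_sq] at h6
  have h7 : (1 : ℝ) = (σ ⟨x0 M, h0⟩).re ^ 2 + (σ ⟨x1 M, h1⟩).re ^ 2 + (σ ⟨x2 M, h2⟩).im ^ 2 +
      (σ ⟨x3 M, h3⟩).im ^ 2 := by
    have h8 : ((1 : ℝ) : ℂ) = (((σ ⟨x0 M, h0⟩).re ^ 2 + (σ ⟨x1 M, h1⟩).re ^ 2 +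
        (σ ⟨x2 M, h2⟩).im ^ 2 + (σ ⟨x3 M, h3⟩).im ^ 2 : ℝ) : ℂ) := by
      push_cast
      rw [h6]
      ring
    exact_mod_cast h8
  have h9 : (σ ⟨x0 M, h0⟩).re ^ 2 ≤ 1 := by
    nlinarith [sq_nonneg (σ ⟨x1 M, h1⟩).re, sq_nonneg (σ ⟨x2 M, h2⟩).im,
      sq_nonneg (σ ⟨x3 M, h3⟩).im]
  have h10 : |(σ ⟨x0 M, h0⟩).re| ≤ 1 := by
    rw [← sq_le_one_iff_abs_le_one]
    exact h9
  linarith

end

end Pool.Agent.H79.WC
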