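import Pool.Agent.H79.WC.Normal

set_option autoImplicit false

open Matrix Set Cardinal
open scoped commutatorElement

namespace Pool.Agent.H79.WC


noncomputable def crd (k : Fin 3) (M : Matrix (Fin 2) (Fin 2) ℂ) : ℂ := ![x1 M, x2 M, x3 M] k

/-- the parameters of a normalised representation of a surface group -/
noncomputable def prm {n : ℕ} (a b : Fin (n + 2) → SL2) (v : Fin 3 → ℂ) :
    (Fin n × Bool × Fin 3) ⊕ (Fin 3 ⊕ Fin 3) → ℂ :=
  Sum.elim (fun t => crd t.2.2 (mt (cond t.2.1 (a t.1.succ.castSucc) (b t.1.succ.castSucc))))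
    (Sum.elim ![x2 (mt (a 0)), x2 (mt (b 0)), x3 (mt (b 0))] v)

/-- real or imaginary -/
noncomputable def typ {n : ℕ} : (Fin n × Bool × Fin 3) ⊕ (Fin 3 ⊕ Fin 3) → ℂ :=
  Sum.elim (fun t => ![1, Complex.I, Complex.I] t.2.2)
    (Sum.elim ![Complex.I, Complex.I, Complex.I] ![Complex.I, Complex.I, 1])

theorem typ_or {n : ℕ} (i : (Fin n × Bool × Fin 3) ⊕ (Fin 3 ⊕ Fin 3)) :
    typ i = 1 ∨ typ i = Complex.I := by
  rcases i with ⟨i, t, k⟩ | k | k
  · change ![1, Complex.I, Complex.I] k = 1 ∨ ![1, Complex.I, Complex.I] k = Complex.I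
    fin_cases k <;> simp
  · change ![Complex.I, Complex.I, Complex.I] k = 1 ∨ ![Complex.I, Complex.I, Complex.I] k =
      Complex.I
    fin_cases k <;> simp
  · change ![Complex.I, Complex.I, 1] k = 1 ∨ ![Complex.I, Complex.I, 1] k = Complex.I
    fin_cases k <;> simp

theorem card_prm (n : ℕ) :
    Fintype.card ((Fin n × Bool × Fin 3) ⊕ (Fin 3 ⊕ Fin 3)) = 6 * n + 6 := by
  simp
  ring

/-- normalised version -/
theorem exists_twist_normal {n : ℕ} (a b : Fin (n + 2) → SL2)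
    (hrel : (List.ofFn fun i => ⁅a i, b i⁆).prod = 1)
    (hn1 : x1 (mt (a 0)) = 0) (hn2 : x3 (mt (a 0)) = 0) (hn3 : x1 (mt (b 0)) = 0)
    (hc : (mt ⁅a (Fin.last (n + 1)), b (Fin.last (n + 1))⁆).trace ≠ 2)
    (ha : (mt (a (Fin.last (n + 1)))).trace ^ 2 ≠ 4)
    (htr : ((6 * n + 6 : ℕ) : Cardinal) ≤ Algebra.trdeg ℚ
      (acl ℚ {z : ℂ | ∃ i j k, z = mt (a i) j k ∨ z = mt (b i) j k})) :
    ∃ (L : IntermediateField ℚ ℂ) (σ : L →+* ℂ), ∀ g ∈ Subgroup.closure (range a ∪ range b),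
      ∃ h : (mt g).trace ∈ L, ‖σ ⟨_, h⟩‖ ≤ 2 := by
  set S : Set ℂ := {z : ℂ | ∃ i j k, z = mt (a i) j k ∨ z = mt (b i) j k} with hSdef
  set a₀ := a (Fin.last (n + 1)) with ha₀
  set b₀ := b (Fin.last (n + 1)) with hb₀
  obtain ⟨X, hX, hs⟩ := exists_X a₀ b₀ ha
  obtain ⟨ν, hν⟩ := IsAlgClosed.exists_pow_nat_eq (cM a₀ b₀ - 1).det two_pos
  obtain ⟨κ, hκ⟩ := IsAlgClosed.exists_pow_nat_eq (sM a₀ b₀ X).det two_pos
  obtain ⟨μ, hμ⟩ := IsAlgClosed.exists_pow_nat_eq (qM a₀).det two_pos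
  have hν0 := det_cM_ne a₀ b₀ hc
  have hm := det_qM_ne a₀ ha
  set v : Fin 3 → ℂ := ![x2 (pM a₀ b₀) / ν, x3 (pM a₀ b₀) / ν, thM a₀ b₀ X κ μ] with hv
  set P := prm a b v with hP
  -- the parameters are algebraic over the entries
  have hent : ∀ i, (parMem (acl ℚ S) (fun z h => acl_sq h)).H (mt (a i)) ∧
      (parMem (acl ℚ S) (fun z h => acl_sq h)).H (mt (b i)) := by
    intro i
    exact ⟨parMem_H.2 fun j k => subset_acl S ⟨i, j, k, Or.inl rfl⟩,
      parMem_H.2 fun j k => subset_acl S ⟨i, j, k, Or.inr rfl⟩⟩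
  have hPS : ∀ i, P i ∈ acl ℚ S := by
    rintro (⟨i, t, k⟩ | k | k)
    · change crd k (mt (cond t (a i.succ.castSucc) (b i.succ.castSucc))) ∈ acl ℚ S
      have h1 : (parMem (acl ℚ S) (fun z h => acl_sq h)).H
          (mt (cond t (a i.succ.castSucc) (b i.succ.castSucc))) := by
        cases t
        · exact (hent i.succ.castSucc).2
        · exact (hent i.succ.castSucc).1
      fin_cases k
      · exact h1.h1
      · exact h1.h2
      · exact h1.h3
    · change (![x2 (mt (a 0)), x2 (mt (b 0)), x3 (mt (b 0))] : Fin 3 → ℂ) k ∈ acl ℚ S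
      fin_cases k
      · exact (hent 0).1.h2
      · exact (hent 0).2.h2
      · exact (hent 0).2.h3
    · change v k ∈ acl ℚ S
      obtain ⟨e1, e2, e3⟩ := params_mem a₀ b₀ (fun z h => acl_sq h) (hent (Fin.last (n + 1))).1
        (hent (Fin.last (n + 1))).2 hν hX hκ hμ
      fin_cases k
      · exact e1
      · exact e2
      · exact e3
  -- the entries are algebraic over the parameters
  set L := acl ℚ (range P) with hL
  have hLsq : ∀ z : ℂ, z ^ 2 ∈ L → z ∈ L := fun z h => acl_sq h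
  have hPL : ∀ i, P i ∈ L := fun i => subset_acl _ (mem_range_self i)
  have hSP : S ⊆ L := by
    have h1 := all_handles a b hrel (parMem L hLsq)
      (fun i => by
        induction i using Fin.cases with
        | zero =>
          rw [Fin.castSucc_zero, hn1, hn2]
          exact ⟨zero_mem L, hPL (Sum.inr (Sum.inl 0)), zero_mem L⟩
        | succ i =>
          exact ⟨hPL (Sum.inl (i, true, 0)), hPL (Sum.inl (i, true, 1)),
            hPL (Sum.inl (i, true, 2))⟩)
      (fun i => by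
        induction i using Fin.cases with
        | zero =>
          rw [Fin.castSucc_zero, hn3]
          exact ⟨zero_mem L, hPL (Sum.inr (Sum.inl 1)), hPL (Sum.inr (Sum.inl 2))⟩
        | succ i =>
          exact ⟨hPL (Sum.inl (i, false, 0)), hPL (Sum.inl (i, false, 1)),
            hPL (Sum.inl (i, false, 2))⟩)
      hν hν0 hX hm hs hκ hμ (hPL (Sum.inr (Sum.inr 0))) (hPL (Sum.inr (Sum.inr 1)))
      (hPL (Sum.inr (Sum.inr 2)))
    rintro z ⟨i, j, k, h | h⟩
    · rw [h]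
      exact parMem_H.1 (h1 i).1 j k
    · rw [h]
      exact parMem_H.1 (h1 i).2 j k
  have hind : AlgebraicIndependent ℚ P := by
    apply indep_of_acl' hPS hSP
    rw [card_prm]
    exact htr
  obtain ⟨r, hr, hr2⟩ := exists_small_indep (typ (n := n)) typ_or (δ := 1 / 2) (by norm_num)
  obtain ⟨σ, hσ⟩ := exists_spec hind hr2
  refine ⟨L, σ, ?_⟩
  have hreal : ∀ i, typ i = 1 → P i ∈ (parSpec L σ hLsq).SmR := by
    intro i hi
    refine ⟨hPL i, ?_⟩
    rw [hσ i, hi, one_mul]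
    exact ⟨Complex.ofReal_im _, by rw [Complex.ofReal_re]; exact hr i⟩
  have himag : ∀ i, typ i = Complex.I → P i ∈ (parSpec L σ hLsq).SmJ := by
    intro i hi
    refine ⟨hPL i, ?_⟩
    rw [hσ i, hi]
    constructor
    · simp
    · simpa using hr i
  have hzero : σ ⟨0, zero_mem L⟩ = 0 := map_zero σ
  have hzR : (0 : ℂ) ∈ (parSpec L σ hLsq).SmR := by
    refine ⟨zero_mem L, ?_⟩
    rw [hzero]
    simp
  have hzJ : (0 : ℂ) ∈ (parSpec L σ hLsq).SmJ := by
    refine ⟨zero_mem L, ?_⟩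
    rw [hzero]
    simp
  have hall := all_handles a b hrel (parSpec L σ hLsq)
      (fun i => by
        induction i using Fin.cases with
        | zero =>
          rw [Fin.castSucc_zero, hn1, hn2]
          exact ⟨hzR, himag (Sum.inr (Sum.inl 0)) rfl, hzJ⟩
        | succ i =>
          exact ⟨hreal (Sum.inl (i, true, 0)) rfl, himag (Sum.inl (i, true, 1)) rfl,
            himag (Sum.inl (i, true, 2)) rfl⟩)
      (fun i => by
        induction i using Fin.cases with
        | zero =>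
          rw [Fin.castSucc_zero, hn3]
          exact ⟨hzR, himag (Sum.inr (Sum.inl 1)) rfl, himag (Sum.inr (Sum.inl 2)) rfl⟩
        | succ i =>
          exact ⟨hreal (Sum.inl (i, false, 0)) rfl, himag (Sum.inl (i, false, 1)) rfl,
            himag (Sum.inl (i, false, 2)) rfl⟩)
      hν hν0 hX hm hs hκ hμ (himag (Sum.inr (Sum.inr 0)) rfl) (himag (Sum.inr (Sum.inr 1)) rfl)
      (hreal (Sum.inr (Sum.inr 2)) rfl)
  have hle : Subgroup.closure (range a ∪ range b) ≤ (parSpec L σ hLsq).sub := by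
    rw [Subgroup.closure_le]
    rintro _ (⟨i, rfl⟩ | ⟨i, rfl⟩)
    · exact (hall i).1
    · exact (hall i).2
  intro g hg
  exact trace_bound L σ hLsq (hle hg) (mt_det g)

theorem trace_conj' (k g : SL2) : (mt (k⁻¹ * g * k)).trace = (mt g).trace := by
  have h2 := trace_conj k⁻¹ (mt g)
  rw [inv_inv] at h2
  exact h2

/-- intrinsic version: the hypothesis is on the field generated by the traces -/
theorem exists_twist {n : ℕ} (a b : Fin (n + 2) → SL2)
    (hrel : (List.ofFn fun i => ⁅a i, b i⁆).prod = 1)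
    (hc : ∀ i, (mt ⁅a i, b i⁆).trace ≠ 2) (ha : ∀ i, (mt (a i)).trace ^ 2 ≠ 4)
    (htr : ∀ L : IntermediateField ℚ ℂ,
      (∀ g ∈ Subgroup.closure (range a ∪ range b), (mt g).trace ∈ L) →
      ((6 * n + 6 : ℕ) : Cardinal) ≤ Algebra.trdeg ℚ L) :
    ∃ (L : IntermediateField ℚ ℂ) (σ : L →+* ℂ), ∀ g ∈ Subgroup.closure (range a ∪ range b),
      ∃ h : (mt g).trace ∈ L, ‖σ ⟨_, h⟩‖ ≤ 2 := by
  obtain ⟨k, hn1, hn2, hn3⟩ := exists_normal (a 0) (b 0) (ha 0) (hc 0)
  let f : SL2 →* SL2 := (MulAut.conj k⁻¹).toMonoidHom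
  have hf : ∀ g, f g = k⁻¹ * g * k := by
    intro g
    change k⁻¹ * g * (k⁻¹)⁻¹ = k⁻¹ * g * k
    rw [inv_inv]
  have hftr : ∀ g, (mt (f g)).trace = (mt g).trace := fun g => by rw [hf, trace_conj']
  have hfc : ∀ i, ⁅f (a i), f (b i)⁆ = f ⁅a i, b i⁆ := fun i => (map_commutatorElement f _ _).symm
  have hrel' : (List.ofFn fun i => ⁅f (a i), f (b i)⁆).prod = 1 := by
    have h1 : (List.ofFn fun i => ⁅f (a i), f (b i)⁆) =
        (List.ofFn fun i => ⁅a i, b i⁆).map f := by
      rw [List.map_ofFn]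
      congr 1
      funext i
      exact hfc i
    rw [h1, ← map_list_prod, hrel, map_one]
  have hmap : Subgroup.closure (range (fun i => f (a i)) ∪ range (fun i => f (b i))) =
      (Subgroup.closure (range a ∪ range b)).map f := by
    rw [MonoidHom.map_closure, Set.image_union, ← Set.range_comp, ← Set.range_comp]
    rfl
  obtain ⟨L, σ, hσ⟩ := exists_twist_normal (fun i => f (a i)) (fun i => f (b i)) hrel'
    (by rw [hf]; exact hn1) (by rw [hf]; exact hn2) (by rw [hf]; exact hn3)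
    (by rw [hfc, hftr]; exact hc _) (by rw [hftr]; exact ha _) (by
      apply htr
      intro g hg
      rw [← hftr]
      set T := {z : ℂ | ∃ i j k, z = mt (f (a i)) j k ∨ z = mt (f (b i)) j k}
      have hle : Subgroup.closure (range (fun i => f (a i)) ∪ range (fun i => f (b i))) ≤
          (parMem (acl ℚ T) (fun z h => acl_sq h)).sub := by
        rw [Subgroup.closure_le]
        rintro _ (⟨i, rfl⟩ | ⟨i, rfl⟩)
        · exact parMem_H.2 fun j k => subset_acl T ⟨i, j, k, Or.inl rfl⟩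
        · exact parMem_H.2 fun j k => subset_acl T ⟨i, j, k, Or.inr rfl⟩
      have h1 : f g ∈ (parMem (acl ℚ T) (fun z h => acl_sq h)).sub := by
        apply hle
        rw [hmap]
        exact ⟨g, hg, rfl⟩
      exact Par.H.trace_mem h1)
  refine ⟨L, σ, ?_⟩
  intro g hg
  rw [← hftr g]
  apply hσ
  rw [hmap]
  exact ⟨g, hg, rfl⟩

end Pool.Agent.H79.WC
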