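import Pool.Agent.H79.WC.Base

set_option autoImplicit false

open Polynomial Matrix

namespace Pool.Agent.H79.WC

section alg

variable {R : Type*} [Ring R] [Algebra ℂ R]

/-- `(1 + N A)(1 + B) - 1` -/
theorem word_sub {A B : R} (N : ℂ) :
    (1 + N • A) * (1 + B) - 1 = N • A + B + N • (A * B) := by
  simp only [mul_add, add_mul, one_mul, mul_one, smul_mul_assoc]
  abel

theorem word_sq {A B : R} {c : ℂ} (hA : A * A = 0) (hB : B * B = 0) (hABA : A * B * A = c • A)
    (hBAB : B * A * B = c • B) (N : ℂ) :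
    (N • A + B + N • (A * B)) * (N • A + B + N • (A * B)) =
      (N * c) • (N • A + B + N • (A * B)) + N • (A * B + B * A) := by
  have e1 : A * B * (A * B) = c • (A * B) := by
    rw [← mul_assoc, hABA, smul_mul_assoc]
  have e2 : B * (A * B) = c • B := by rw [← mul_assoc, hBAB]
  have e3 : A * B * B = 0 := by rw [mul_assoc, hB, mul_zero]
  have e4 : A * (A * B) = 0 := by rw [← mul_assoc, hA, zero_mul]
  simp only [mul_add, add_mul, smul_mul_assoc, mul_smul_comm, hA, hB, hABA, e1, e2, e3, e4,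
    smul_zero, smul_add, smul_smul]
  module

theorem word_kill {A B : R} {c : ℂ} (hA : A * A = 0) (hB : B * B = 0) (hABA : A * B * A = c • A)
    (hBAB : B * A * B = c • B) (N : ℂ) :
    (N • A + B + N • (A * B)) * (A * B + B * A - c • (1 : R)) = 0 := by
  have e0 : A * (A * B + B * A - c • (1 : R)) = 0 := by
    rw [mul_sub, mul_add, ← mul_assoc, hA, zero_mul, ← mul_assoc, hABA, mul_smul_comm, mul_one,
      zero_add, sub_self]
  have e1 : B * (A * B + B * A - c • (1 : R)) = 0 := by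
    rw [mul_sub, mul_add, ← mul_assoc, hBAB, ← mul_assoc, hB, zero_mul, mul_smul_comm, mul_one,
      add_zero, sub_self]
  rw [add_mul, add_mul, smul_mul_assoc, smul_mul_assoc, mul_assoc, e0, e1]
  simp

/-- the cubic relation satisfied by `w = (1 + N A)(1 + B)` -/
theorem word_cubic {A B : R} {c : ℂ} (hA : A * A = 0) (hB : B * B = 0)
    (hABA : A * B * A = c • A) (hBAB : B * A * B = c • B) (N : ℂ) (w : R)
    (hw : w = (1 + N • A) * (1 + B)) :
    (w - 1) * (w * w - (2 + N * c) • w + 1) = 0 := by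
  have h1 := word_sub (A := A) (B := B) N
  have h2 := word_sq hA hB hABA hBAB N
  have h3 := word_kill hA hB hABA hBAB N
  rw [← hw] at h1
  set M := N • A + B + N • (A * B) with hM
  have h4 : w = 1 + M := by rw [← h1]; abel
  have h5 : w * w - (2 + N * c) • w + 1 = N • (A * B + B * A - c • (1 : R)) := by
    rw [h4]
    have h6 : (1 + M) * (1 + M) = 1 + (2 : ℂ) • M + M * M := by
      simp only [mul_add, add_mul, one_mul, mul_one]
      module
    rw [h6, h2]
    module
  rw [h5, h1, mul_smul_comm, h3, smul_zero]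

end alg

/-- the polynomial `(X - 1)(X - z)(X - 1/z)` -/
theorem squarefree_cubic {z : ℂ} (hz0 : z ≠ 0) (hz1 : z ≠ 1) (hz2 : z * z ≠ 1) :
    Squarefree ((X - C 1) * ((X - C z) * (X - C z⁻¹)) : ℂ[X]) := by
  have h1 : (1 : ℂ) ≠ z := fun h => hz1 h.symm
  have h2 : (1 : ℂ) ≠ z⁻¹ := by
    intro h
    apply hz1
    rw [← inv_inv z, ← h, inv_one]
  have h3 : z ≠ z⁻¹ := by
    intro h
    apply hz2
    nth_rewrite 2 [h]
    exact mul_inv_cancel₀ hz0
  have hc : ∀ {a b : ℂ}, a ≠ b → IsCoprime (X - C a : ℂ[X]) (X - C b) := by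
    intro a b hab
    exact Polynomial.isCoprime_X_sub_C_of_isUnit_sub (sub_ne_zero.2 hab).isUnit
  apply Polynomial.Separable.squarefree
  refine Polynomial.Separable.mul Polynomial.separable_X_sub_C
    (Polynomial.Separable.mul Polynomial.separable_X_sub_C Polynomial.separable_X_sub_C (hc h3)) ?_
  exact IsCoprime.mul_right (hc h1) (hc h2)

/-- the basic facts on a matrix `w` with `(w - 1)(w² - t w + 1) = 0`, `t = z + 1/z`, `|z| ≠ 1` -/
theorem cubic_facts {m : ℕ} {g : GL (Fin m) ℂ} {z : ℂˣ} (hz : ‖(z : ℂ)‖ ≠ 1) {t : ℂ}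
    (ht : t = (z : ℂ) + (z : ℂ)⁻¹)
    (hg : ((g : Matrix (Fin m) (Fin m) ℂ) - 1) *
      ((g : Matrix (Fin m) (Fin m) ℂ) * (g : Matrix (Fin m) (Fin m) ℂ) -
        t • (g : Matrix (Fin m) (Fin m) ℂ) + 1) = 0)
    (hg1 : g ≠ 1) :
    SSInf g ∧ charValues g ≤ Subgroup.zpowers z := by
  have hz0 : (z : ℂ) ≠ 0 := z.ne_zero
  have hz1 : (z : ℂ) ≠ 1 := by
    intro h
    rw [h] at hz
    simp at hz
  have hz2 : (z : ℂ) * z ≠ 1 := by
    intro h
    apply hz
    have h1 : ‖(z : ℂ)‖ * ‖(z : ℂ)‖ = 1 := by rw [← norm_mul, h, norm_one]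
    nlinarith [norm_nonneg (z : ℂ)]
  set W : Matrix (Fin m) (Fin m) ℂ := (g : Matrix (Fin m) (Fin m) ℂ) with hW
  set q : ℂ[X] := (X - C 1) * ((X - C (z : ℂ)) * (X - C (z : ℂ)⁻¹)) with hq
  have hprod : (W - (z : ℂ) • (1 : Matrix (Fin m) (Fin m) ℂ)) *
      (W - (z : ℂ)⁻¹ • (1 : Matrix (Fin m) (Fin m) ℂ)) = W * W - t • W + 1 := by
    rw [sub_mul, mul_sub, mul_sub, smul_mul_assoc, one_mul, mul_smul_comm, mul_one, smul_mul_smul_comm,
      mul_one, mul_inv_cancel₀ hz0, ht]
    module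
  have hal : aeval W q = 0 := by
    rw [hq, map_mul, map_mul, map_sub, map_sub, map_sub, aeval_X, aeval_C, aeval_C, aeval_C,
      Algebra.algebraMap_eq_smul_one, Algebra.algebraMap_eq_smul_one,
      Algebra.algebraMap_eq_smul_one, one_smul, hprod]
    exact hg
  have hspec : ∀ x ∈ spectrum ℂ W, x = 1 ∨ x = z ∨ x = (z : ℂ)⁻¹ := by
    intro x hx
    have h1 : q.eval x ∈ spectrum ℂ (aeval W q) :=
      spectrum.subset_polynomial_aeval W q ⟨x, hx, rfl⟩
    rw [hal] at h1
    have hne : Nontrivial (Matrix (Fin m) (Fin m) ℂ) := by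
      by_contra hcon
      rw [not_nontrivial_iff_subsingleton] at hcon
      have : spectrum ℂ W = ∅ := spectrum.of_subsingleton W
      rw [this] at hx
      exact hx
    rw [spectrum.zero_eq, Set.mem_singleton_iff, hq] at h1
    simp only [eval_mul, eval_sub, eval_X, eval_C, mul_eq_zero, sub_eq_zero] at h1
    exact h1
  refine ⟨⟨?_, ?_⟩, ?_⟩
  · have hal' : aeval (Matrix.toLin' W) q = 0 := by
      have h1 : aeval (Matrix.toLinAlgEquiv' W) q = Matrix.toLinAlgEquiv' (aeval W q) := by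
        exact (Polynomial.aeval_algHom_apply (Matrix.toLinAlgEquiv' (R := ℂ) (n := Fin m)).toAlgHom W q)
      rw [hal, map_zero] at h1
      exact h1
    exact Module.End.isSemisimple_of_squarefree_aeval_eq_zero (squarefree_cubic hz0 hz1 hz2) hal'
  · intro hfin
    obtain ⟨n, hn, hgn⟩ := isOfFinOrder_iff_pow_eq_one.1 hfin
    have hWn : W ^ n = 1 := by
      have := congrArg (Units.val) hgn
      simpa using this
    have hroot : ∀ x ∈ spectrum ℂ W, ‖x‖ = 1 := by
      intro x hx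
      have h1 := spectrum.pow_mem_pow W n hx
      have hne : Nontrivial (Matrix (Fin m) (Fin m) ℂ) := by
        by_contra hcon
        rw [not_nontrivial_iff_subsingleton] at hcon
        have : spectrum ℂ W = ∅ := spectrum.of_subsingleton W
        rw [this] at hx
        exact hx
      rw [hWn, spectrum.one_eq, Set.mem_singleton_iff] at h1
      exact (pow_eq_one_iff_of_nonneg (norm_nonneg x) hn.ne').1 (by rw [← norm_pow, h1, norm_one])
    have hinv : ∀ x : ℂ, ‖x‖ ≠ 1 → IsUnit (W - x • (1 : Matrix (Fin m) (Fin m) ℂ)) := by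
      intro x hx
      have h1 : x ∉ spectrum ℂ W := fun h => hx (hroot x h)
      rw [spectrum.mem_iff, not_not, Algebra.algebraMap_eq_smul_one] at h1
      have h2 := h1.neg
      rwa [neg_sub] at h2
    have hu1 := hinv z hz
    have hu2 := hinv (z : ℂ)⁻¹ (by rw [norm_inv]; intro h; exact hz (inv_eq_one.1 h))
    have hu3 := hu1.mul hu2
    rw [hprod] at hu3
    have h0 : W - 1 = 0 := by
      have h1 := hu3.mul_left_eq_zero.1 hg
      exact h1
    apply hg1
    ext1
    rw [← hW, sub_eq_zero.1 h0]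
    rfl
  · rw [charValues, Subgroup.closure_le]
    intro x hx
    have hx' := hspec _ hx
    rcases hx' with h | h | h
    · have : x = 1 := Units.ext h
      rw [this]
      exact Subgroup.one_mem _
    · have : x = z := Units.ext h
      rw [this]
      exact Subgroup.mem_zpowers z
    · have : x = z⁻¹ := Units.ext (by rw [h]; simp)
      rw [this]
      exact Subgroup.inv_mem _ (Subgroup.mem_zpowers z)

/-- a complex number `t` of modulus `> 2` is `z + 1/z` with `|z| ≠ 1` -/
theorem exists_eig {t : ℂ} (ht : 2 < ‖t‖) : ∃ z : ℂˣ, t = (z : ℂ) + (z : ℂ)⁻¹ ∧ ‖(z : ℂ)‖ ≠ 1 := by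
  obtain ⟨s, hs⟩ := IsAlgClosed.exists_pow_nat_eq (t ^ 2 / 4 - 1) (n := 2) (by norm_num)
  set z : ℂ := t / 2 + s with hz
  have h1 : z * (t - z) = 1 := by
    rw [hz]
    linear_combination -hs
  have hz0 : z ≠ 0 := left_ne_zero_of_mul_eq_one h1
  have h2 : t - z = z⁻¹ := eq_inv_of_mul_eq_one_right h1
  refine ⟨Units.mk0 z hz0, ?_, ?_⟩
  · rw [Units.val_mk0, ← h2]
    ring
  · rw [Units.val_mk0]
    intro h
    have h3 : ‖t‖ ≤ 2 := by
      have h4 : t = z + z⁻¹ := by rw [← h2]; ring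
      rw [h4]
      refine (norm_add_le _ _).trans ?_
      rw [norm_inv, h]
      norm_num
    linarith

end Pool.Agent.H79.WC
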